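import Pool.Agent.NUC43.CfgS
import Pool.Agent.NUC43.SlkC
import Pool.Agent.NUH0.Dat

/-!
# The exponent `En` of the data of a configuration

`X : NUH0.Dat` with both species on the path `t + i η`, `F = FO`, `τ = tauC`, `μ = muC`,
`E a t = slO a t + B a t`:

`En = ∑_i [s mfo + s slk - 2 π wK s P η] + 1/2 ∑∑ ER + ∑_a ∫ s P B_a + ∑_a ∫ μ_a φ_a + bil h' h' + small`.
-/

set_option autoImplicit false

open MeasureTheory Set Filter Topology Complex

namespace NUH0

noncomputable section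

open NUO (Kind Xo kd ht Par PG FO mfo wK cons slkK)
open NUMF (P)
open NUC43 (slk tauC muC sgX sgY sgT Adm)
open Pool.Agent.NUM3 (ER)

variable {r : ℕ}

/-- slack of the objects on the species `a` -/
def slO (O : Fin r → Xo) (a : Bool) (t : ℝ) : ℝ :=
  ∑ i, if NUO.sp (O i) = a then slkK slk (kd (O i)) (t - ht (O i)) else 0

lemma P_slk_int (x : ℝ) : Integrable fun t => P t * slk (t - x) := by
  obtain ⟨M, D, hM, -, -, h3, -⟩ := NUC43.slk_deriv
  have hc := NUC43.slk_cont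
  refine NUMF.P_integrable.mul_bdd (c := M) (Continuous.aestronglyMeasurable (by fun_prop))
    (Eventually.of_forall fun t => ?_)
  rw [Real.norm_eq_abs]
  refine (h3 _).trans ?_
  have : Real.exp (-(5 / 2) * |t - x|) ≤ 1 := Real.exp_le_one_iff.2 (by
    have := abs_nonneg (t - x)
    linarith)
  exact mul_le_of_le_one_right hM this

lemma slkK_int (K : Kind) (x : ℝ) : Integrable (fun t => P t * slkK slk K (t - x)) ∧
    ∫ t, P t * slkK slk K (t - x) = slkK (fun t => ∫ u, P u * slk (u - t)) K x := by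
  cases K
  · simp [slkK]
  · simp [slkK]
  · exact ⟨P_slk_int x, rfl⟩
  · constructor
    · exact ((P_slk_int x).div_const 2).congr (Eventually.of_forall fun t => by simp only [slkK]; ring)
    · simp only [slkK]
      rw [← integral_div]
      congr 1
      funext t
      ring
  · simp [slkK]

lemma slO_int (O : Fin r → Xo) (a : Bool) : Integrable (fun t => P t * slO O a t) ∧
    ∫ t, P t * slO O a t = ∑ i, if NUO.sp (O i) = a then
      slkK (fun t => ∫ u, P u * slk (u - t)) (kd (O i)) (ht (O i)) else 0 := by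
  have h1 : ∀ i, Integrable fun t => P t * (if NUO.sp (O i) = a then
      slkK slk (kd (O i)) (t - ht (O i)) else 0) := by
    intro i
    split_ifs
    · exact (slkK_int _ _).1
    · simp
  unfold slO
  simp_rw [Finset.mul_sum]
  refine ⟨integrable_finsetSum _ fun i _ => h1 i, ?_⟩
  rw [integral_finsetSum _ fun i _ => h1 i]
  refine Finset.sum_congr rfl fun i _ => ?_
  split_ifs
  · exact (slkK_int _ _).2
  · simp

lemma slO_sum (O : Fin r → Xo) : ∑ a, ∫ t, P t * slO O a t =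
    ∑ i, slkK (fun t => ∫ u, P u * slk (u - t)) (kd (O i)) (ht (O i)) := by
  simp_rw [(slO_int O _).2]
  rw [Fintype.sum_bool, ← Finset.sum_add_distrib]
  refine Finset.sum_congr rfl fun i _ => ?_
  rcases NUO.sp (O i) <;> simp

/-- **The exponent of a configuration.** -/
theorem En_cfg {δ : ℝ} (hδ : 0 < δ) (hδ1 : δ ≤ 1 / 2) : ∃ C : ℝ, 1 ≤ C ∧
    ∀ (s ε M b K : ℝ) (e η η1 : ℝ → ℝ) (Q : Par) (r : ℕ) (O : Fin r → Xo) (B : Bool → ℝ → ℝ) (X : Dat),
      PG δ Q → Adm Q.jL Q.e → 0 ≤ s → NUAct.Cur s ε M b e η → (∀ t, HasDerivAt η (η1 t) t) → 0 ≤ b →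
      C * (b + 1) ^ 7 * ε ≤ 1 → 0 ≤ K → (∀ t t', |s * P t * η t - s * P t' * η t'| ≤ K * |t - t'|) →
      X.s = s → (∀ a, X.ζ a = NUAct.zt (NUKer.iD η)) → (∀ a, X.ζ' a = NUAct.zd (NUKer.iD η1)) →
      (∀ a, X.F a = FO Q O a) → X.τ = tauC Q.jL Q.e O → (∀ a, X.μ a = muC Q.jL Q.e O a) →
      (∀ a t, X.E a t = slO O a t + B a t) → (∀ a, Integrable fun t => P t * B a t) →
      |X.En - ((∑ i, (s * mfo (cons Q O i) +
          s * slkK (fun t => ∫ u, P u * slk (u - t)) (kd (O i)) (ht (O i)) -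
          2 * Real.pi * (wK (kd (O i)) * (s * P (ht (O i)) * η (ht (O i)))))) +
        1 / 2 * (∑ i, ∑ k, ER (sgX Q.jL Q.e) (sgY Q.jL Q.e) (sgT Q.jL Q.e) (NUO.sp (O i) == NUO.sp (O k))
          (kd (O i)) (kd (O k)) (ht (O i)) (ht (O k))) +
        (∑ a, ∫ t, s * P t * B a t) + (∑ a, ∫ t, X.μ a t * X.φ a t) +
        NUCR.bil (NUAct.hd s η η1) (NUAct.hd s η η1))| ≤
        C * r * (M * ε + K) + C * (b + 1) ^ 9 * M ^ 2 * ε := by
  obtain ⟨C, hC, H⟩ := NUC43.S_cfg hδ hδ1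
  refine ⟨C, hC, ?_⟩
  intro s ε M b K e η η1 Q r O B X hQ hA hs hcur h1 hb hsm hK hKL xs xζ xζ' xF xτ xμ xE hB
  have h2 := H s ε M b K e η η1 Q r O hQ hs hcur h1 hb hsm hK hKL
  have hS : X.gas.S = (NUSEv.gs s η η1 (FO Q O)).S := by
    unfold Dat.gas NUSEv.gs
    rw [xs, show X.ζ = fun _ => NUAct.zt (NUKer.iD η) from funext xζ,
      show X.ζ' = fun _ => NUAct.zd (NUKer.iD η1) from funext xζ', show X.F = FO Q O from funext xF]
  have hE := NUC43.cfg_energy hA O
  have e1 : (∫ t, X.τ t * X.Gt t) = ∫ t, tauC Q.jL Q.e O t * NUC43.lgp (tauC Q.jL Q.e O) t := by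
    unfold Dat.Gt NUC43.lgp
    rw [xτ]
  have e2 : ∀ a, (∫ t, X.μ a t * X.Vm a t) =
      ∫ t, muC Q.jL Q.e O a t * ∫ u, muC Q.jL Q.e O a u * NUMF.V (t - u) := by
    intro a
    unfold Dat.Vm
    rw [xμ]
  have e3 : ∀ a, (∫ t, X.ρ t * X.E a t) = s * (∫ t, P t * slO O a t) + ∫ t, s * P t * B a t := by
    intro a
    have i1 := (slO_int O a).1.const_mul s
    have i2 : Integrable fun t => s * P t * B a t :=
      ((hB a).const_mul s).congr (Eventually.of_forall fun t => by simp only []; ring)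
    rw [← integral_const_mul, ← integral_add i1 i2]
    congr 1
    funext t
    unfold Dat.ρ
    rw [xE, xs]
    ring
  have e4 := slO_sum O
  have hEn : X.En = (NUSEv.gs s η η1 (FO Q O)).S + 1 / 2 * (∑ i, ∑ k, ER (sgX Q.jL Q.e) (sgY Q.jL Q.e)
      (sgT Q.jL Q.e) (NUO.sp (O i) == NUO.sp (O k)) (kd (O i)) (kd (O k)) (ht (O i)) (ht (O k))) +
      s * (∑ i, slkK (fun t => ∫ u, P u * slk (u - t)) (kd (O i)) (ht (O i))) +
      (∑ a, ∫ t, s * P t * B a t) + ∑ a, ∫ t, X.μ a t * X.φ a t := by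
    unfold Dat.En
    rw [hS, e1]
    simp_rw [e2, e3]
    rw [← hE, ← e4, Fintype.sum_bool, Fintype.sum_bool, Fintype.sum_bool, Fintype.sum_bool, Fintype.sum_bool]
    ring
  have e5 : (∑ i, (s * mfo (cons Q O i) +
      s * slkK (fun t => ∫ u, P u * slk (u - t)) (kd (O i)) (ht (O i)) -
      2 * Real.pi * (wK (kd (O i)) * (s * P (ht (O i)) * η (ht (O i)))))) =
      (∑ i, (s * mfo (cons Q O i) - 2 * Real.pi * (wK (kd (O i)) * (s * P (ht (O i)) * η (ht (O i)))))) +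
      s * (∑ i, slkK (fun t => ∫ u, P u * slk (u - t)) (kd (O i)) (ht (O i))) := by
    rw [Finset.mul_sum, ← Finset.sum_add_distrib]
    exact Finset.sum_congr rfl fun i _ => by ring
  rw [e5, hEn]
  refine le_trans (le_of_eq ?_) h2
  congr 1
  ring

end

end NUH0
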