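import Pool.Agent.NUH0.En
import Pool.Agent.NU42.Line
import Pool.Agent.NUO.PotG
import Pool.Agent.NUO.DispV
import Pool.Agent.NUO.OneAct
import Pool.Agent.NUC43.Cfg
import Pool.Agent.NUAct.PhiQ3
import Pool.Agent.NUH0.DatE

/-!
# The data of the crude bound for a configuration of objects

`datO I P O : Dat`: both species on the path `t + i η`, potentials of the objects `FO`, slack, densities
`muC`, `tauC` of the configuration, and the extra data `I` (analytic potentials `A`, real potentials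
`B`, densities `ν`).  The remainder is

`φ a = Re ∑ K B + dFB + Re A(ζ) + B - V * ν`.
-/

set_option autoImplicit false

open MeasureTheory Set Filter Topology

namespace NUH0

open NUMF NUO NUKer NUAct NUDispP NUDispV NUDispW
open NU42 (norm_iD Crv iD_cont)

noncomputable section

/-- inputs besides the configuration -/
structure Inp where
  /-- row number -/
  s : ℝ
  /-- displacement -/
  η : ℝ → ℝ
  /-- its derivative -/
  η1 : ℝ → ℝ
  /-- extra analytic potentials -/
  A : Bool → ℂ → ℂ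
  /-- extra real potentials -/
  B : Bool → ℝ → ℝ
  /-- extra densities -/
  ν : Bool → ℝ → ℝ

/-- all analytic potentials -/
def FA (I : Inp) (P : Par) {r : ℕ} (O : Fin r → Xo) (a : Bool) (z : ℂ) : ℂ := FO P O a z + I.A a z

/-- the quadratic part of the one body potential -/
def Qr (I : Inp) (P : Par) {r : ℕ} (O : Fin r → Xo) (a : Bool) (t : ℝ) : ℝ :=
  (∑ d, (NUAct.gas I.s (fun _ => I.η) (fun _ => I.η1) (FA I P O)).KB a d t).re

/-- potential of the extra density -/
def Vn (I : Inp) (a : Bool) (t : ℝ) : ℝ := ∫ u, I.ν a u * V (t - u)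

/-- the remainder -/
def phiO (I : Inp) (P : Par) {r : ℕ} (O : Fin r → Xo) (a : Bool) (t : ℝ) : ℝ :=
  Qr I P O a t + dFB P O I.η a t + (I.A a (NUAct.zt (iD I.η) t)).re + I.B a t - Vn I a t

/-- **the data of a configuration** -/
def datO (I : Inp) (P : Par) {r : ℕ} (O : Fin r → Xo) : Dat where
  s := I.s
  ζ _ := NUAct.zt (iD I.η)
  ζ' _ := NUAct.zd (iD I.η1)
  F := FA I P O
  E a t := slO O a t + I.B a t
  τ := NUC43.tauC P.jL P.e O
  μ a t := NUC43.muC P.jL P.e O a t + I.ν a t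
  φ := phiO I P O
  φ' a := deriv (phiO I P O a)

variable {r : ℕ} (I : Inp) (P : Par) (O : Fin r → Xo)

lemma datO_gas : (datO I P O).gas = NUAct.gas I.s (fun _ => I.η) (fun _ => I.η1) (FA I P O) := rfl

lemma datO_D (a : Bool) : (datO I P O).D a = iD I.η := by
  funext t
  unfold Dat.D
  show NUAct.zt (iD I.η) t - t = iD I.η t
  unfold NUAct.zt
  ring

lemma datO_D1 (a : Bool) : (datO I P O).D1 a = iD I.η1 := by
  funext t
  unfold Dat.D1
  show NUAct.zd (iD I.η1) t - 1 = iD I.η1 t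
  unfold NUAct.zd
  ring

/-! ### base potentials -/

lemma PT_base (x : Xo) (a : Bool) (t : ℝ) :
    PT a (cbase P x) 0 t + (if sp x = a then slkK NUC43.slk (kd x) (t - ht x) else 0) =
      NUC43.kS P.jL P.e (sp x == a) (kd x) (t - ht x) := by
  obtain ⟨⟨s, k⟩, h, α⟩ := x
  have c1 : (2 : ℝ) + P.e + 1 = 3 + P.e := by ring
  have c2 : (3 : ℝ) / 2 + 1 = 5 / 2 := by norm_num
  have c3 : (2 : ℝ) + P.e - 2 = P.e := by ring
  by_cases hs : s = a
  · subst hs
    have hn : ¬ (s = !s) := by cases s <;> simp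
    cases k <;>
      simp only [PT, cbase, NUDispP.cl, lpt, NUDispP.lp, NUC43.kS, NUC43.kA, NUC43.pO, NUC43.pX, slkK,
        sp, kd, ht, List.map_cons, List.map_nil, List.sum_cons, List.sum_nil, beq_self_eq_true, if_true,
        Bool.false_eq_true, if_false, hn, add_zero, c1, c2, c3] <;> ring
  · have hn : (a = !s) := by cases s <;> cases a <;> simp_all
    have hs' : ¬ (a = s) := fun h => hs h.symm
    have hb : (s == a) = false := by simpa using hs
    have hnn : (!s : Bool) = a := hn.symm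
    cases k <;>
      simp only [PT, cbase, NUDispP.cl, lpt, NUDispP.lp, NUC43.kS, NUC43.kB, NUC43.pO, NUC43.pX, slkK,
        sp, kd, ht, List.map_cons, List.map_nil, List.sum_cons, List.sum_nil, hb, if_true, hnn,
        Bool.false_eq_true, if_false, hs, hs', add_zero, c1, c2, c3] <;> ring

/-- the potentials of the configuration at the base positions -/
lemma linC_base (a : Bool) (t : ℝ) :
    NUC43.linC P.jL P.e O a t = (∑ i, PT a (cbase P (O i)) 0 t) + slO O a t := by
  unfold NUC43.linC slO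
  rw [← Finset.sum_add_distrib]
  exact Finset.sum_congr rfl fun i _ => (PT_base P (O i) a t).symm

/-- the potentials on the path -/
lemma FO_re {δ : ℝ} (hP : PG δ P) (a : Bool) {t : ℝ} (ht : |I.η t| < δ * NUMF.l) :
    (FO P O a (NUAct.zt (iD I.η) t)).re = dFB P O I.η a t + ∑ i, PT a (cbase P (O i)) 0 t := by
  have h1 := prod_potN O hP a ht
  have h2 : ∀ i, potN P O i a (NUP1.vl (NUP1.l - I.η t) t) ≠ 0 := by
    intro i
    rw [vl_eq]
    exact (potN_pos hP O i a (by simpa using ht)).ne'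
  have h3 : (FO P O a (NUAct.zt (iD I.η) t)).re =
      ∑ i, Real.log (potN P O i a (NUP1.vl (NUP1.l - I.η t) t)) := by
    rw [← Real.log_prod (fun i _ => h2 i), h1, Real.log_exp]
    rfl
  rw [h3, dFB, ← Finset.sum_add_distrib]
  exact Finset.sum_congr rfl fun i _ => by ring

/-! ### hypotheses -/

/-- hypotheses of the instance -/
structure IOk (dl ε M b : ℝ) (e : ℝ → ℝ) (I : Inp) (P : Par) (r : ℕ) : Prop where
  s0 : 0 ≤ I.s
  b0 : 0 ≤ b
  cur : Cur I.s ε M b e I.η
  der : ∀ t, HasDerivAt I.η (I.η1 t) t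
  ε1 : ε ≤ 1 / 40
  pg : PG (1 / 8) P
  d1 : ∀ t, P.d r + P.rad r t / NUMF.l + ε / NUMF.l ≤ dl
  d2 : dl ≤ 1 / 16
  Ae : ∀ a, Ext (NUMF.l / 10) (I.A a)
  Ab : ∀ a, ∃ C, ∀ t, |(I.A a (NUAct.zt (iD I.η) t)).re| ≤ C
  Bc : ∀ a, ContDiff ℝ 1 (I.B a)
  Bb : ∀ a, ∃ C, ∀ t, |I.B a t| ≤ C
  νc : ∀ a, Continuous (I.ν a)
  νi : ∀ a, Integrable (I.ν a)
  νb : ∀ a, ∃ C, ∀ t, |I.ν a t| ≤ C
  Vc : ∀ a, ContDiff ℝ 1 (Vn I a)

variable {I P O} {dl ε M b : ℝ} {e : ℝ → ℝ}

namespace IOk

variable (h : IOk dl ε M b e I P r)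

include h

lemma εl : ε < NUMF.l / 10 := by
  refine h.ε1.trans_lt ?_
  unfold NUMF.l
  have := Real.pi_gt_d2
  linarith

lemma eta (t : ℝ) : |I.η t| ≤ ε := (norm_iD I.η t).symm.le.trans ((h.cur.oc.le t).trans (h.cur.le t))

lemma eta1 (t : ℝ) : |I.η1 t| ≤ ε :=
  (norm_iD I.η1 t).symm.le.trans (((h.cur.oc1 h.der).le t).trans (h.cur.le t))

lemma eta1_cont : Continuous I.η1 := by
  have h1 := Complex.continuous_im.comp (h.cur.oc1 h.der).cont
  refine h1.congr fun t => ?_
  simp [iD]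

lemma crv : Crv ε b I.η I.η1 where
  hd := h.der
  hc := h.eta1_cont
  h0 := h.eta
  h1 := h.eta1
  hz t ht := by
    have h1 := (norm_iD I.η t).symm.le.trans (h.cur.oc.le t)
    rw [h.cur.supp t ht] at h1
    exact abs_nonpos_iff.1 h1

lemma ext (a : Bool) : Ext (NUMF.l / 10) (FA I P O a) := by
  have hl := NUMF.l_pos
  have h1 := ext_FO (P := P) O (b := NUMF.l / 9) (by positivity) (by linarith) h.pg a
    (b' := NUMF.l / 10) (by linarith)
  obtain ⟨A1, hA1⟩ := h1.bd
  obtain ⟨A2, hA2⟩ := (h.Ae a).bd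
  refine ⟨fun z hz => (h1.diff z hz).add ((h.Ae a).diff z hz), A1 + A2, fun z hz => ?_⟩
  rw [add_mul]
  exact (norm_add_le _ _).trans (add_le_add (hA1 z hz) (hA2 z hz))

lemma path : Path (NUMF.l / 10) (1 / 2) 2 (NUAct.zt (iD I.η)) (NUAct.zd (iD I.η1)) :=
  path_of_cur_w h.s0 (h.ε1.trans (by norm_num)) h.εl.le h.cur h.der

lemma eta_lt (t : ℝ) : |I.η t| < 1 / 8 * NUMF.l := by
  have hl := NUMF.l_pos
  have := h.eta t
  have := h.εl
  linarith

/-- the equation -/
lemma lin_eq (a : Bool) (t : ℝ) : (datO I P O).gas.lin a t - Dat.sg a * (datO I P O).Gt t +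
    (datO I P O).E a t = (datO I P O).Vm a t + (datO I P O).φ a t := by
  have hj : NUC43.Adm P.jL P.e := by
    have h1 := h.pg.j1
    have h2 := h.pg.j2
    have h3 := h.pg.e1
    have h4 := h.pg.e2 0
    have h5 := h.pg.d0 0
    exact ⟨by linarith, by linarith, by linarith, by linarith⟩
  have h1 := NUC43.cfg_eq hj O a t
  rw [linC_base] at h1
  have h2 := FO_re I P O h.pg a (h.eta_lt t)
  have e1 : (datO I P O).gas.lin a t = Qr I P O a t + (FA I P O a (NUAct.zt (iD I.η) t)).re := by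
    rw [Gas.lin, Complex.add_re]
    rfl
  have e2 : (datO I P O).Gt t = NUC43.lgp (NUC43.tauC P.jL P.e O) t := rfl
  have e3 : (datO I P O).E a t = slO O a t + I.B a t := rfl
  have e4 : Dat.sg a = NUC43.sg a := rfl
  have e5 : (datO I P O).Vm a t = (∫ u, NUC43.muC P.jL P.e O a u * V (t - u)) + Vn I a t := by
    obtain ⟨C, hC⟩ := h.νb a
    have i1 := NUC43.V_in (NUC43.dn_muC hj O a) t
    have i2 : Integrable fun u => I.ν a u * V (t - u) := by
      have h1 : Integrable fun u => V (t - u) := V_integral.1.comp_sub_left t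
      exact (h1.mul_bdd (c := C) (h.νc a).aestronglyMeasurable (ae_of_all _ hC)).congr
        (ae_of_all _ fun u => mul_comm _ _)
    unfold Dat.Vm Vn
    rw [← integral_add i1 i2]
    refine integral_congr_ae (ae_of_all _ fun u => ?_)
    show (NUC43.muC P.jL P.e O a u + I.ν a u) * V (t - u) = _
    ring
  have e6 : (datO I P O).φ a t = Qr I P O a t + dFB P O I.η a t + (I.A a (NUAct.zt (iD I.η) t)).re +
      I.B a t - Vn I a t := rfl
  rw [e1, e2, e3, e4, e5, e6, FA, Complex.add_re, h2]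
  linarith

/-- **the equation of the data** -/
theorem fld {p n : ℕ} (hpn : (p : ℝ) - n = -∑ i, NUC43.sg (sp (O i)) * NUC43.kq (kd (O i))) :
    Fld (datO I P O) p n := by
  have hj : NUC43.Adm P.jL P.e := by
    have h1 := h.pg.j1
    have h2 := h.pg.j2
    have h3 := h.pg.e1
    have h4 := h.pg.e2 0
    have h5 := h.pg.d0 0
    exact ⟨by linarith, by linarith, by linarith, by linarith⟩
  have hd := NUC43.dn_tauC hj O
  refine ⟨hd.int, ?_, ?_, h.lin_eq⟩
  · have h1 := hd.wint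
    have h2 : Integrable fun x => |x| * NUC43.tauC P.jL P.e O x := by
      refine (h1.sub hd.int).congr (ae_of_all _ fun x => ?_)
      simp only [Pi.sub_apply]
      ring
    have hc := hd.cont
    refine h2.mono (Continuous.aestronglyMeasurable (hc.mul continuous_id)) (ae_of_all _ fun x => ?_)
    rw [norm_mul, norm_mul, Real.norm_eq_abs |x|, abs_abs, Real.norm_eq_abs x, mul_comm]
    exact le_rfl
  · rw [hpn]
    exact NUC43.tauC_int hj O

lemma offj : Off (1 / 16 + dl) P.jL := by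
  intro n
  have h0 := h.d2
  have h1 := h.pg.j1
  have h2 := h.pg.j2
  rcases le_or_gt n 2 with hn | hn
  · have h3 : (n : ℝ) ≤ 2 := by exact_mod_cast hn
    rw [abs_of_nonneg (by linarith)]
    linarith
  · have h3 : (3 : ℝ) ≤ n := by exact_mod_cast hn
    rw [abs_of_nonpos (by linarith)]
    linarith

lemma offe : Off (1 / 16 + dl) P.e := by
  intro n
  have h0 := h.d2
  have h1 := h.pg.e1
  have h2 := h.pg.e2 0
  have h4 := h.pg.d0 0
  rcases le_or_gt n 0 with hn | hn
  · have h3 : (n : ℝ) ≤ 0 := by exact_mod_cast hn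
    rw [abs_of_nonneg (by linarith)]
    linarith
  · have h3 : (1 : ℝ) ≤ n := by exact_mod_cast hn
    rw [abs_of_nonpos (by linarith)]
    linarith

lemma rr1 (i : Fin r) : 0 ≤ rr P O i ∧ rr P O i ≤ 1 := by
  have h0 := h.pg.r0 r (ht (O i))
  have h1 := h.pg.r1 r (ht (O i))
  have h2 : NUMF.l < 1 := by
    unfold NUMF.l
    have := Real.pi_lt_four
    linarith
  unfold rr
  constructor <;> linarith

/-- **the displacement fields of the objects**: `C^1`, with decaying derivative -/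
theorem exists_dFB (a : Bool) : ∃ F' : ℝ → ℝ, (∀ t, HasDerivAt (dFB P O I.η a) (F' t) t) ∧
    Continuous F' ∧
    (∀ t, |dFB P O I.η a t| ≤ NUDispV.Bd (1 / 16) dl * bmaj Finset.univ (fun i => ht (O i)) 2 t +
      Ad (1 / 16) P O) ∧
    ∀ t, |F' t| ≤ 2 * NUDispV.Bd (1 / 16) dl * bmaj Finset.univ (fun i => ht (O i)) 2 t := by
  have key := parts_fields (δ0 := 1 / 16) (ε := dl) (ε1 := ε) P O (by norm_num)
    (by linarith [h.d2]) h.eta h.eta1 h.der h.eta1_cont (h.pg.d0 r) (fun i => (h.rr1 i).1)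
    (fun i => (h.rr1 i).2) (fun i => h.d1 (ht (O i))) h.offj h.offe a
  have kle := dFB_le (δ0 := 1 / 16) (ε := dl) (ε1 := ε) P O (by norm_num)
    (by linarith [h.d2]) h.eta h.eta1 h.der h.eta1_cont (h.pg.d0 r) (fun i => (h.rr1 i).1)
    (fun i => (h.rr1 i).2) (fun i => h.d1 (ht (O i))) h.offj h.offe a
  choose f' hf' using fun i => (key i).1
  choose g' hg' using fun i => (key i).2
  refine ⟨fun t => ∑ i, (f' i t + g' i t), fun t => ?_, ?_, kle, fun t => ?_⟩
  · have e1 : dFB P O I.η a = fun t => ∑ i, ((Real.log (potN P O i a (NUP1.vl (NUP1.l - I.η t) t)) -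
        PT a (cref P O i) 0 t) + (PT a (cref P O i) 0 t - PT a (cbase P (O i)) 0 t)) := by
      funext t
      unfold dFB
      exact Finset.sum_congr rfl fun i _ => by ring
    rw [e1]
    exact HasDerivAt.fun_sum fun i _ => ((hf' i).deriv t).add ((hg' i).deriv t)
  · exact continuous_finsetSum _ fun i _ => (hf' i).cont.add (hg' i).cont
  · rw [mul_assoc, bmaj, Finset.mul_sum, Finset.mul_sum]
    refine (Finset.abs_sum_le_sum_abs _ _).trans (Finset.sum_le_sum fun i _ => ?_)
    have e1 : Real.exp (-(2 * |t - ht (O i)|)) = Real.exp (-2 * |t - ht (O i)|) := by ring_nf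
    have h1 := (hf' i).le' t
    have h2 := (hg' i).le' t
    have h3 := abs_add_le (f' i t) (g' i t)
    rw [← e1] at h1 h2
    linarith

/-- the potentials of the extra data are `C^1` along the path -/
lemma A_C1 (a : Bool) : ContDiff ℝ 1 fun t => (I.A a (NUAct.zt (iD I.η) t)).re := by
  have hl := NUMF.l_pos
  have hop : IsOpen {z : ℂ | |z.im| < NUMF.l / 10} := isOpen_lt (by fun_prop) continuous_const
  have hd : DifferentiableOn ℂ (I.A a) {z : ℂ | |z.im| < NUMF.l / 10} := fun z hz =>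
    ((h.Ae a).diff z (le_of_lt hz)).differentiableWithinAt
  have him : ∀ t, NUAct.zt (iD I.η) t ∈ {z : ℂ | |z.im| < NUMF.l / 10} := by
    intro t
    have e1 : (NUAct.zt (iD I.η) t).im = I.η t := by simp [NUAct.zt, iD]
    show |(NUAct.zt (iD I.η) t).im| < NUMF.l / 10
    rw [e1]
    exact (h.eta t).trans_lt h.εl
  have h1 : ∀ t, HasDerivAt (fun t => (I.A a (NUAct.zt (iD I.η) t)).re)
      (deriv (I.A a) (NUAct.zt (iD I.η) t) * NUAct.zd (iD I.η1) t).re t := by
    intro t
    have h2 := (hd.differentiableAt (hop.mem_nhds (him t))).hasDerivAt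
    have h3 := h2.comp_of_eq t (h.path.der t) rfl
    exact Complex.reCLM.hasFDerivAt.comp_hasDerivAt t h3
  rw [contDiff_one_iff_deriv]
  refine ⟨fun t => (h1 t).differentiableAt, ?_⟩
  have e : deriv (fun t => (I.A a (NUAct.zt (iD I.η) t)).re) =
      fun t => (deriv (I.A a) (NUAct.zt (iD I.η) t) * NUAct.zd (iD I.η1) t).re := funext fun t => (h1 t).deriv
  rw [e]
  have h4 : ContinuousOn (deriv (I.A a)) {z : ℂ | |z.im| < NUMF.l / 10} :=
    (hd.deriv hop).continuousOn
  have h5 : Continuous fun t => deriv (I.A a) (NUAct.zt (iD I.η) t) :=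
    h4.comp_continuous h.path.continuous him
  exact Complex.continuous_re.comp (h5.mul h.path.cont)

end IOk

/-! ### the slack -/

lemma slk_bc : Continuous NUC43.slk ∧ ∃ C, ∀ t, |NUC43.slk t| ≤ C := by
  have hi : IntegrableOn (fun k => 2 * |NUC43.Sl k / (2 * Real.pi)|) (Ioi 0) := by
    have h1 : IntegrableOn (fun k => NUC43.Sl k / (2 * Real.pi)) (Ioi 0) := NUC43.Sl_int.div_const _
    exact h1.abs.const_mul 2
  have hle : ∀ t k : ℝ, ‖2 * Real.cos (t * k) * (NUC43.Sl k / (2 * Real.pi))‖ ≤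
      2 * |NUC43.Sl k / (2 * Real.pi)| := by
    intro t k
    rw [norm_mul, norm_mul, Real.norm_eq_abs, Real.norm_eq_abs, Real.norm_eq_abs, abs_two]
    have := Real.abs_cos_le_one (t * k)
    have h0 := abs_nonneg (NUC43.Sl k / (2 * Real.pi))
    nlinarith
  have hm : ∀ t : ℝ, AEStronglyMeasurable (fun k => 2 * Real.cos (t * k) * (NUC43.Sl k / (2 * Real.pi)))
      (volume.restrict (Ioi 0)) := by
    intro t
    exact (Continuous.aestronglyMeasurable (by fun_prop)).mul
      (NUC43.Sl_int.div_const (2 * Real.pi)).aestronglyMeasurable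
  constructor
  · unfold NUC43.slk
    refine continuous_of_dominated hm (fun t => ae_of_all _ (hle t)) hi (ae_of_all _ fun k => ?_)
    fun_prop
  · refine ⟨∫ k in Ioi (0:ℝ), 2 * |NUC43.Sl k / (2 * Real.pi)|, fun t => ?_⟩
    have h1 := norm_integral_le_of_norm_le hi (ae_of_all _ (hle t))
    exact h1

lemma slkK_bc (K : Kind) : Continuous (slkK NUC43.slk K) ∧ ∃ C, ∀ t, |slkK NUC43.slk K t| ≤ C := by
  obtain ⟨h1, C, h2⟩ := slk_bc
  have hC : 0 ≤ C := (abs_nonneg _).trans (h2 0)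
  cases K
  · exact ⟨continuous_const, 0, fun t => by simp [slkK]⟩
  · exact ⟨continuous_const, 0, fun t => by simp [slkK]⟩
  · exact ⟨h1, C, h2⟩
  · refine ⟨h1.div_const 2, C, fun t => ?_⟩
    show |NUC43.slk t / 2| ≤ C
    rw [abs_div, abs_two]
    linarith [h2 t]
  · exact ⟨continuous_const, 0, fun t => by simp [slkK]⟩

lemma slO_bc (a : Bool) : Continuous (slO O a) ∧ ∃ C, ∀ t, |slO O a t| ≤ C := by
  constructor
  · unfold slO
    refine continuous_finsetSum _ fun i _ => ?_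
    split_ifs
    · exact (slkK_bc _).1.comp (continuous_id.sub continuous_const)
    · exact continuous_const
  · choose C hC using fun K => (slkK_bc K).2
    refine ⟨∑ i, C (kd (O i)), fun t => ?_⟩
    unfold slO
    refine (Finset.abs_sum_le_sum_abs _ _).trans (Finset.sum_le_sum fun i _ => ?_)
    split_ifs
    · exact hC _ _
    · rw [abs_zero]
      exact (abs_nonneg _).trans (hC _ 0)

namespace IOk

variable (h : IOk dl ε M b e I P r)

include h

/-- **the remainder is `C^1` and bounded** -/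
theorem phi_C1 (hQ : ∀ a, ContDiff ℝ 1 (Qr I P O a)) (a : Bool) : ContDiff ℝ 1 (phiO I P O a) := by
  obtain ⟨F', h1, h2, h3, h4⟩ := h.exists_dFB (O := O) a
  have h5 : ContDiff ℝ 1 (dFB P O I.η a) := by
    rw [contDiff_one_iff_deriv]
    refine ⟨fun t => (h1 t).differentiableAt, ?_⟩
    rw [show deriv (dFB P O I.η a) = F' from funext fun t => (h1 t).deriv]
    exact h2
  exact ((((hQ a).add h5).add (h.A_C1 a)).add (h.Bc a)).sub (h.Vc a)

theorem phi_bdd (a : Bool) : ∃ C, ∀ t, |phiO I P O a t| ≤ C := by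
  obtain ⟨K, hK, HQ⟩ := exists_phiQ'
  obtain ⟨Q', q1, q2, q3⟩ := HQ h.s0 h.b0 (h.ε1.trans (by norm_num)) h.cur h.der (FA I P O)
  obtain ⟨F', h1, h2, h3, h4⟩ := h.exists_dFB (O := O) a
  obtain ⟨C1, hC1⟩ := h.Ab a
  obtain ⟨C2, hC2⟩ := h.Bb a
  obtain ⟨C3, hC3⟩ := h.νb a
  have hV := (conv_bc (h.νc a) hC3).2
  have hM := h.cur.M0 h.s0
  have hε := h.cur.ε0
  have hdl : 0 ≤ NUDispV.Bd (1 / 16) dl := by
    have h5 := h.d1 0
    have h6 := h.pg.d0 r
    have h7 := h.pg.r0 r 0
    have hl := NUMF.l_pos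
    have : 0 ≤ dl := by
      have : 0 ≤ P.rad r 0 / NUMF.l := by positivity
      have : 0 ≤ ε / NUMF.l := by positivity
      linarith
    unfold NUDispV.Bd
    have h8 : 0 < Real.sin (1 / 16 * NUMF.l) := by
      refine Real.sin_pos_of_pos_of_lt_pi (by positivity) ?_
      unfold NUMF.l
      linarith [Real.pi_pos]
    positivity
  refine ⟨K * (M * ε) * Wm + (NUDispV.Bd (1 / 16) dl * r + Ad (1 / 16) P O) + C1 + C2 + C3 * ∫ u, |V u|,
    fun t => ?_⟩
  have b1 : |Qr I P O a t| ≤ K * (M * ε) * Wm :=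
    (q2 a t).trans (mul_le_mul_of_nonneg_left (Wb_le b t) (by positivity))
  have b2 : bmaj Finset.univ (fun i => ht (O i)) 2 t ≤ r := by
    unfold bmaj
    refine (Finset.sum_le_card_nsmul _ _ 1 fun i _ => ?_).trans (by simp)
    rw [Real.exp_le_one_iff]
    have := abs_nonneg (t - ht (O i))
    linarith
  have b3 := h3 t
  have b4 : |dFB P O I.η a t| ≤ NUDispV.Bd (1 / 16) dl * r + Ad (1 / 16) P O := by
    have := mul_le_mul_of_nonneg_left b2 hdl
    linarith
  have b5 := hC1 t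
  have b6 := hC2 t
  have b7 : |Vn I a t| ≤ C3 * ∫ u, |V u| := hV t
  unfold phiO
  rw [abs_le] at b1 b4 b5 b6 b7 ⊢
  constructor <;> linarith [b1.1, b1.2, b4.1, b4.2, b5.1, b5.2, b6.1, b6.2, b7.1, b7.2]

lemma adm : NUC43.Adm P.jL P.e := by
  have h1 := h.pg.j1
  have h2 := h.pg.j2
  have h3 := h.pg.e1
  have h4 := h.pg.e2 0
  have h5 := h.pg.d0 0
  exact ⟨by linarith, by linarith, by linarith, by linarith⟩

/-- **regularity of the data** -/
theorem reg (hQ : ∀ a, ContDiff ℝ 1 (Qr I P O a)) : Reg (datO I P O) where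
  μi a := (NUC43.dn_muC h.adm O a).int.add (h.νi a)
  μc a := (NUC43.dn_muC h.adm O a).cont.add (h.νc a)
  μb a := by
    obtain ⟨C1, h0, h1⟩ := (NUC43.dn_muC h.adm O a).bdd
    obtain ⟨C2, h2⟩ := h.νb a
    exact ⟨C1 + C2, fun t => (abs_add_le _ _).trans (add_le_add (h1 t) (h2 t))⟩
  φc a := (h.phi_C1 hQ a).continuous
  φb a := h.phi_bdd a
  Ec a := (slO_bc a).1.add (h.Bc a).continuous
  Eb a := by
    obtain ⟨C1, h1⟩ := (slO_bc (O := O) a).2
    obtain ⟨C2, h2⟩ := h.Bb a
    exact ⟨C1 + C2, fun t => (abs_add_le _ _).trans (add_le_add (h1 t) (h2 t))⟩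

end IOk

/-- **the geometry of the data** -/
theorem exists_geo : ∃ K : ℝ, 20 ≤ K ∧ ∀ {r : ℕ} {I : Inp} {P : Par} {O : Fin r → Xo}
    {dl ε M b : ℝ} {e : ℝ → ℝ}, IOk dl ε M b e I P r → K * ε ≤ 1 → Geo (datO I P O) (K * ε) := by
  obtain ⟨K, hK, H⟩ := NU42.exists_line
  refine ⟨K, hK, fun {r I P O dl ε M b e} h hs => ?_⟩
  obtain ⟨h1, h2, h3, h4, h5, h6⟩ := H ε b I.η I.η1 I.η I.η1 h.crv h.crv hs
  have hl := NUMF.l_pos
  refine ⟨h.s0, ⟨NUMF.l / 10, 1 / 2, 2, by linarith, fun _ => h.path, fun a => h.ext a⟩, ?_, ?_⟩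
  · rw [datO_D, datO_D1, datO_D, datO_D1]
    exact h1
  · intro a d
    have h7 := h3 a d
    unfold Dat.κ
    rw [datO_D, datO_D1, datO_D]
    cases a <;> cases d <;> exact h7

/-- charges -/
lemma sum_kq : ∑ i, NUC43.sg (sp (O i)) * NUC43.kq (kd (O i)) = (chgO O true : ℝ) - chgO O false := by
  have h1 : ∀ x : Xo, NUC43.sg (sp x) * NUC43.kq (kd x) = (chg true x : ℝ) - chg false x := by
    rintro ⟨⟨s, k⟩, t, α⟩
    cases s <;> cases k <;> simp [NUC43.sg, NUC43.kq, chg, sp, kd] <;> norm_num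
  unfold chgO
  push_cast
  rw [← Finset.sum_sub_distrib]
  exact Finset.sum_congr rfl fun i _ => h1 (O i)

/-- the equation of the data, `n` quanta of each species in all -/
theorem IOk.fld' (h : IOk dl ε M b e I P r) {n : ℕ} (h1 : chgO O true ≤ n) (h2 : chgO O false ≤ n) :
    Fld (datO I P O) (n - chgO O true) (n - chgO O false) := by
  refine h.fld ?_
  rw [sum_kq, Nat.cast_sub h1, Nat.cast_sub h2]
  ring

end

end NUH0
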