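import Pool.Agent.NUH0.H0

/-!
# The crude bound in the form of `NUS4.fin`

`H0fin`: on the window `[-Rw, Rw]` with the cut `cN N Rw`: the total integral with grid squares and the tail
with the small constant `c1` of the kernels (masses of the objects `m2` only times `c1`), the exponential
squares `SqW` with the constant `1 / (8 (C₁ (Rw + 1)))` and `m2²` in the exponent.
-/

set_option autoImplicit false

open MeasureTheory Set Filter Topology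
open scoped Real ENNReal

namespace NUH0

open NUMF NUWC NUKer NUDi NUMFC NUR2

noncomputable section

variable {X : Dat} {Cκ : ℝ} {p n : ℕ}

/-- the exponent of the window without the masses of the objects -/
def Ex1 (X : Dat) (p n : ℕ) (ε' C T ε : ℝ) : ℝ :=
  MFs X.s p n + X.En + (7 / 3 + ε') * T + (C * (1 + NT X T) + ε / 2 * ((p : ℝ) + n + 2 * X.s) ^ 2)

theorem Ex_le1 {ε' C T c' R m2 ε : ℝ} (hT : 0 ≤ T) :
    Ex X p n ε' C T c' R m2 ε ≤ Ex1 X p n ε' C T ε + 176 * c' * R * m2 ^ 2 := by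
  have h1 := Mt_nonneg X hT true p
  have h2 := Mt_nonneg X hT false n
  unfold Ex Ex1
  linarith

/-- the growth of the exponent -/
theorem Ex1_le {ε' C ε T0 T N0 e1 : ℝ} (hC : 0 ≤ C) (he : C * e1 ≤ ε') (hT : T0 ≤ T)
    (hN : NT X T ≤ N0 + e1 * (T - T0)) :
    Ex1 X p n ε' C T ε ≤ (MFs X.s p n + X.En + (7 / 3 + ε') * T0 +
      (C * (1 + N0) + ε / 2 * ((p : ℝ) + n + 2 * X.s) ^ 2)) + (7 / 3 + 2 * ε') * (T - T0) := by
  have h3 : C * (1 + NT X T) ≤ C * (1 + N0) + ε' * (T - T0) := by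
    have h4 : C * (1 + NT X T) ≤ C * (1 + (N0 + e1 * (T - T0))) := by gcongr
    have h5 : C * e1 * (T - T0) ≤ ε' * (T - T0) :=
      mul_le_mul_of_nonneg_right he (by linarith)
    linarith
  unfold Ex1
  linarith

/-- hypotheses on the window `[-Rw, Rw]`; the kernels are small outside -/
structure Hyp1 (X : Dat) (p n : ℕ) (k m T0 Rw N ε c' m2 : ℝ) : Prop where
  m1 : 1 ≤ m
  pk : (p : ℝ) ≤ k * m
  nk : (n : ℝ) ≤ k * m
  sk : X.s ≤ k * m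
  mT : 3 / 8 * Real.log m ≤ T0
  T0p : 0 < T0
  T0R : T0 ≤ Rw
  geo : ∃ Cκ, Geo X Cκ
  fld : Fld X p n
  reg : ∃ δ, RegT X T0 δ
  ε0 : 0 ≤ ε
  ker : ∀ a d t t', (Rw < |t| ∨ Rw < |t'|) → |X.κ a d t t'| ≤ ε
  kc : ∃ Λ1, 0 ≤ Λ1 ∧ 4 * Λ1 ≤ c' ∧ ∀ a d, KC (Rw + N) Λ1 (fun t t' => ((X.κ a d t t' : ℝ) : ℂ))
  c0 : 0 < c'
  cq : 8 * c' * (22 * (Rw + N)) ≤ 1
  m2 : ∀ a, ∫ t in {t | |t| ≤ Rw + N}, |X.μ a t| ≤ m2

/-- the cut of the window -/
theorem exists_cut1 : ∃ N : ℝ, 1 ≤ N ∧ ∀ R : ℝ, 0 ≤ R → Cut1 (R + N) (cN N R) (cN1 N R) ∧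
    (∀ x, 0 ≤ cN N R x) ∧ (∀ x, cN N R x ≤ 1) ∧ ∀ x, |x| ≤ R → cN N R x = 1 := by
  obtain ⟨N, hN, h⟩ := exists_cutN
  refine ⟨N, hN, fun R hR => ?_⟩
  obtain ⟨h1, h2, h3, h4, h5, h6, h7⟩ := h R hR
  exact ⟨⟨h1, by linarith, h2, h3, h4⟩, h5, h6, h7⟩

theorem cut_ker {b b' κ ε : ℝ} (h0 : 0 ≤ b) (h1 : b ≤ 1) (h0' : 0 ≤ b') (h1' : b' ≤ 1)
    (h : b ≠ 1 ∨ b' ≠ 1 → |κ| ≤ ε) (hε : 0 ≤ ε) : |κ - b * b' * κ| ≤ ε := by
  by_cases hb : b = 1 ∧ b' = 1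
  · rw [hb.1, hb.2]
    simpa using hε
  · have h2 : |κ| ≤ ε := h (by
      by_contra hcon
      push Not at hcon
      exact hb hcon)
    have h3 : b * b' ≤ 1 := mul_le_one₀ h1 h0' h1'
    have h4 : 0 ≤ b * b' := mul_nonneg h0 h0'
    have e : κ - b * b' * κ = (1 - b * b') * κ := by ring
    rw [e, abs_mul, abs_of_nonneg (by linarith)]
    calc (1 - b * b') * |κ| ≤ 1 * |κ| := by
          gcongr
          linarith
      _ ≤ ε := by linarith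

theorem Hyp1.to0 {k m T0 Rw N ε c' m2 : ℝ} (h : Hyp1 X p n k m T0 Rw N ε c' m2)
    (hc : Cut1 (Rw + N) (cN N Rw) (cN1 N Rw)) (h0 : ∀ x, 0 ≤ cN N Rw x) (h1 : ∀ x, cN N Rw x ≤ 1)
    (h2 : ∀ x, |x| ≤ Rw → cN N Rw x = 1) {c'' : ℝ} (hcc : c' ≤ c'')
    (hq : 8 * c'' * (22 * (Rw + N)) ≤ 1) :
    Hyp0 X p n k m T0 (Rw + N) ε c'' m2 (cN N Rw) (cN1 N Rw) where
  m1 := h.m1
  pk := h.pk
  nk := h.nk
  sk := h.sk
  mT := h.mT
  T0p := h.T0p
  geo := h.geo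
  fld := h.fld
  reg := h.reg
  cut := hc
  ker a d t t' := cut_ker (h0 t) (h1 t) (h0 t') (h1 t') (fun hb => h.ker a d t t' (by
    rcases hb with hb | hb
    · exact Or.inl (not_le.1 fun hh => hb (h2 t hh))
    · exact Or.inr (not_le.1 fun hh => hb (h2 t' hh)))) h.ε0
  kc := by
    obtain ⟨Λ1, e1, e2, e3⟩ := h.kc
    exact ⟨Λ1, e1, by linarith, e3⟩
  c0 := by linarith [h.c0]
  cq := hq
  m2 := h.m2

theorem _root_.NUDi.SqW.shift {R c K M A : ℝ} {ρ : ℝ → ℝ} {g : Cfg p n → ℝ≥0∞} (hA : 0 ≤ A)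
    (h : SqW g R ρ (ENNReal.ofReal (A * Real.exp M)) c K) :
    SqW g R ρ (ENNReal.ofReal A) c (M + K) := by
  have e : ENNReal.ofReal (A * Real.exp M) * ENNReal.ofReal (Real.exp K) =
      ENNReal.ofReal A * ENNReal.ofReal (Real.exp (M + K)) := by
    rw [← ENNReal.ofReal_mul (by positivity), ← ENNReal.ofReal_mul hA, Real.exp_add]
    congr 1
    ring
  exact ⟨fun a => e ▸ h.cosX a, fun a => e ▸ h.sinX a, fun a => e ▸ h.cosY a, fun a => e ▸ h.sinY a⟩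

/-- **H0 in the form of `fin`** -/
theorem H0fin {ε' : ℝ} (hε' : 0 < ε') (k : ℝ) : ∃ C N C₁ : ℝ, 0 ≤ C ∧ 1 ≤ N ∧ 0 < C₁ ∧
    ∀ {X : Dat} {p n : ℕ} {m T0 Rw ε c1 m2 : ℝ}, Hyp1 X p n k m T0 Rw N ε c1 m2 →
    ∀ {aX aY cf B : ℝ → ℝ} {D q : ℝ}, Shl X aX aY cf B D q → ∀ {E1 g : ℝ}, 0 ≤ g → g < q →
    (∀ T, T0 ≤ T → Ex1 X p n ε' C T ε ≤ E1 + g * (T - T0)) →
    (∀ {ch : ℝ → ℝ} {K h : ℝ}, Grid ch K h → ∀ (La : Finset ℤ) (a0 : ℝ),
      ∫⁻ x, ENNReal.ofReal (W0 X p n aX aY cf x) * ENNReal.ofReal (Real.exp (1 / 2 *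
        ∑ l ∈ La, NU42.Fst ch h a0 X.τ l x.1 x.2 ^ 2)) ≤
      ENNReal.ofReal ((p.factorial : ℝ) * n.factorial *
        Real.exp (E1 + 176 * c1 * (Rw + N) * m2 ^ 2) * (1 + shF D q g T0))) ∧
    (∫⁻ x in (Bx (p := p) (n := n) Rw)ᶜ, ENNReal.ofReal (W0 X p n aX aY cf x) ≤
      ENNReal.ofReal ((p.factorial : ℝ) * n.factorial *
        Real.exp (E1 + 176 * c1 * (Rw + N) * m2 ^ 2) *
        (Real.exp (-(q - g) * (Rw - T0)) * shF D q g T0))) ∧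
    SqW (p := p) (n := n) (fun x => ENNReal.ofReal (W0 X p n aX aY cf x)) Rw X.ρ
        (ENNReal.ofReal ((p.factorial : ℝ) * n.factorial * Real.exp E1 * (1 + shF D q g T0)))
        (1 / (8 * (C₁ * (Rw + 1)))) (m2 ^ 2 + k ^ 2) := by
  obtain ⟨C, hC0, hC⟩ := H0 hε' k
  obtain ⟨N, hN1, hN⟩ := exists_cut1
  refine ⟨C, N, 44 * N, hC0, hN1, by linarith, ?_⟩
  intro X p n m T0 Rw ε c1 m2 hH aX aY cf B D q hS E1 g hg0 hg hEx
  have hRw : 0 < Rw := hH.T0p.trans_le hH.T0R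
  obtain ⟨hcut, hb0, hb1, hb2⟩ := hN Rw hRw.le
  have hRN : 0 < Rw + N := by linarith
  have hc1 := hH.c0
  have hcq := hH.cq
  obtain ⟨c2, hc2⟩ : ∃ c2 : ℝ, c2 = 1 / (8 * (22 * (Rw + N))) := ⟨_, rfl⟩
  have hc2q : 8 * c2 * (22 * (Rw + N)) = 1 := by
    rw [hc2]
    field_simp
  have hc12 : c1 ≤ c2 := by
    rw [hc2, le_div_iff₀ (by positivity)]
    linarith
  have hc20 : 0 < c2 := by linarith
  have hc2s : c2 ≤ 1 / 176 := by
    rw [hc2]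
    exact one_div_le_one_div_of_le (by norm_num) (by linarith)
  have hA := hC (hH.to0 hcut hb0 hb1 hb2 le_rfl hcq) hS (E0 := E1 + 176 * c1 * (Rw + N) * m2 ^ 2)
    hg0 hg (fun T hT => by
      have h1 := Ex_le1 (X := X) (p := p) (n := n) (ε' := ε') (C := C) (c' := c1) (R := Rw + N)
        (m2 := m2) (ε := ε) (hH.T0p.le.trans hT)
      have h2 := hEx T hT
      linarith)
  have hB := hC (hH.to0 hcut hb0 hb1 hb2 hc12 hc2q.le) hS (E0 := E1 + m2 ^ 2)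
    hg0 hg (fun T hT => by
      have h1 := Ex_le1 (X := X) (p := p) (n := n) (ε' := ε') (C := C) (c' := c2) (R := Rw + N)
        (m2 := m2) (ε := ε) (hH.T0p.le.trans hT)
      have h2 := hEx T hT
      have h3 : 176 * c2 * (Rw + N) * m2 ^ 2 = m2 ^ 2 := by
        have e : 176 * c2 * (Rw + N) = 8 * c2 * (22 * (Rw + N)) := by ring
        rw [e, hc2q, one_mul]
      linarith)
  refine ⟨hA.1, ?_, ?_⟩
  · have h1 := hA.2.1 grid0 ∅ 0 Rw hH.T0R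
    simp only [Finset.sum_empty, mul_zero, Real.exp_zero, ENNReal.ofReal_one, mul_one] at h1
    rw [Bw_eq] at h1
    exact h1
  · have hτ : ∫ t in {t | Rw < |t|}, |X.ρ t| ≤ 4 * k := by
      have h1 := sea_tail (X := X) (T := Rw) (k := k) hH.m1 (by
        obtain ⟨Cκ, hG⟩ := hH.geo
        exact hG.s0) hH.sk (hH.mT.trans hH.T0R)
      refine le_trans (setIntegral_mono_set (ρ_int X).abs.integrableOn
        (ae_of_all _ fun x => abs_nonneg _) ?_) h1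
      refine Filter.Eventually.of_forall fun x hx => ?_
      have hx' : Rw < |x| := hx
      exact hx'.le
    have h2 := hB.2.2 Rw hH.T0R hb2 hτ
    have h3 : SqW (p := p) (n := n) (fun x => ENNReal.ofReal (W0 X p n aX aY cf x)) Rw X.ρ
        (ENNReal.ofReal ((p.factorial : ℝ) * n.factorial * Real.exp E1 * (1 + shF D q g T0) *
          Real.exp (m2 ^ 2))) (c2 / 2) (c2 * (4 * k) ^ 2) := by
      refine h2.mono (fun x _ => le_rfl) (ENNReal.ofReal_le_ofReal (le_of_eq ?_))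
      rw [Real.exp_add]
      ring
    have hsh := shF_nonneg (T0 := T0) hS.D0 hg
    refine (h3.shift (by positivity)).monoC ?_ ?_
    · rw [hc2, div_div]
      refine one_div_le_one_div_of_le (by positivity) ?_
      nlinarith [mul_nonneg (by linarith : (0:ℝ) ≤ N - 1) hRw.le]
    · nlinarith [mul_le_mul_of_nonneg_right hc2s (sq_nonneg k), sq_nonneg k]

end

end NUH0
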