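import Pool.Agent.NUH0.OneFR
import Pool.Agent.NU42.Act

/-!
# The positive gas on a window

`win_H0`: the integral of `WO exp (1/2 ∑ F_l²)` over the window `[-T, T]^(p+n)` is at most
`exp (Ctau + CS + small) * BX * BY`, with the one component constants of `oneF`.
-/

set_option autoImplicit false

open MeasureTheory Set Filter Topology
open scoped Real ENNReal

namespace NUH0

open NUMF NUWC NUC37 NUKer NUDi

noncomputable section

/-- data of one species on the window: density `ρ` (row `ρ0` plus objects), extra potential `E` -/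
structure Spec (R T L δ M m2 δ2 : ℝ) (ρ0 ρ E E' : ℝ → ℝ) : Prop where
  cont : Continuous ρ
  int : Integrable ρ
  bd : ∀ s, |ρ s| ≤ M
  tail : ∀ s, T ≤ |s| → |ρ s| ≤ δ * Real.exp (-(|s| - T))
  c1 : C1P L E E'
  mass : ∫ x in {x | |x| ≤ R}, |ρ x - ρ0 x| ≤ m2
  mass0 : ∫ x in {x | T ≤ |x|}, |ρ0 x| ≤ δ2

/-- kernels of the four forms: `QF` as a sum over all pairs of species -/
def kq (κ : Bool → Bool → ℝ → ℝ → ℝ) : Bool → Bool → ℝ → ℝ → ℝ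
  | true, true => fun t t' => 1 / 2 * κ true true t t'
  | true, false => κ true false
  | false, true => fun _ _ => 0
  | false, false => fun t t' => 1 / 2 * κ false false t t'

/-- their constants -/
def kΛ (Λ1 : ℝ) : Bool → Bool → ℝ
  | true, true => 1 / 2 * Λ1
  | true, false => Λ1
  | false, true => 0
  | false, false => 1 / 2 * Λ1

theorem kq_KC {R Λ1 : ℝ} {κ : Bool → Bool → ℝ → ℝ → ℝ}
    (h : ∀ a d, KC R Λ1 (fun t t' => ((κ a d t t' : ℝ) : ℂ))) (k k' : Bool) :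
    KC R (kΛ Λ1 k k') (fun t t' => ((kq κ k k' t t' : ℝ) : ℂ)) := by
  have hs : ∀ a, KC R (1 / 2 * Λ1) (fun t t' => ((1 / 2 * κ a a t t' : ℝ) : ℂ)) := by
    intro a
    have h1 := (h a a).smul ((1 / 2 : ℝ) : ℂ)
    have e : ‖((1 / 2 : ℝ) : ℂ)‖ = 1 / 2 := by
      rw [Complex.norm_real, Real.norm_eq_abs, abs_of_pos (by norm_num)]
    rw [e] at h1
    refine h1.congr fun t t' _ _ => ?_
    push_cast
    ring
  cases k <;> cases k'
  · exact hs false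
  · refine KC.zero.congr fun t t' _ _ => ?_
    simp [kq]
  · exact h true false
  · exact hs true

theorem kΛ_sum (Λ1 : ℝ) : ∑ k, ∑ k', kΛ Λ1 k k' = 2 * Λ1 := by
  rw [Fintype.sum_bool, Fintype.sum_bool, Fintype.sum_bool]
  unfold kΛ
  ring

theorem QF_eq {p n : ℕ} (bb ρ : ℝ → ℝ) (κ : Bool → Bool → ℝ → ℝ → ℝ)
    (ω : (Fin p → ℝ) × (Fin n → ℝ)) :
    NU42.QF ρ (NU42.kb bb κ) ω.1 ω.2 = QFF bb (fun _ : Bool => ρ) (kq κ) (spF p n) ω := by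
  unfold NU42.QF QFF
  rw [Fintype.sum_bool, Fintype.sum_bool, Fintype.sum_bool]
  have h1 : ∀ {m : ℕ} (t : Fin m → ℝ) (a : Bool), nuF2 ρ ρ t t (fun u u' => bb u * bb u' * (1 / 2 * κ a a u u')) =
      1 / 2 * nuF2 ρ ρ t t (NU42.kb bb κ a a) := by
    intro m t a
    rw [← nuF2_smul]
    congr 1
    funext u u'
    unfold NU42.kb
    ring
  have h2 : nuF2 ρ ρ ω.2 ω.1 (fun u u' => bb u * bb u' * (0 : ℝ)) = 0 := by
    have : (fun u u' : ℝ => bb u * bb u' * (0 : ℝ)) = fun u u' => 0 * (0 : ℝ) := by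
      funext u u'
      ring
    rw [this, nuF2_smul, zero_mul]
  have e1 : nuF2 ρ ρ (spF p n true ω) (spF p n true ω) (fun t t' => bb t * bb t' * kq κ true true t t') =
      1 / 2 * nuF2 ρ ρ ω.1 ω.1 (NU42.kb bb κ true true) := h1 ω.1 true
  have e2 : nuF2 ρ ρ (spF p n false ω) (spF p n false ω) (fun t t' => bb t * bb t' * kq κ false false t t') =
      1 / 2 * nuF2 ρ ρ ω.2 ω.2 (NU42.kb bb κ false false) := h1 ω.2 false
  have e3 : nuF2 ρ ρ (spF p n false ω) (spF p n true ω) (fun t t' => bb t * bb t' * kq κ false true t t') = 0 := h2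
  have e4 : nuF2 ρ ρ (spF p n true ω) (spF p n false ω) (fun t t' => bb t * bb t' * kq κ true false t t') =
      nuF2 ρ ρ ω.1 ω.2 (NU42.kb bb κ true false) := rfl
  rw [e1, e2, e3, e4]
  ring

/-- the window -/
def bx (T : ℝ) (p n : ℕ) : Set ((Fin p → ℝ) × (Fin n → ℝ)) :=
  (Set.univ.pi fun _ => Icc (-T) T) ×ˢ (Set.univ.pi fun _ => Icc (-T) T)

theorem bx_meas (T : ℝ) (p n : ℕ) : MeasurableSet (bx T p n) :=
  (MeasurableSet.univ_pi fun _ => measurableSet_Icc).prod (MeasurableSet.univ_pi fun _ => measurableSet_Icc)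

/-- one component weight on the window -/
theorem W1_le {n : ℕ} {T c : ℝ} {φ ρ : ℝ → ℝ}
    (t : Fin n → ℝ) (ht : t ∈ Set.univ.pi fun _ : Fin n => Icc (-T) T) :
    ENNReal.ofReal (NU42.W1 φ t) = ENNReal.ofReal (Real.exp (n * c)) *
      WT T n ρ (fun x => φ x - c - ∫ s, ρ s * V (x - s)) t := by
  unfold WT
  rw [indicator_of_mem ht, ← ENNReal.ofReal_mul (Real.exp_pos _).le]
  congr 1
  unfold NU42.W1
  have e : (∏ i, ∏ j ∈ Finset.Ioi i, om (t i - t j)) = NU42.pom t := rfl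
  rw [e, ← Real.exp_sum, ← Real.exp_sum, mul_left_comm, ← Real.exp_add]
  congr 2
  have : ∀ i, (∫ s, ρ s * V (t i - s)) + (φ (t i) - c - ∫ s, ρ s * V (t i - s)) = φ (t i) - c :=
    fun i => by ring
  simp_rw [this]
  rw [Finset.sum_sub_distrib]
  simp

/-- **Pointwise**: the weight on the window, by the one component weights and the cut form. -/
theorem win_pt {p n : ℕ} {b c B C s : ℝ} {DX DX1 DY DY1 : ℝ → ℂ} {Fe : Bool → ℂ → ℂ}
    {ch : ℝ → ℝ} (hc : Continuous ch) (hce : ∀ k, ch (-k) = ch k) {K h : ℝ} (hh : 0 < h)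
    (hK : K * h < Real.pi) (hcs : ∀ k, K < |k| → ch k = 0) (hL : ∀ k, 0 < k → ch k ^ 2 ≤ NUMF.Lh k)
    (La : Finset ℤ) (a0 : ℝ) {τ : ℝ → ℝ} (hτ : Integrable τ) (hτ1 : Integrable fun x => τ x * x)
    (h0 : ∫ x, τ x = (p : ℝ) - n)
    (hs : NU42.Small DX DX1 DY DY1) (hb : b ≤ NUMF.l / 4)
    (P' : ∀ a, NUAct.Path b c B (NU42.zz DX DY a) (NU42.zz1 DX1 DY1 a)) (hs0 : 0 ≤ s)
    (hF : ∀ a, NUAct.Ext b (Fe a)) (hk : ∀ a d, NU42.Bk C (NU42.kd DX DX1 DY DY1 a d))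
    {a a' βX βY : ℝ → ℝ} (ha : ∀ t, 0 ≤ a t) (ha' : ∀ t, 0 ≤ a' t)
    (hla : ∀ t, a t ≤ Real.exp (s * NUMF.v t + (NU42.XX s DX DX1 DY DY1 Fe).G true t + βX t))
    (hla' : ∀ t, a' t ≤ Real.exp (s * NUMF.v t + (NU42.XX s DX DX1 DY DY1 Fe).G false t + βY t))
    {R : ℝ} {bb : ℝ → ℝ} (hbb : Cutf R bb) {ε : ℝ}
    (he : ∀ a d t t', |NU42.kd DX DX1 DY DY1 a d t t' - bb t * bb t' * NU42.kd DX DX1 DY DY1 a d t t'| ≤ ε)
    {T : ℝ} (ρX ρY : ℝ → ℝ) (cX cY : ℝ) (ω : (Fin p → ℝ) × (Fin n → ℝ)) :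
    (bx T p n).indicator (fun ω => ENNReal.ofReal (NU42.WO DX DX1 DY DY1 a a' ω.1 ω.2 *
        Real.exp (1 / 2 * ∑ l ∈ La, NU42.Fst ch h a0 τ l ω.1 ω.2 ^ 2))) ω ≤
      ENNReal.ofReal (Real.exp (NU42.Ctau p n τ + NU42.CS s DX DX1 DY DY1 Fe + p * cX + n * cY +
        ε / 2 * ((p : ℝ) + n + 2 * ∫ x, s * P x) ^ 2)) *
      (WT T p ρX (fun x => NU42.phi s DX DX1 DY DY1 Fe βX τ true x - cX - ∫ u, ρX u * V (x - u)) ω.1 *
       WT T n ρY (fun x => NU42.phi s DX DX1 DY DY1 Fe βY τ false x - cY - ∫ u, ρY u * V (x - u)) ω.2 *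
        ENNReal.ofReal (Real.exp (QFF bb (fun _ : Bool => fun t => s * P t)
        (kq (NU42.kd DX DX1 DY DY1)) (spF p n) ω))) := by
  have hdens := NU42.dens_P (s := s) hs0
  set φX := NU42.phi s DX DX1 DY DY1 Fe βX τ true with hφXd
  set φY := NU42.phi s DX DX1 DY DY1 Fe βY τ false with hφYd
  by_cases hω : ω ∈ bx T p n
  · rw [indicator_of_mem hω]
    have h2 := NU42.WO_act hc hce hh hK hcs hL La a0 hτ hτ1 h0 hs hb P' hs0 hF hk ha ha' hla hla'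
      ω.1 ω.2
    have h3 := NU42.QF_cut hdens hk hbb.cont hbb.le he ω.1 ω.2
    rw [QF_eq] at h3
    have w1 := NU42.W1_nonneg φX ω.1
    have w2 := NU42.W1_nonneg φY ω.2
    set q0 := QFF bb (fun _ : Bool => fun t => s * P t) (kq (NU42.kd DX DX1 DY DY1)) (spF p n) ω
      with hq0
    have e1 := W1_le (T := T) (c := cX) (φ := φX) (ρ := ρX) ω.1 hω.1
    have e2 := W1_le (T := T) (c := cY) (φ := φY) (ρ := ρY) ω.2 hω.2
    set c0 := NU42.Ctau p n τ + NU42.CS s DX DX1 DY DY1 Fe + p * cX + n * cY +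
        ε / 2 * ((p : ℝ) + n + 2 * ∫ x, s * P x) ^ 2 with hc0
    have e3 : ENNReal.ofReal (Real.exp c0) *
        (WT T p ρX (fun x => φX x - cX - ∫ u, ρX u * V (x - u)) ω.1 *
        WT T n ρY (fun x => φY x - cY - ∫ u, ρY u * V (x - u)) ω.2 *
        ENNReal.ofReal (Real.exp q0)) =
        ENNReal.ofReal (Real.exp (NU42.Ctau p n τ + NU42.CS s DX DX1 DY DY1 Fe +
          ε / 2 * ((p : ℝ) + n + 2 * ∫ x, s * P x) ^ 2)) *
        (ENNReal.ofReal (NU42.W1 φX ω.1) * ENNReal.ofReal (NU42.W1 φY ω.2) *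
        ENNReal.ofReal (Real.exp q0)) := by
      rw [e1, e2, hc0, show NU42.Ctau p n τ + NU42.CS s DX DX1 DY DY1 Fe + p * cX + n * cY +
        ε / 2 * ((p : ℝ) + n + 2 * ∫ x, s * P x) ^ 2 =
        (NU42.Ctau p n τ + NU42.CS s DX DX1 DY DY1 Fe +
          ε / 2 * ((p : ℝ) + n + 2 * ∫ x, s * P x) ^ 2) + p * cX + n * cY by ring,
        Real.exp_add, Real.exp_add, ENNReal.ofReal_mul (by positivity),
        ENNReal.ofReal_mul (by positivity)]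
      ring
    rw [e3, ← ENNReal.ofReal_mul w1, ← ENNReal.ofReal_mul (by positivity),
      ← ENNReal.ofReal_mul (Real.exp_pos _).le]
    refine ENNReal.ofReal_le_ofReal (h2.trans ?_)
    have h4 : Real.exp (NU42.QF (fun u => s * P u) (NU42.kd DX DX1 DY DY1) ω.1 ω.2) ≤
        Real.exp q0 * Real.exp (ε / 2 * ((p : ℝ) + n + 2 * ∫ x, s * P x) ^ 2) := by
      rw [← Real.exp_add]
      exact Real.exp_le_exp.2 h3
    calc Real.exp (NU42.Ctau p n τ + NU42.CS s DX DX1 DY DY1 Fe) * NU42.W1 φX ω.1 *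
          NU42.W1 φY ω.2 * Real.exp (NU42.QF (fun u => s * P u) (NU42.kd DX DX1 DY DY1) ω.1 ω.2) ≤
        Real.exp (NU42.Ctau p n τ + NU42.CS s DX DX1 DY DY1 Fe) * NU42.W1 φX ω.1 *
          NU42.W1 φY ω.2 * (Real.exp q0 *
          Real.exp (ε / 2 * ((p : ℝ) + n + 2 * ∫ x, s * P x) ^ 2)) := by gcongr
      _ = _ := by
        rw [Real.exp_add (NU42.Ctau p n τ + NU42.CS s DX DX1 DY DY1 Fe)]
        ring
  · rw [indicator_of_notMem hω]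
    exact bot_le

theorem WT_meas' {T c : ℝ} {ρ φ : ℝ → ℝ} (hρ : Continuous ρ) (hφ : Measurable φ) (n : ℕ) :
    Measurable (WT T n ρ fun x => φ x - c - ∫ u, ρ u * V (x - u)) :=
  WT_meas hρ.measurable ((hφ.sub measurable_const).sub (conv_meas hρ.measurable)) n

/-- one species of the window -/
theorem win_one {m : ℕ} {G T L δ M m2 δ2 R M' : ℝ} (hG : 9 ≤ G) (hT : 0 < T)
    (hLL : L = 2 * T + 2 * G) {ρ0 ρ E E' φ : ℝ → ℝ} {c : ℝ} (hρ0 : Integrable ρ0)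
    (hX : Spec R T L δ M m2 δ2 ρ0 ρ E E')
    {bb bb' : ℝ → ℝ} (hbb : Cutf R bb) (hR : 1 ≤ R) (hbd : ∀ x, HasDerivAt bb (bb' x) x)
    (hbc : Continuous bb') (hb1 : ∀ x, |bb' x| ≤ 1)
    (hφ : ∀ x, |x| ≤ T → φ x ≤ (∫ u, ρ u * V (x - u)) + E x + c)
    (hM' : (m2 + δ2) ^ 2 + 4 * Qt G L E ≤ M') :
    OneF bb ρ0 (WT T m ρ fun x => φ x - c - ∫ u, ρ u * V (x - u)) (ENNReal.ofReal (BT G L δ m ρ E))
      (22 * R) M' := by
  refine ExpF.mono (oneF_R hG hT m hX.cont hX.int hX.bd hX.tail hLL hX.c1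
      (F := fun x => φ x - c - ∫ u, ρ u * V (x - u)) (fun x hx => ?_) hbb hR hbd hbc hb1 hρ0 hX.mass
      hX.mass0) (fun _ => le_rfl) le_rfl le_rfl ?_
  · have := hφ x hx
    show φ x - c - (∫ u, ρ u * V (x - u)) ≤ E x
    linarith
  · have : 0 ≤ 22 * R := by linarith
    gcongr

/-- **The positive gas on a window** ([4.2] + [4.4] + [4.5]). -/
theorem win_H0 {p n : ℕ} {b c B C s : ℝ} {DX DX1 DY DY1 : ℝ → ℂ} {Fe : Bool → ℂ → ℂ}
    {ch : ℝ → ℝ} (hc : Continuous ch) (hce : ∀ k, ch (-k) = ch k) {K h : ℝ} (hh : 0 < h)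
    (hK : K * h < Real.pi) (hcs : ∀ k, K < |k| → ch k = 0) (hL : ∀ k, 0 < k → ch k ^ 2 ≤ NUMF.Lh k)
    (La : Finset ℤ) (a0 : ℝ) {τ : ℝ → ℝ} (hτ : Integrable τ) (hτ1 : Integrable fun x => τ x * x)
    (h0 : ∫ x, τ x = (p : ℝ) - n)
    (hs : NU42.Small DX DX1 DY DY1) (hb : b ≤ NUMF.l / 4)
    (P' : ∀ a, NUAct.Path b c B (NU42.zz DX DY a) (NU42.zz1 DX1 DY1 a)) (hs0 : 0 ≤ s)
    (hF : ∀ a, NUAct.Ext b (Fe a)) (hk : ∀ a d, NU42.Bk C (NU42.kd DX DX1 DY DY1 a d))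
    {a a' βX βY : ℝ → ℝ} (ha : ∀ t, 0 ≤ a t) (ha' : ∀ t, 0 ≤ a' t)
    (hla : ∀ t, a t ≤ Real.exp (s * NUMF.v t + (NU42.XX s DX DX1 DY DY1 Fe).G true t + βX t))
    (hla' : ∀ t, a' t ≤ Real.exp (s * NUMF.v t + (NU42.XX s DX DX1 DY DY1 Fe).G false t + βY t))
    -- cut kernels
    {R : ℝ} {bb bb' : ℝ → ℝ} (hbb : Cutf R bb) (hR : 1 ≤ R) (hbd : ∀ x, HasDerivAt bb (bb' x) x)
    (hbc : Continuous bb') (hb1 : ∀ x, |bb' x| ≤ 1) {ε : ℝ}
    (he : ∀ a d t t', |NU42.kd DX DX1 DY DY1 a d t t' - bb t * bb t' * NU42.kd DX DX1 DY DY1 a d t t'| ≤ ε)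
    {Λ0 Λ1 : ℝ} (hKC : ∀ a d, KC R Λ1 (fun t t' => ((NU42.kd DX DX1 DY DY1 a d t t' : ℝ) : ℂ)))
    (hΛ0 : 0 < Λ0) (hΛ1 : 2 * Λ1 ≤ Λ0) (hq : 8 * Λ0 * (22 * R) ≤ 1)
    -- the window and the two species
    {G T L δ M m2 δ2 : ℝ} (hG : 9 ≤ G) (hT : 0 < T) (hLL : L = 2 * T + 2 * G)
    {ρX ρY EX EX' EY EY' : ℝ → ℝ} {cX cY : ℝ}
    (hX : Spec R T L δ M m2 δ2 (fun t => s * P t) ρX EX EX')
    (hY : Spec R T L δ M m2 δ2 (fun t => s * P t) ρY EY EY')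
    (hmX : Measurable (NU42.phi s DX DX1 DY DY1 Fe βX τ true))
    (hmY : Measurable (NU42.phi s DX DX1 DY DY1 Fe βY τ false))
    (hφX : ∀ x, |x| ≤ T → NU42.phi s DX DX1 DY DY1 Fe βX τ true x ≤ (∫ u, ρX u * V (x - u)) + EX x + cX)
    (hφY : ∀ x, |x| ≤ T → NU42.phi s DX DX1 DY DY1 Fe βY τ false x ≤ (∫ u, ρY u * V (x - u)) + EY x + cY) :
    ∫⁻ ω in bx T p n, ENNReal.ofReal (NU42.WO DX DX1 DY DY1 a a' ω.1 ω.2 *
        Real.exp (1 / 2 * ∑ l ∈ La, NU42.Fst ch h a0 τ l ω.1 ω.2 ^ 2)) ≤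
      ENNReal.ofReal (Real.exp (NU42.Ctau p n τ + NU42.CS s DX DX1 DY DY1 Fe + p * cX + n * cY +
        ε / 2 * ((p : ℝ) + n + 2 * ∫ x, s * P x) ^ 2)) *
      (ENNReal.ofReal (BT G L δ p ρX EX) * ENNReal.ofReal (BT G L δ n ρY EY) *
      ENNReal.ofReal (√2 * Real.exp (4 * Λ0 * (22 * R) *
        ((m2 + δ2) ^ 2 + 4 * (Qt G L EX + Qt G L EY))))) := by
  have hL0 : 0 < L := by rw [hLL]; linarith
  have hdens := NU42.dens_P (s := s) hs0
  have hQX := Qt_nonneg hG hL0 hX.c1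
  have hQY := Qt_nonneg hG hL0 hY.c1
  set M' := (m2 + δ2) ^ 2 + 4 * (Qt G L EX + Qt G L EY) with hM'
  have hM'0 : 0 ≤ M' := by positivity
  have oX := win_one (m := p) hG hT hLL hdens.int hX hbb hR hbd hbc hb1 hφX (M' := M')
    (by rw [hM']; linarith)
  have oY := win_one (m := n) hG hT hLL hdens.int hY hbb hR hbd hbc hb1 hφY (M' := M')
    (by rw [hM']; linarith)
  have mX := WT_meas' (T := T) (c := cX) hX.cont hmX p
  have mY := WT_meas' (T := T) (c := cY) hY.cont hmY n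
  have h1 := crudeF2 hbb (ρ := fun _ : Bool => fun t => s * P t)
    (fun _ => hdens.cont) mX mY (kq_KC hKC) hΛ0 (by rw [kΛ_sum]; exact hΛ1) (by linarith) hM'0 hq
    oX oY (fun _ => le_rfl)
  rw [← lintegral_indicator (bx_meas T p n)]
  refine (lintegral_mono fun ω => win_pt hc hce hh hK hcs hL La a0 hτ hτ1 h0 hs hb P' hs0 hF hk ha
    ha' hla hla' hbb he (T := T) ρX ρY cX cY ω).trans ?_
  rw [lintegral_const_mul' _ _ ENNReal.ofReal_ne_top]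
  exact mul_le_mul_right h1 _

/-- **The same with one more square** (either species, every mode). -/
theorem win_sq {p n : ℕ} {b c B C s : ℝ} {DX DX1 DY DY1 : ℝ → ℂ} {Fe : Bool → ℂ → ℂ}
    {ch : ℝ → ℝ} (hc : Continuous ch) (hce : ∀ k, ch (-k) = ch k) {K h : ℝ} (hh : 0 < h)
    (hK : K * h < Real.pi) (hcs : ∀ k, K < |k| → ch k = 0) (hL : ∀ k, 0 < k → ch k ^ 2 ≤ NUMF.Lh k)
    (La : Finset ℤ) (a0 : ℝ) {τ : ℝ → ℝ} (hτ : Integrable τ) (hτ1 : Integrable fun x => τ x * x)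
    (h0 : ∫ x, τ x = (p : ℝ) - n)
    (hs : NU42.Small DX DX1 DY DY1) (hb : b ≤ NUMF.l / 4)
    (P' : ∀ a, NUAct.Path b c B (NU42.zz DX DY a) (NU42.zz1 DX1 DY1 a)) (hs0 : 0 ≤ s)
    (hF : ∀ a, NUAct.Ext b (Fe a)) (hk : ∀ a d, NU42.Bk C (NU42.kd DX DX1 DY DY1 a d))
    {a a' βX βY : ℝ → ℝ} (ha : ∀ t, 0 ≤ a t) (ha' : ∀ t, 0 ≤ a' t)
    (hla : ∀ t, a t ≤ Real.exp (s * NUMF.v t + (NU42.XX s DX DX1 DY DY1 Fe).G true t + βX t))
    (hla' : ∀ t, a' t ≤ Real.exp (s * NUMF.v t + (NU42.XX s DX DX1 DY DY1 Fe).G false t + βY t))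
    -- cut kernels
    {R : ℝ} {bb bb' : ℝ → ℝ} (hbb : Cutf R bb) (hR : 1 ≤ R) (hbd : ∀ x, HasDerivAt bb (bb' x) x)
    (hbc : Continuous bb') (hb1 : ∀ x, |bb' x| ≤ 1) {ε : ℝ}
    (he : ∀ a d t t', |NU42.kd DX DX1 DY DY1 a d t t' - bb t * bb t' * NU42.kd DX DX1 DY DY1 a d t t'| ≤ ε)
    {Λ0 Λ1 : ℝ} (hKC : ∀ a d, KC R Λ1 (fun t t' => ((NU42.kd DX DX1 DY DY1 a d t t' : ℝ) : ℂ)))
    (hΛ0 : 0 < Λ0) (hΛ1 : 2 * Λ1 ≤ Λ0)
    {c' : ℝ} (hc' : 2 * Λ0 ≤ c') (hq : 8 * c' * (22 * R) ≤ 1)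
    -- the window and the two species
    {G T L δ M m2 δ2 : ℝ} (hG : 9 ≤ G) (hT : 0 < T) (hLL : L = 2 * T + 2 * G)
    {ρX ρY EX EX' EY EY' : ℝ → ℝ} {cX cY : ℝ}
    (hX : Spec R T L δ M m2 δ2 (fun t => s * P t) ρX EX EX')
    (hY : Spec R T L δ M m2 δ2 (fun t => s * P t) ρY EY EY')
    (hmX : Measurable (NU42.phi s DX DX1 DY DY1 Fe βX τ true))
    (hmY : Measurable (NU42.phi s DX DX1 DY DY1 Fe βY τ false))
    (hφX : ∀ x, |x| ≤ T → NU42.phi s DX DX1 DY DY1 Fe βX τ true x ≤ (∫ u, ρX u * V (x - u)) + EX x + cX)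
    (hφY : ∀ x, |x| ≤ T → NU42.phi s DX DX1 DY DY1 Fe βY τ false x ≤ (∫ u, ρY u * V (x - u)) + EY x + cY)
    (k : Bool) (al : ℝ) :
    ∫⁻ ω in bx T p n, ENNReal.ofReal (NU42.WO DX DX1 DY DY1 a a' ω.1 ω.2 *
        Real.exp (1 / 2 * ∑ l ∈ La, NU42.Fst ch h a0 τ l ω.1 ω.2 ^ 2)) *
        ENNReal.ofReal (Real.exp (c' / (1 + |al|) *
          (nuF (fun t => s * P t) (spF p n k ω) fun t => bb t * Real.cos (al * t)) ^ 2)) ≤
      ENNReal.ofReal (Real.exp (NU42.Ctau p n τ + NU42.CS s DX DX1 DY DY1 Fe + p * cX + n * cY +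
        ε / 2 * ((p : ℝ) + n + 2 * ∫ x, s * P x) ^ 2)) *
      (ENNReal.ofReal (BT G L δ p ρX EX) * ENNReal.ofReal (BT G L δ n ρY EY) *
      ENNReal.ofReal (√2 * Real.exp (4 * c' * (22 * R) *
        ((m2 + δ2) ^ 2 + 4 * (Qt G L EX + Qt G L EY))))) ∧
    ∫⁻ ω in bx T p n, ENNReal.ofReal (NU42.WO DX DX1 DY DY1 a a' ω.1 ω.2 *
        Real.exp (1 / 2 * ∑ l ∈ La, NU42.Fst ch h a0 τ l ω.1 ω.2 ^ 2)) *
        ENNReal.ofReal (Real.exp (c' / (1 + |al|) *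
          (nuF (fun t => s * P t) (spF p n k ω) fun t => bb t * Real.sin (al * t)) ^ 2)) ≤
      ENNReal.ofReal (Real.exp (NU42.Ctau p n τ + NU42.CS s DX DX1 DY DY1 Fe + p * cX + n * cY +
        ε / 2 * ((p : ℝ) + n + 2 * ∫ x, s * P x) ^ 2)) *
      (ENNReal.ofReal (BT G L δ p ρX EX) * ENNReal.ofReal (BT G L δ n ρY EY) *
      ENNReal.ofReal (√2 * Real.exp (4 * c' * (22 * R) *
        ((m2 + δ2) ^ 2 + 4 * (Qt G L EX + Qt G L EY))))) := by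
  have hL0 : 0 < L := by rw [hLL]; linarith
  have hdens := NU42.dens_P (s := s) hs0
  have hQX := Qt_nonneg hG hL0 hX.c1
  have hQY := Qt_nonneg hG hL0 hY.c1
  set M' := (m2 + δ2) ^ 2 + 4 * (Qt G L EX + Qt G L EY) with hM'
  have hM'0 : 0 ≤ M' := by positivity
  have oX := win_one (m := p) hG hT hLL hdens.int hX hbb hR hbd hbc hb1 hφX (M' := M')
    (by rw [hM']; linarith)
  have oY := win_one (m := n) hG hT hLL hdens.int hY hbb hR hbd hbc hb1 hφY (M' := M')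
    (by rw [hM']; linarith)
  have mX := WT_meas' (T := T) (c := cX) hX.cont hmX p
  have mY := WT_meas' (T := T) (c := cY) hY.cont hmY n
  have h1 := crudeF_sq (μ := (volume : Measure ((Fin p → ℝ) × (Fin n → ℝ)))) (s := spF p n)
    (ρ := fun _ : Bool => fun t => s * P t) hbb ((mX.comp measurable_fst).mul (mY.comp measurable_snd))
    measurable_spF (fun _ => hdens.cont) (kq_KC hKC) hΛ0 (by rw [kΛ_sum]; exact hΛ1) (by linarith)
    hM'0 hc' hq (two_expF (ρ := fun _ : Bool => fun t => s * P t) hbb.cont mX mY oX oY) k al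
  have go : ∀ N : (Fin p → ℝ) × (Fin n → ℝ) → ℝ, ∀ D : ℝ≥0∞,
      ∫⁻ ω : (Fin p → ℝ) × (Fin n → ℝ),
        (WT T p ρX (fun x => NU42.phi s DX DX1 DY DY1 Fe βX τ true x - cX - ∫ u, ρX u * V (x - u)) ω.1 *
         WT T n ρY (fun x => NU42.phi s DX DX1 DY DY1 Fe βY τ false x - cY - ∫ u, ρY u * V (x - u)) ω.2) *
        ENNReal.ofReal (Real.exp (QFF bb (fun _ : Bool => fun t => s * P t)
          (kq (NU42.kd DX DX1 DY DY1)) (spF p n) ω + N ω)) ≤ D →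
      ∫⁻ ω in bx T p n, ENNReal.ofReal (NU42.WO DX DX1 DY DY1 a a' ω.1 ω.2 *
        Real.exp (1 / 2 * ∑ l ∈ La, NU42.Fst ch h a0 τ l ω.1 ω.2 ^ 2)) *
        ENNReal.ofReal (Real.exp (N ω)) ≤
      ENNReal.ofReal (Real.exp (NU42.Ctau p n τ + NU42.CS s DX DX1 DY DY1 Fe + p * cX + n * cY +
        ε / 2 * ((p : ℝ) + n + 2 * ∫ x, s * P x) ^ 2)) * D := by
    intro N D hD
    rw [← lintegral_indicator (bx_meas T p n)]
    refine le_trans (lintegral_mono fun ω => ?_) (le_trans (le_of_eq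
      (lintegral_const_mul' _ _ ENNReal.ofReal_ne_top)) (mul_le_mul_right hD _))
    have h2 := win_pt hc hce hh hK hcs hL La a0 hτ hτ1 h0 hs hb P' hs0 hF hk ha
      ha' hla hla' hbb he (T := T) ρX ρY cX cY ω
    have e : ENNReal.ofReal (Real.exp (QFF bb (fun _ : Bool => fun t => s * P t)
          (kq (NU42.kd DX DX1 DY DY1)) (spF p n) ω + N ω)) = ENNReal.ofReal (Real.exp
          (QFF bb (fun _ : Bool => fun t => s * P t) (kq (NU42.kd DX DX1 DY DY1)) (spF p n) ω)) *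
          ENNReal.ofReal (Real.exp (N ω)) := by
      rw [Real.exp_add, ENNReal.ofReal_mul (Real.exp_pos _).le]
    rw [e, ← mul_assoc (_ * _), ← mul_assoc]
    by_cases hω : ω ∈ bx T p n
    · rw [indicator_of_mem hω] at h2 ⊢
      exact mul_le_mul_left h2 _
    · rw [indicator_of_notMem hω]
      exact bot_le
  exact ⟨go _ _ h1.1, go _ _ h1.2⟩

end

end NUH0
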