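import Pool.Agent.NUH0.En
import Pool.Agent.NUH0.Win
import Pool.Agent.NUMFC.Bk

/-!
# Regularity on the line: small remainders and tails
-/

set_option autoImplicit false

open MeasureTheory Set Filter Topology
open scoped Real ENNReal

namespace NUH0

open NUMF NUWC NUC37 NUKer NUDi NUMFC

noncomputable section

variable {φ φ' : ℝ → ℝ}

/-- a cut of the window -/
theorem chi_Cutf {T : ℝ} (hT : 0 ≤ T) : Cutf (T + 1) (chi T) where
  R0 := by linarith
  cont := chi_cont T
  le := chi_abs T
  zero t ht := chi_out ht.le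

/-- the energy of the cut potential on the circle: only the energy on `[-(T+1), T+1]` enters -/
theorem Qt_cut {G L T : ℝ} (hG : 9 ≤ G) (hT0 : 0 ≤ T) (hT : 2 * T + 2 ≤ L)
    (hd : ∀ t, HasDerivAt φ (φ' t) t) (hc : Continuous φ') :
    Qt G L (fun x => chi T x * φ x) ≤ 11 * ∫ x in (-(T + 1))..(T + 1), (φ x ^ 2 + φ' x ^ 2) := by
  have hL : 0 < L := by linarith
  have hφ : Continuous φ := continuous_iff_continuousAt.2 fun t => (hd t).continuousAt
  have hch := chi_cont T
  have hch' := chi'_cont T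
  have hle : -(L / 2) ≤ L / 2 := by linarith
  have hle2 : -(T + 1) ≤ T + 1 := by linarith
  have h0 := Qt_le hG hL (cut_C1P hL hT (fun x _ => hd x) hc.continuousOn)
  set A := ∫ x in (-(L / 2))..(L / 2), (chi T x * φ x) ^ 2 with hA
  set B := ∫ x in (-(L / 2))..(L / 2), (chi' T x * φ x + chi T x * φ' x) ^ 2 with hB
  have hA0 : 0 ≤ A := intervalIntegral.integral_nonneg hle fun x _ => sq_nonneg _
  have hB0 : 0 ≤ B := intervalIntegral.integral_nonneg hle fun x _ => sq_nonneg _
  have a1 : ∀ x, chi T x ^ 2 ≤ 1 := fun x => by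
    rw [← sq_abs]
    nlinarith [chi_abs T x, abs_nonneg (chi T x)]
  have a2 : ∀ x, chi' T x ^ 2 ≤ 9 := fun x => by
    rw [← sq_abs]
    nlinarith [chi'_abs T x, abs_nonneg (chi' T x)]
  have key : ∀ f : ℝ → ℝ, (∀ x, T + 1 < |x| → f x = 0) →
      ∫ x in (-(L / 2))..(L / 2), f x = ∫ x in (-(T + 1))..(T + 1), f x := by
    intro f hf
    rw [intervalIntegral.integral_of_le hle, intervalIntegral.integral_of_le hle2,
      ← integral_Icc_eq_integral_Ioc, ← integral_Icc_eq_integral_Ioc]
    refine (setIntegral_eq_of_subset_of_forall_diff_eq_zero measurableSet_Icc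
      (Icc_subset_Icc (by linarith) (by linarith)) fun x hx => hf x ?_)
    by_contra hh
    exact hx.2 (abs_le.1 (not_lt.1 hh))
  have c1 : Continuous fun x => φ x ^ 2 := by fun_prop
  have c2 : Continuous fun x => φ' x ^ 2 := by fun_prop
  have hA1 : A ≤ ∫ x in (-(T + 1))..(T + 1), φ x ^ 2 := by
    rw [hA, key _ fun x hx => by rw [chi_out hx.le]; ring]
    refine intervalIntegral.integral_mono_on hle2 ?_ (c1.intervalIntegrable _ _) fun x _ => ?_
    · exact (by fun_prop : Continuous fun x => (chi T x * φ x) ^ 2).intervalIntegrable _ _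
    · rw [mul_pow]
      nlinarith [a1 x, sq_nonneg (φ x)]
  have hB1 : B ≤ 18 * (∫ x in (-(T + 1))..(T + 1), φ x ^ 2) + 2 * ∫ x in (-(T + 1))..(T + 1), φ' x ^ 2 := by
    rw [hB, key _ fun x hx => by
        rw [chi_out hx.le, deriv_zero (chi_Cutf hT0) (chi_deriv T) hx]
        ring, ← intervalIntegral.integral_const_mul, ← intervalIntegral.integral_const_mul,
      ← intervalIntegral.integral_add
        ((by fun_prop : Continuous fun x => 18 * φ x ^ 2).intervalIntegrable _ _)
        ((by fun_prop : Continuous fun x => 2 * φ' x ^ 2).intervalIntegrable _ _)]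
    refine intervalIntegral.integral_mono_on hle2 ?_ ?_ fun x _ => ?_
    · exact (by fun_prop : Continuous fun x =>
        (chi' T x * φ x + chi T x * φ' x) ^ 2).intervalIntegrable _ _
    · exact (by fun_prop : Continuous fun x => 18 * φ x ^ 2 + 2 * φ' x ^ 2).intervalIntegrable _ _
    · have b1 : (chi' T x * φ x) ^ 2 ≤ 9 * φ x ^ 2 := by
        rw [mul_pow]
        nlinarith [a2 x, sq_nonneg (φ x)]
      have b2 : (chi T x * φ' x) ^ 2 ≤ φ' x ^ 2 := by
        rw [mul_pow]
        nlinarith [a1 x, sq_nonneg (φ' x)]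
      nlinarith [sq_nonneg (chi' T x * φ x - chi T x * φ' x)]
  have hs : √(A * B) ≤ (A + B) / 2 := by
    rw [Real.sqrt_le_left (by positivity)]
    nlinarith [sq_nonneg (A - B)]
  have e : ∫ x in (-(T + 1))..(T + 1), (φ x ^ 2 + φ' x ^ 2) =
      (∫ x in (-(T + 1))..(T + 1), φ x ^ 2) + ∫ x in (-(T + 1))..(T + 1), φ' x ^ 2 :=
    intervalIntegral.integral_add (c1.intervalIntegrable _ _) (c2.intervalIntegrable _ _)
  have h5 : 0 ≤ ∫ x in (-(T + 1))..(T + 1), φ' x ^ 2 :=
    intervalIntegral.integral_nonneg hle2 fun x _ => sq_nonneg _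
  rw [e]
  linarith

/-- mass of an exponential tail -/
theorem tail2 {T c : ℝ} (hc : 0 ≤ c) {f : ℝ → ℝ} (hf : Integrable f)
    (h : ∀ x, T ≤ |x| → |f x| ≤ c * Real.exp (-(|x| - T))) :
    ∫ x in {x | T ≤ |x|}, |f x| ≤ 2 * c := by
  have e : {x : ℝ | T ≤ |x|} = Ici T ∪ Iic (-T) := by
    ext x
    show T ≤ |x| ↔ _
    simp only [mem_union, mem_Ici, mem_Iic, le_abs]
    constructor
    · rintro (h | h)
      · exact Or.inl h
      · exact Or.inr (by linarith)
    · rintro (h | h)
      · exact Or.inl h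
      · exact Or.inr (by linarith)
  have h1 : ∫ x in Ici T, |f x| ≤ c := by
    rw [integral_Ici_eq_integral_Ioi]
    have hi : IntegrableOn (fun x => c * Real.exp T * Real.exp (-x)) (Ioi T) :=
      (integrableOn_exp_neg_Ioi T).const_mul _
    refine le_trans (setIntegral_mono_on hf.abs.integrableOn hi measurableSet_Ioi fun x hx => ?_)
      (le_of_eq ?_)
    · have hx' : T < x := hx
      have h3 := h x (hx'.le.trans (le_abs_self x))
      refine h3.trans ?_
      rw [mul_assoc, ← Real.exp_add]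
      have h4 : -(|x| - T) ≤ T + -x := by linarith [le_abs_self x]
      have h5 := Real.exp_le_exp.2 h4
      gcongr
    · rw [integral_const_mul, integral_exp_neg_Ioi, mul_assoc, ← Real.exp_add]
      simp
  have h2 : ∫ x in Iic (-T), |f x| ≤ c := by
    have hi : IntegrableOn (fun x => c * Real.exp T * Real.exp x) (Iic (-T)) :=
      (integrableOn_exp_Iic (-T)).const_mul _
    refine le_trans (setIntegral_mono_on hf.abs.integrableOn hi measurableSet_Iic fun x hx => ?_)
      (le_of_eq ?_)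
    · have hx' : x ≤ -T := hx
      have h3 := h x ((by linarith : T ≤ -x).trans (neg_le_abs x))
      refine h3.trans ?_
      rw [mul_assoc, ← Real.exp_add]
      have h4 : -(|x| - T) ≤ T + x := by linarith [neg_le_abs x]
      have h5 := Real.exp_le_exp.2 h4
      gcongr
    · rw [integral_const_mul, integral_exp_Iic, mul_assoc, ← Real.exp_add]
      simp
  rw [e]
  calc ∫ x in Ici T ∪ Iic (-T), |f x| ≤ ∫ x, |f x| ∂(volume.restrict (Ici T) + volume.restrict (Iic (-T))) := by
        refine integral_mono_measure (Measure.restrict_union_le _ _) (ae_of_all _ fun x => abs_nonneg _) ?_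
        exact Integrable.add_measure (μ := volume.restrict (Ici T)) (ν := volume.restrict (Iic (-T)))
          hf.abs.integrableOn hf.abs.integrableOn
    _ = (∫ x in Ici T, |f x|) + ∫ x in Iic (-T), |f x| :=
        integral_add_measure hf.abs.integrableOn hf.abs.integrableOn
    _ ≤ 2 * c := by linarith

/-- regularity with tails and a `C¹` remainder -/
structure RegT (X : Dat) (T0 δ : ℝ) : Prop extends Reg X where
  tail : ∀ a t, T0 ≤ |t| → |rm X a t| ≤ δ * Real.exp (-(|t| - T0))
  φd : ∀ a t, HasDerivAt (X.φ a) (X.φ' a t) t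
  φc' : ∀ a, Continuous (X.φ' a)
  δφ : ∀ a t, δ * |X.φ a t| ≤ 1
  δ0 : 0 ≤ δ
  δ1 : δ ^ 2 * (1 + Real.log (1 + T0)) ≤ 1
  T0 : 0 ≤ T0

variable {X : Dat} {T0 δ T : ℝ}

/-- the tail constant of the window `[-T, T]` -/
def δT (T0 δ T : ℝ) : ℝ := δ * Real.exp (-(T - T0))

theorem RegT.tailT (h : RegT X T0 δ) (hT : T0 ≤ T) (a : Bool) (t : ℝ) (ht : T ≤ |t|) :
    |rm X a t| ≤ δT T0 δ T * Real.exp (-(|t| - T)) := by
  have h1 := h.tail a t (hT.trans ht)
  refine h1.trans (le_of_eq ?_)
  unfold δT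
  rw [mul_assoc, ← Real.exp_add]
  congr 2
  ring

theorem RegT.δT_nonneg (h : RegT X T0 δ) : 0 ≤ δT T0 δ T := mul_nonneg h.δ0 (Real.exp_pos _).le

theorem RegT.δT_le (h : RegT X T0 δ) (hT : T0 ≤ T) : δT T0 δ T ≤ 1 := by
  have h1 := h.δ1
  have h2 := h.δ0
  have h3 : 0 ≤ Real.log (1 + T0) := Real.log_nonneg (by linarith [h.T0])
  have h4 : δ ≤ 1 := by nlinarith [mul_nonneg (sq_nonneg δ) h3]
  have h5 : Real.exp (-(T - T0)) ≤ 1 := Real.exp_le_one_iff.2 (by linarith)
  unfold δT
  calc δ * Real.exp (-(T - T0)) ≤ 1 * 1 := by gcongr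
    _ = 1 := one_mul 1

/-- the tent term -/
theorem RegT.tent (h : RegT X T0 δ) (hT : T0 ≤ T) : δT T0 δ T ^ 2 * (2 * Gw T + 1) ≤ 23 := by
  have hT0 := h.T0
  have h1 := h.δ1
  have h3 : 0 ≤ Real.log (1 + T0) := Real.log_nonneg (by linarith)
  have hx : 0 ≤ T - T0 := by linarith
  have h4 : Real.log (1 + T) ≤ Real.log (1 + T0) + (T - T0) := by
    have h5 : Real.log (1 + T) ≤ Real.log ((1 + T0) * (1 + (T - T0))) :=
      Real.log_le_log (by linarith) (by nlinarith)
    rw [Real.log_mul (by linarith) (by linarith)] at h5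
    have h6 := Real.log_le_sub_one_of_pos (show 0 < 1 + (T - T0) by linarith)
    linarith
  have h7 : Real.exp (-(T - T0)) ≤ 1 := Real.exp_le_one_iff.2 (by linarith)
  have h8 : (T - T0) * Real.exp (-(T - T0)) ≤ 1 := by
    have h9 := Real.add_one_le_exp (T - T0)
    rw [Real.exp_neg, ← div_eq_mul_inv, div_le_one (Real.exp_pos _)]
    linarith
  have h0 := (Real.exp_pos (-(T - T0))).le
  have hd2 : δ ^ 2 ≤ 1 := by nlinarith [mul_nonneg (sq_nonneg δ) h3]
  unfold Gw δT
  set e := Real.exp (-(T - T0)) with he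
  have h10 : (δ * e) ^ 2 * (2 * (9 + 2 * Real.log (1 + T)) + 1) ≤
      (δ * e) ^ 2 * (19 + 4 * Real.log (1 + T0) + 4 * (T - T0)) := by
    refine mul_le_mul_of_nonneg_left ?_ (sq_nonneg _)
    linarith
  have h11 : (δ * e) ^ 2 * (19 + 4 * Real.log (1 + T0)) ≤ 19 := by
    have h12 : e ^ 2 ≤ 1 := by nlinarith
    have h13 : δ ^ 2 * (19 + 4 * Real.log (1 + T0)) ≤ 19 := by nlinarith [mul_nonneg (sq_nonneg δ) h3]
    have h14 : 0 ≤ δ ^ 2 * (19 + 4 * Real.log (1 + T0)) := by positivity
    calc (δ * e) ^ 2 * (19 + 4 * Real.log (1 + T0)) = e ^ 2 * (δ ^ 2 * (19 + 4 * Real.log (1 + T0))) := by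
          ring
      _ ≤ 1 * 19 := by gcongr
      _ = 19 := one_mul _
  have h15 : (δ * e) ^ 2 * (4 * (T - T0)) ≤ 4 := by
    have h16 : 0 ≤ (T - T0) * e := by positivity
    calc (δ * e) ^ 2 * (4 * (T - T0)) = 4 * (δ ^ 2 * e * ((T - T0) * e)) := by ring
      _ ≤ 4 * (1 * 1 * 1) := by gcongr
      _ = 4 := by norm_num
  nlinarith

/-- energy of the remainder of one species on the window -/
def Nl (X : Dat) (T : ℝ) (a : Bool) : ℝ := ∫ t in (-(T + 1))..(T + 1), (X.φ a t ^ 2 + X.φ' a t ^ 2)

/-- energy of the remainder on the window -/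
def NT (X : Dat) (T : ℝ) : ℝ := Nl X T true + Nl X T false

theorem Nl_nonneg (X : Dat) (hT : 0 ≤ T) (a : Bool) : 0 ≤ Nl X T a :=
  intervalIntegral.integral_nonneg (by linarith) fun t _ => by positivity

/-- the linear term of the window -/
theorem RegT.lin (h : RegT X T0 δ) (hT : T0 ≤ T) (a : Bool) :
    (∫ t in (-(Lw T / 2))..(Lw T / 2), rm X a t * (chi T t * X.φ a t)) ≤
      (∫ t, rm X a t * X.φ a t) + 2 := by
  have hT0 : 0 ≤ T := h.T0.trans hT
  have hLw := Lw_ge hT0
  have hle : -(Lw T / 2) ≤ Lw T / 2 := by linarith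
  have hrc := rm_cont h.toReg a
  have hri := rm_int h.toReg a
  obtain ⟨Mφ, hMφ⟩ := h.φb a
  have hφc := h.φc a
  have hcc := chi_cont T
  have hcb : ∀ t, |chi T t * X.φ a t| ≤ Mφ := fun t => by
    rw [abs_mul]
    calc |chi T t| * |X.φ a t| ≤ 1 * Mφ := by
          gcongr
          · exact chi_abs T t
          · exact hMφ t
      _ = Mφ := one_mul _
  have i1 : Integrable fun t => rm X a t * (chi T t * X.φ a t) := int_mul_bc hri (by fun_prop) hcb
  have i2 : Integrable fun t => rm X a t * X.φ a t := int_mul_bc hri hφc hMφ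
  have e1 : (∫ t in (-(Lw T / 2))..(Lw T / 2), rm X a t * (chi T t * X.φ a t)) =
      ∫ t, rm X a t * (chi T t * X.φ a t) := by
    rw [intervalIntegral.integral_of_le hle]
    refine setIntegral_eq_integral_of_forall_compl_eq_zero fun x hx => ?_
    rw [chi_out, zero_mul, mul_zero]
    by_contra hh
    push Not at hh
    rw [abs_lt] at hh
    exact hx ⟨by linarith, by linarith⟩
  have h2 : |(∫ t, rm X a t * (chi T t * X.φ a t)) - ∫ t, rm X a t * X.φ a t| ≤ 2 := by
    rw [← integral_sub i1 i2, ← Real.norm_eq_abs]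
    have h3 := tail2 (T := T) (f := fun t => rm X a t * X.φ a t) zero_le_one i2 (fun t ht => by
      have h4 := h.tailT hT a t ht
      have h5 := h.δφ a t
      have h6 : Real.exp (-(T - T0)) ≤ 1 := Real.exp_le_one_iff.2 (by linarith)
      rw [abs_mul]
      calc |rm X a t| * |X.φ a t| ≤ (δT T0 δ T * Real.exp (-(|t| - T))) * |X.φ a t| := by gcongr
        _ = Real.exp (-(T - T0)) * (δ * |X.φ a t|) * Real.exp (-(|t| - T)) := by
            unfold δT
            ring
        _ ≤ 1 * 1 * Real.exp (-(|t| - T)) := by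
            have h7 := mul_nonneg h.δ0 (abs_nonneg (X.φ a t))
            gcongr
        _ = _ := by ring)
    have hms : MeasurableSet {x : ℝ | T ≤ |x|} := measurableSet_le measurable_const (by fun_prop)
    refine (norm_integral_le_of_norm_le (g := {x : ℝ | T ≤ |x|}.indicator
      fun t => |rm X a t * X.φ a t|) ?_ (ae_of_all _ fun t => ?_)).trans ?_
    · exact i2.abs.indicator hms
    · rw [Real.norm_eq_abs]
      by_cases ht : T ≤ |t|
      · rw [indicator_of_mem (show t ∈ {x : ℝ | T ≤ |x|} from ht)]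
        have c1 : |chi T t - 1| ≤ 1 := by
          have a1 := chi_abs T t
          have a2 : 0 ≤ chi T t := by
            unfold chi
            exact mul_nonneg (cutS_nonneg _) (cutS_nonneg _)
          have a3 := abs_le.1 a1
          exact abs_le.2 ⟨by linarith, by linarith⟩
        calc |rm X a t * (chi T t * X.φ a t) - rm X a t * X.φ a t| =
            |chi T t - 1| * |rm X a t * X.φ a t| := by
              rw [← abs_mul]
              congr 1
              ring
          _ ≤ 1 * |rm X a t * X.φ a t| := by gcongr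
          _ = _ := one_mul _
      · rw [indicator_of_notMem (show t ∉ {x : ℝ | T ≤ |x|} from ht), chi_in (le_of_not_ge ht)]
        simp
    · rw [integral_indicator hms]
      linarith
  have h9 := (abs_le.1 h2).2
  rw [e1]
  linarith

end

end NUH0
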