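import Pool.Agent.NUH0.H0
import Pool.Agent.NUDi.CutN
import Pool.Agent.NU42.Line

/-!
# The kernel fields of `Hyp0` for two curves

`kern`: cut error and class of the kernels; `kern_num`: the constants for large `m`.
-/

set_option autoImplicit false

open MeasureTheory Set Filter Topology
open scoped Real ENNReal

namespace NUH0

open NUMF NUWC NUKer NUDi

noncomputable section

theorem κ_kd {X : Dat} {η η1 : Bool → ℝ → ℝ} (hD : ∀ a, X.D a = iD (η a))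
    (hD1 : ∀ a, X.D1 a = iD (η1 a)) (a d : Bool) :
    X.κ a d = NU42.kd (iD (η true)) (iD (η1 true)) (iD (η false)) (iD (η1 false)) a d := by
  cases a <;> cases d <;> simp [Dat.κ, NU42.kd, hD, hD1]

/-- **the kernels** of two small curves -/
theorem kern : ∃ K : ℝ, 1 ≤ K ∧ ∀ {X : Dat} {lam b : ℝ} {η η1 : Bool → ℝ → ℝ},
    (∀ a, X.D a = iD (η a)) → (∀ a, X.D1 a = iD (η1 a)) → (∀ a, NU42.Crv lam b (η a) (η1 a)) →
    (K * lam ≤ 1 → ∀ (Rb : ℝ) (bb : ℝ → ℝ), b ≤ Rb → (∀ t, |t| ≤ Rb → bb t = 1) → (∀ t, 0 ≤ bb t) →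
      (∀ t, bb t ≤ 1) → ∀ a d t t', |X.κ a d t t' - bb t * bb t' * X.κ a d t t'| ≤
        K * lam * Real.exp (-2 * (Rb - b))) ∧
    (∀ R, 1 ≤ R → (∀ a, NUKer.Disp R lam (iD (η a)) (iD (η1 a))) → K * R ^ 7 * lam ≤ 1 →
      ∀ a d, KC R (K * R ^ 7 * lam) (fun t t' => ((X.κ a d t t' : ℝ) : ℂ))) := by
  obtain ⟨K1, hK1, H1⟩ := NU42.exists_line
  obtain ⟨K2, hK2, H2⟩ := exists_kw
  obtain ⟨K3, hK3, H3⟩ := exists_kg
  refine ⟨K1 + K2 + K3, by linarith, ?_⟩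
  intro X lam b η η1 hD hD1 hC
  have hl : 0 ≤ lam := (hC true).lam0
  have e := κ_kd hD hD1
  constructor
  · intro hK Rb bb hb h1 h2 h3 a d t t'
    have hK' : K1 * lam ≤ 1 := le_trans (by nlinarith) hK
    obtain ⟨-, -, -, -, -, h⟩ := H1 lam b _ _ _ _ (hC true) (hC false) hK'
    rw [e]
    refine (h Rb bb hb h1 h2 h3 a d t t').trans ?_
    have := (Real.exp_pos (-2 * (Rb - b))).le
    gcongr
    linarith
  · intro R hR hd hK a d
    have hR7 : 0 ≤ R ^ 7 * lam := by positivity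
    have hR6 : R ^ 6 * lam ≤ R ^ 7 * lam := by
      have : R ^ 6 ≤ R ^ 7 := pow_le_pow_right₀ hR (by norm_num)
      gcongr
    have k2 : K2 * R ^ 7 * lam ≤ (K1 + K2 + K3) * R ^ 7 * lam := by
      have : 0 ≤ R ^ 7 := by positivity
      gcongr
      linarith
    have k3 : K3 * R ^ 6 * lam ≤ (K1 + K2 + K3) * R ^ 7 * lam := by
      calc K3 * R ^ 6 * lam = K3 * (R ^ 6 * lam) := by ring
        _ ≤ (K1 + K2 + K3) * (R ^ 7 * lam) := by gcongr; linarith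
        _ = _ := by ring
    have e1 : ∀ a, X.κ a a = kw (iD (η a)) (iD (η1 a)) := by
      intro a
      rw [kappa_same, hD, hD1]
    rcases eq_or_ne a d with rfl | had
    · rw [e1]
      exact ((H2 R hR lam _ _ (hd a) (k2.trans hK)).2).mono k2
    · rw [kappa_diff had, hD, hD]
      exact ((H3 R hR lam _ _ _ _ (hd a) (hd d) (k3.trans hK)).2).mono k3

/-- a power of the logarithm against a negative power -/
theorem polylog_small (C : ℝ) (j : ℕ) {κ0 y : ℝ} (hκ : 0 < κ0) (hy : 0 < y) :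
    ∃ m0 : ℕ, ∀ m ≥ m0, C * Real.log m ^ j * (m : ℝ) ^ (-κ0) ≤ y := by
  have h1 : Tendsto (fun x : ℝ => C * (Real.log x ^ (j : ℝ) / x ^ κ0)) atTop (𝓝 (C * 0)) :=
    (isLittleO_log_rpow_rpow_atTop (j : ℝ) hκ).tendsto_div_nhds_zero.const_mul C
  rw [mul_zero] at h1
  have h2 := (h1.comp tendsto_natCast_atTop_atTop).eventually_le_const hy
  obtain ⟨m0, hm0⟩ := Filter.eventually_atTop.1 h2
  refine ⟨max m0 1, fun m hm => ?_⟩
  have h3 := hm0 m ((le_max_left _ _).trans hm)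
  have hm1 : (0 : ℝ) ≤ m := Nat.cast_nonneg m
  simp only [Function.comp, Real.rpow_natCast] at h3
  rw [Real.rpow_neg hm1, mul_assoc, ← div_eq_mul_inv]
  exact h3

/-- **the constants for large `m`**: the cut `R = R1 + N`, `c' = 4 K R^7 m^{-κ0}` -/
theorem kern_num {K k κ0 A x : ℝ} (hK : 0 ≤ K) (hκ : 0 < κ0) (hA : 0 ≤ A) (hx : 0 < x)
    {N : ℝ} (hN : 0 ≤ N) : ∃ m0 : ℕ, 3 ≤ m0 ∧ ∀ m ≥ m0, ∀ {R1 b : ℝ}, Real.log m + b ≤ R1 →
      R1 ≤ 2 * Real.log m ^ 2 → 0 ≤ R1 →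
      K * (R1 + N) ^ 7 * (m : ℝ) ^ (-κ0) ≤ 1 ∧
      8 * (4 * K * (R1 + N) ^ 7 * (m : ℝ) ^ (-κ0)) * (22 * (R1 + N)) ≤ 1 ∧
      (∀ w : ℝ, 0 ≤ w → 176 * (4 * K * (R1 + N) ^ 7 * (m : ℝ) ^ (-κ0)) * (R1 + N) *
        (2 * (R1 + N) * (A * w)) ≤ x * w) ∧
      (∀ p n s : ℝ, 0 ≤ p → 0 ≤ n → 0 ≤ s → p ≤ k * m → n ≤ k * m → s ≤ k * m →
        (K * (m : ℝ) ^ (-κ0) * Real.exp (-2 * (R1 - b))) / 2 * (p + n + 2 * s) ^ 2 ≤ 1) := by
  -- `R1 + N ≤ (2 + N) log² m`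
  obtain ⟨m1, h1⟩ := polylog_small (K * (2 + N) ^ 7) 14 hκ (zero_lt_one)
  obtain ⟨m2, h2⟩ := polylog_small (704 * K * (2 + N) ^ 8) 16 hκ (zero_lt_one)
  obtain ⟨m3, h3⟩ := polylog_small (1408 * K * (2 + N) ^ 9 * A) 18 hκ hx
  obtain ⟨m4, h4⟩ := polylog_small (8 * K * k ^ 2) 0 hκ (zero_lt_one)
  refine ⟨max (max m1 m2) (max (max m3 m4) 3), (le_max_right _ _).trans (le_max_right _ _),
    fun m hm R1 b hb hR hR0 => ?_⟩
  have hm1 : m1 ≤ m := ((le_max_left _ _).trans (le_max_left _ _)).trans hm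
  have hm2 : m2 ≤ m := ((le_max_right _ _).trans (le_max_left _ _)).trans hm
  have hm34 : max (max m3 m4) 3 ≤ m := (le_max_right _ _).trans hm
  have hm3 : m3 ≤ m := ((le_max_left _ _).trans (le_max_left _ _)).trans hm34
  have hm4 : m4 ≤ m := ((le_max_right _ _).trans (le_max_left _ _)).trans hm34
  have hm5 : 3 ≤ m := (le_max_right _ _).trans hm34
  have h5 := h1 m hm1
  have h6 := h2 m hm2
  have h7 := h3 m hm3
  have h8 := h4 m hm4
  have hmr : (3 : ℝ) ≤ m := by exact_mod_cast hm5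
  have hm0 : (0 : ℝ) < m := by linarith
  have hL : 1 ≤ Real.log m := by
    rw [Real.le_log_iff_exp_le hm0]
    exact (Real.exp_one_lt_d9.trans (by norm_num)).le.trans hmr
  set L := Real.log m with hLd
  set e := (m : ℝ) ^ (-κ0) with he
  have he0 : 0 ≤ e := Real.rpow_nonneg hm0.le _
  have hL2 : 1 ≤ L ^ 2 := one_le_pow₀ hL
  have hRN : R1 + N ≤ (2 + N) * L ^ 2 := by nlinarith
  have hRN0 : 0 ≤ R1 + N := by linarith
  have hp : ∀ j : ℕ, (R1 + N) ^ j ≤ (2 + N) ^ j * L ^ (2 * j) := by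
    intro j
    rw [pow_mul, ← mul_pow]
    exact pow_le_pow_left₀ hRN0 hRN j
  refine ⟨?_, ?_, ?_, ?_⟩
  · calc K * (R1 + N) ^ 7 * e ≤ K * ((2 + N) ^ 7 * L ^ (2 * 7)) * e := by
          have := hp 7
          gcongr
      _ = K * (2 + N) ^ 7 * L ^ 14 * e := by ring
      _ ≤ 1 := h5
  · calc 8 * (4 * K * (R1 + N) ^ 7 * e) * (22 * (R1 + N)) = 704 * K * (R1 + N) ^ 8 * e := by ring
      _ ≤ 704 * K * ((2 + N) ^ 8 * L ^ (2 * 8)) * e := by
          have := hp 8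
          gcongr
      _ = 704 * K * (2 + N) ^ 8 * L ^ 16 * e := by ring
      _ ≤ 1 := h6
  · intro w hw
    calc 176 * (4 * K * (R1 + N) ^ 7 * e) * (R1 + N) * (2 * (R1 + N) * (A * w)) =
        1408 * K * (R1 + N) ^ 9 * A * e * w := by ring
      _ ≤ 1408 * K * ((2 + N) ^ 9 * L ^ (2 * 9)) * A * e * w := by
          have := hp 9
          gcongr
      _ = (1408 * K * (2 + N) ^ 9 * A * L ^ 18 * e) * w := by ring
      _ ≤ x * w := by gcongr
  · intro p n s hp0 hn0 hs0 hp' hn' hs'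
    have h9 : Real.exp (-2 * (R1 - b)) ≤ ((m : ℝ) ^ 2)⁻¹ := by
      have e1 : ((m : ℝ) ^ 2)⁻¹ = Real.exp (-(2 * L)) := by
        rw [Real.exp_neg, show 2 * L = ((2 : ℕ) : ℝ) * L by push_cast; ring, Real.exp_nat_mul,
          Real.exp_log hm0]
      rw [e1]
      exact Real.exp_le_exp.2 (by linarith)
    have h10 : (p + n + 2 * s) ^ 2 ≤ (4 * (k * m)) ^ 2 := by
      apply pow_le_pow_left₀ (by positivity)
      linarith
    have h11 : 0 ≤ ((m : ℝ) ^ 2)⁻¹ := by positivity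
    calc K * e * Real.exp (-2 * (R1 - b)) / 2 * (p + n + 2 * s) ^ 2 ≤
        K * e * ((m : ℝ) ^ 2)⁻¹ / 2 * (4 * (k * m)) ^ 2 := by gcongr
      _ = 8 * K * k ^ 2 * L ^ 0 * e := by
          field_simp
          ring
      _ ≤ 1 := h8

end

end NUH0
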