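import Pool.Agent.NUH0.ShH0
import Pool.Agent.NUH0.Dich
import Pool.Agent.NU42.SumT

/-!
# The crude bound H0: sum over the shells

`H0`: from the bounds `sh_H0` of the windows `[-T, T]`, `T ≥ T0`: the total integral with the squares of
any grid, the tail outside a window, and the exponential squares `SqW` of all the modes on the
window `[-R1, R1]`.
`Ex_le`: the growth of the exponent from the local energy of the remainder.
-/

set_option autoImplicit false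

open MeasureTheory Set Filter Topology
open scoped Real ENNReal

namespace NUH0

open NUMF NUWC NUKer NUDi NUMFC NUR2

noncomputable section

variable {X : Dat} {Cκ : ℝ} {p n : ℕ}

theorem Geo.D_cont (h : Geo X Cκ) (a : Bool) : Continuous (X.D a) := by
  obtain ⟨b, c, B, h1, h2, h3⟩ := h.path
  have := (h2 a).continuous
  unfold Dat.D
  fun_prop

theorem Geo.D1_cont (h : Geo X Cκ) (a : Bool) : Continuous (X.D1 a) := by
  obtain ⟨b, c, B, h1, h2, h3⟩ := h.path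
  have := (h2 a).cont
  unfold Dat.D1
  fun_prop

/-- measurability of the grid statistics -/
theorem Fst_meas {ch : ℝ → ℝ} {K h : ℝ} (hg : Grid ch K h) (a0 : ℝ) (τ : ℝ → ℝ) (l : ℤ) :
    Measurable fun x : Cfg p n => NU42.Fst ch h a0 τ l x.1 x.2 := by
  have h1 := (NUE.chi_cont hg.cont hg.supp h).measurable
  have h2 : ∀ a : Fin p, Measurable fun x : Cfg p n => x.1 a := fun a => by fun_prop
  have h3 : ∀ a : Fin n, Measurable fun x : Cfg p n => x.2 a := fun a => by fun_prop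
  unfold NU42.Fst
  refine ((Finset.measurable_sum _ fun a _ => ?_).sub (Finset.measurable_sum _ fun b _ => ?_)).sub_const _
  · exact h1.comp ((h2 a).sub_const _)
  · exact h1.comp ((h3 b).sub_const _)

theorem expFst_meas {ch : ℝ → ℝ} {K h : ℝ} (hg : Grid ch K h) (La : Finset ℤ) (a0 : ℝ) (τ : ℝ → ℝ) :
    Measurable fun x : Cfg p n =>
      Real.exp (1 / 2 * ∑ l ∈ La, NU42.Fst ch h a0 τ l x.1 x.2 ^ 2) := by
  refine Real.measurable_exp.comp (Measurable.const_mul ?_ _)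
  exact Finset.measurable_sum _ fun l _ => (Fst_meas hg a0 τ l).pow_const 2

/-- the hypotheses of `sh_H0` -/
structure Hyp0 (X : Dat) (p n : ℕ) (k m T0 R ε c' m2 : ℝ) (bb bb' : ℝ → ℝ) : Prop where
  m1 : 1 ≤ m
  pk : (p : ℝ) ≤ k * m
  nk : (n : ℝ) ≤ k * m
  sk : X.s ≤ k * m
  mT : 3 / 8 * Real.log m ≤ T0
  T0p : 0 < T0
  geo : ∃ Cκ, Geo X Cκ
  fld : Fld X p n
  reg : ∃ δ, RegT X T0 δ
  cut : Cut1 R bb bb'
  ker : ∀ a d t t', |X.κ a d t t' - bb t * bb t' * X.κ a d t t'| ≤ ε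
  kc : ∃ Λ1, 0 ≤ Λ1 ∧ 4 * Λ1 ≤ c' ∧ ∀ a d, KC R Λ1 (fun t t' => ((X.κ a d t t' : ℝ) : ℂ))
  c0 : 0 < c'
  cq : 8 * c' * (22 * R) ≤ 1
  m2 : ∀ a, ∫ t in {t | |t| ≤ R}, |X.μ a t| ≤ m2

/-- the one body factors `aX * cf`, `aY * cf`: the cutoff `cf` has the regular majorant `e^B` -/
structure Shl (X : Dat) (aX aY cf B : ℝ → ℝ) (D q : ℝ) : Prop where
  mX : Measurable aX
  mY : Measurable aY
  mc : Measurable cf
  mB : Measurable B
  X0 : ∀ t, 0 ≤ aX t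
  Y0 : ∀ t, 0 ≤ aY t
  c0 : ∀ t, 0 ≤ cf t
  B0 : ∀ t, 0 ≤ B t
  D0 : 0 ≤ D
  q0 : 0 < q
  cB : ∀ t, cf t ≤ Real.exp (B t)
  cD : ∀ t, cf t ≤ D * Real.exp (-q * |t|)
  leX : ∀ t, aX t * Real.exp (B t) ≤ Real.exp (X.pot true t)
  leY : ∀ t, aY t * Real.exp (B t) ≤ Real.exp (X.pot false t)

/-- factor of the sum over the shells -/
def shF (D q g T0 : ℝ) : ℝ := D * Real.exp (-q * T0) * Real.exp g / (1 - Real.exp (-(q - g)))

theorem shF_nonneg {D q g T0 : ℝ} (hD : 0 ≤ D) (hg : g < q) : 0 ≤ shF D q g T0 := by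
  have h1 : Real.exp (-(q - g)) < 1 := by
    rw [Real.exp_lt_one_iff]
    linarith
  have h2 : 0 < 1 - Real.exp (-(q - g)) := by linarith
  unfold shF
  positivity

/-- the weight -/
def W0 (X : Dat) (p n : ℕ) (aX aY cf : ℝ → ℝ) (x : Cfg p n) : ℝ :=
  NU42.WO (X.D true) (X.D1 true) (X.D false) (X.D1 false) (fun t => aX t * cf t)
    (fun t => aY t * cf t) x.1 x.2

/-- the growth of the exponent -/
theorem Ex_le {ε' C c' R m2 ε T0 T N0 e1 : ℝ} (hC : 0 ≤ C) (hT0 : 0 ≤ T) (he : C * e1 ≤ ε')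
    (hT : T0 ≤ T) (hN : NT X T ≤ N0 + e1 * (T - T0)) :
    Ex X p n ε' C T c' R m2 ε ≤ (MFs X.s p n + X.En + (7 / 3 + ε') * T0 +
      (C * (1 + N0) + 176 * c' * R * m2 ^ 2 + ε / 2 * ((p : ℝ) + n + 2 * X.s) ^ 2)) +
      (7 / 3 + 2 * ε') * (T - T0) := by
  have h1 := Mt_nonneg X hT0 true p
  have h2 := Mt_nonneg X hT0 false n
  have h3 : C * (1 + NT X T) ≤ C * (1 + N0) + ε' * (T - T0) := by
    have h4 : C * (1 + NT X T) ≤ C * (1 + (N0 + e1 * (T - T0))) := by gcongr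
    have h5 : C * e1 * (T - T0) ≤ ε' * (T - T0) :=
      mul_le_mul_of_nonneg_right he (by linarith)
    linarith
  unfold Ex
  linarith

/-- **H0** -/
theorem H0 {ε' : ℝ} (hε' : 0 < ε') (k : ℝ) : ∃ C : ℝ, 0 ≤ C ∧ ∀ {X : Dat} {p n : ℕ}
    {m T0 R ε c' m2 : ℝ} {bb bb' : ℝ → ℝ}, Hyp0 X p n k m T0 R ε c' m2 bb bb' →
    ∀ {aX aY cf B : ℝ → ℝ} {D q : ℝ}, Shl X aX aY cf B D q → ∀ {E0 g : ℝ}, 0 ≤ g → g < q →
    (∀ T, T0 ≤ T → Ex X p n ε' C T c' R m2 ε ≤ E0 + g * (T - T0)) →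
    (∀ {ch : ℝ → ℝ} {K h : ℝ}, Grid ch K h → ∀ (La : Finset ℤ) (a0 : ℝ),
      ∫⁻ x, ENNReal.ofReal (W0 X p n aX aY cf x) * ENNReal.ofReal (Real.exp (1 / 2 *
        ∑ l ∈ La, NU42.Fst ch h a0 X.τ l x.1 x.2 ^ 2)) ≤
      ENNReal.ofReal ((p.factorial : ℝ) * n.factorial * Real.exp E0 * (1 + shF D q g T0))) ∧
    (∀ {ch : ℝ → ℝ} {K h : ℝ}, Grid ch K h → ∀ (La : Finset ℤ) (a0 R1 : ℝ), T0 ≤ R1 →
      ∫⁻ x in (NU42.Bw p n R1)ᶜ, ENNReal.ofReal (W0 X p n aX aY cf x) *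
        ENNReal.ofReal (Real.exp (1 / 2 * ∑ l ∈ La, NU42.Fst ch h a0 X.τ l x.1 x.2 ^ 2)) ≤
      ENNReal.ofReal ((p.factorial : ℝ) * n.factorial * Real.exp E0 *
        (Real.exp (-(q - g) * (R1 - T0)) * shF D q g T0))) ∧
    (∀ R1, T0 ≤ R1 → (∀ t, |t| ≤ R1 → bb t = 1) → ∀ {τ : ℝ}, ∫ t in {t | R1 < |t|}, |X.ρ t| ≤ τ →
      SqW (p := p) (n := n) (fun x => ENNReal.ofReal (W0 X p n aX aY cf x)) R1 X.ρ
        (ENNReal.ofReal ((p.factorial : ℝ) * n.factorial * Real.exp E0 * (1 + shF D q g T0)))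
        (c' / 2) (c' * τ ^ 2)) := by
  obtain ⟨C, hC0, hC⟩ := sh_H0 hε' k
  refine ⟨C, hC0, ?_⟩
  intro X p n m T0 R ε c' m2 bb bb' hH aX aY cf B D q hS E0 g hg0 hg hEx
  obtain ⟨Cκ, hG⟩ := hH.geo
  obtain ⟨δ, hR⟩ := hH.reg
  obtain ⟨Λ1, hΛ0, hΛ1, hKC⟩ := hH.kc
  have mD := fun a => (hG.D_cont a).measurable
  have mD1 := fun a => (hG.D1_cont a).measurable
  have hA : 0 ≤ (p.factorial : ℝ) * n.factorial * Real.exp E0 := by positivity
  have hT0 := hH.T0p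
  have key : ∀ {ch : ℝ → ℝ} {K h : ℝ}, Grid ch K h → ∀ (La : Finset ℤ) (a0 T : ℝ), T0 ≤ T → _ :=
    fun {ch K h} hg La a0 T hT => hC (m := m) (ε := ε) (a0 := a0) hH.m1 hH.pk hH.nk hH.sk hH.mT hT
      (by linarith) hG hH.fld hR hg La hH.cut hH.ker hKC hH.c0 hΛ1 hΛ0 hH.cq hH.m2
      (aX := fun t => aX t * Real.exp (B t)) (aY := fun t => aY t * Real.exp (B t))
      (fun t => mul_nonneg (hS.X0 t) (Real.exp_pos _).le)
      (fun t => mul_nonneg (hS.Y0 t) (Real.exp_pos _).le) (fun t _ => hS.leX t) (fun t _ => hS.leY t)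
  have hexp : ∀ T, T0 ≤ T → (p.factorial : ℝ) * n.factorial *
      Real.exp (Ex X p n ε' C T c' R m2 ε) ≤
      (p.factorial : ℝ) * n.factorial * Real.exp E0 * Real.exp (g * (T - T0)) := by
    intro T hT
    rw [mul_assoc _ (Real.exp E0), ← Real.exp_add]
    exact mul_le_mul_of_nonneg_left (Real.exp_le_exp.2 (hEx T hT)) (by positivity)
  have hE0 : ∀ {ch : ℝ → ℝ} {h : ℝ} (La : Finset ℤ) (a0 : ℝ), ∀ x : Cfg p n,
      0 ≤ Real.exp (1 / 2 * ∑ l ∈ La, NU42.Fst ch h a0 X.τ l x.1 x.2 ^ 2) :=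
    fun La a0 x => (Real.exp_pos _).le
  have hsplit : ∀ {ch : ℝ → ℝ} {h : ℝ} (La : Finset ℤ) (a0 : ℝ) (x : Cfg p n),
      ENNReal.ofReal (W0 X p n aX aY cf x) * ENNReal.ofReal (Real.exp (1 / 2 *
        ∑ l ∈ La, NU42.Fst ch h a0 X.τ l x.1 x.2 ^ 2)) =
      ENNReal.ofReal (NU42.WO (X.D true) (X.D1 true) (X.D false) (X.D1 false)
        (fun t => aX t * cf t) (fun t => aY t * cf t) x.1 x.2 * Real.exp (1 / 2 *
        ∑ l ∈ La, NU42.Fst ch h a0 X.τ l x.1 x.2 ^ 2)) := by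
    intro ch h La a0 x
    rw [ENNReal.ofReal_mul' (Real.exp_pos _).le]
    rfl
  refine ⟨?_, ?_, ?_⟩
  · intro ch K h hgr La a0
    have h1 := NU42.WO_full (p := p) (n := n) (mD true) (mD1 true) (mD false) (mD1 false) hS.mX hS.mY
      hS.X0 hS.Y0 (expFst_meas hgr La a0 X.τ) (hE0 La a0) hS.mB (T0 := T0) hS.D0 hA hS.q0 hg hS.B0
      hS.c0 hS.cB hS.cD (fun T hT => ((key hgr La a0 T hT).1).trans (ENNReal.ofReal_le_ofReal
        (hexp T hT)))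
    simp only [hsplit]
    exact h1
  · intro ch K h hgr La a0 R1 hR1
    have h1 := NU42.WO_tail (p := p) (n := n) (mD true) (mD1 true) (mD false) (mD1 false) hS.mX hS.mY
      hS.X0 hS.Y0 (expFst_meas hgr La a0 X.τ) (hE0 La a0) hS.mB (T0 := T0) hS.D0 hA hS.q0 hg hS.B0
      hS.c0 hS.cB hS.cD hR1 (fun T hT => ((key hgr La a0 T hT).1).trans (ENNReal.ofReal_le_ofReal
        (hexp T hT)))
    simp only [hsplit]
    refine h1.trans (ENNReal.ofReal_le_ofReal (le_of_eq ?_))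
    unfold shF
    ring
  · intro R1 hR1 hb1 τ hτ
    have h1 := sqW_shells (p := p) (n := n) (mD true) (mD1 true) (mD false) (mD1 false) hS.mX hS.mY
      hS.X0 hS.Y0 hS.mB hS.D0 hA hS.q0 hg hg0 hS.B0 hS.c0 hS.cB hS.cD hR1 (hT0.le.trans hR1)
      hH.cut.cutf.cont hb1 hH.cut.cutf.le (ρ_int X) hτ (K := 0) hH.c0.le (fun T hT _ => by
        have h2 := (key grid0 ∅ 0 T hT).2
        rw [Wt0_empty] at h2
        refine h2.mono ?_
        rw [Real.exp_zero, mul_one]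
        exact hexp T hT)
    rw [zero_add] at h1
    exact h1

end

end NUH0
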