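import Pool.Agent.NUH0.RegT
import Pool.Agent.NUO.EnW

/-!
# Numbers of the crude bound for a configuration

`q = r + log m`, `Y ≥ (|h_i| - T')_+`, `T0 = T' + (1 + ε₂) Y + 2 log q`, `δ = q^{-2} e^{-ε₂ Y}`.
* `rm_tail`: the tail condition of `RegT`;
* `delta_log`: `δ² (1 + log (1 + T0)) ≤ 1`;
* `T0_cost`: `(7/3 + ε') T0 ≤ (7/3 + ε') T' + (5/2) Y + 6 log q`;
* `m2_le`: mass of the objects near the origin.
-/

set_option autoImplicit false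

open MeasureTheory Set Filter Topology
open scoped Real ENNReal

namespace NUH0

open NUMF NUWC NUO NUEnW NUDispW

noncomputable section

/-- half length of the first window -/
def T0c (T' Y q ε₂ : ℝ) : ℝ := T' + (1 + ε₂) * Y + 2 * Real.log q

/-- size of the tails -/
def δc (Y q ε₂ : ℝ) : ℝ := q⁻¹ ^ 2 * Real.exp (-(ε₂ * Y))

variable {T' Y q ε₂ : ℝ}

theorem δc_pos (hq : 0 < q) : 0 < δc Y q ε₂ := by unfold δc; positivity

theorem T0c_ge (hY : 0 ≤ Y) (hq : 1 ≤ q) (hε : 0 ≤ ε₂) : T' + Y ≤ T0c T' Y q ε₂ := by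
  have h1 := Real.log_nonneg hq
  have h2 := mul_nonneg hε hY
  unfold T0c
  nlinarith

/-- `δ² (1 + log (1 + T0)) ≤ 1` -/
theorem delta_log (hY : 0 ≤ Y) (hq : 2 ≤ q) (hε : 0 < ε₂) (hε1 : ε₂ ≤ 1) (hT0 : 0 ≤ T') (hT : T' ≤ q)
    (hqε : 2 ≤ ε₂ * q) : δc Y q ε₂ ^ 2 * (1 + Real.log (1 + T0c T' Y q ε₂)) ≤ 1 := by
  have hq0 : 0 < q := by linarith
  have hT0' : 0 ≤ T0c T' Y q ε₂ := by
    have := T0c_ge (T' := T') hY (by linarith : 1 ≤ q) hε.le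
    linarith
  have h1 : Real.log (1 + T0c T' Y q ε₂) ≤ T0c T' Y q ε₂ := by
    have := Real.log_le_sub_one_of_pos (show 0 < 1 + T0c T' Y q ε₂ by linarith)
    linarith
  have h2 : T0c T' Y q ε₂ ≤ 3 * q + 2 * Y := by
    have := Real.log_le_sub_one_of_pos hq0
    unfold T0c
    nlinarith
  have h3 : δc Y q ε₂ ^ 2 = q⁻¹ ^ 4 * Real.exp (-(2 * ε₂ * Y)) := by
    unfold δc
    rw [mul_pow, ← pow_mul, ← Real.exp_nat_mul]
    congr 2
    push_cast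
    ring
  have h4 : Real.exp (-(2 * ε₂ * Y)) ≤ 1 := Real.exp_le_one_iff.2 (by
    have := mul_nonneg hε.le hY
    linarith)
  have h5 : 2 * Y * Real.exp (-(2 * ε₂ * Y)) ≤ 1 / ε₂ := by
    have h6 := Real.add_one_le_exp (2 * ε₂ * Y)
    rw [Real.exp_neg, ← div_eq_mul_inv, div_le_div_iff₀ (Real.exp_pos _) hε]
    nlinarith
  have hi : q⁻¹ ≤ 1 / 2 := by
    rw [inv_le_comm₀ hq0 (by norm_num)]
    linarith
  have hi0 : 0 < q⁻¹ := inv_pos.2 hq0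
  have hqi : q⁻¹ * q = 1 := inv_mul_cancel₀ hq0.ne'
  have h7 : q⁻¹ ^ 4 * (1 + 3 * q) ≤ 7 / 16 := by
    have e : q⁻¹ ^ 4 * (1 + 3 * q) = q⁻¹ ^ 4 + 3 * q⁻¹ ^ 3 := by
      have : q⁻¹ ^ 4 * q = q⁻¹ ^ 3 := by rw [pow_succ, mul_assoc, hqi, mul_one]
      linear_combination 3 * this
    rw [e]
    have a1 : q⁻¹ ^ 4 ≤ (1 / 2) ^ 4 := pow_le_pow_left₀ hi0.le hi 4
    have a2 : q⁻¹ ^ 3 ≤ (1 / 2) ^ 3 := pow_le_pow_left₀ hi0.le hi 3
    norm_num at a1 a2 ⊢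
    linarith
  have h8 : q⁻¹ ^ 4 * (1 / ε₂) ≤ 1 / 2 * (1 / 8) := by
    have a2 : q⁻¹ ^ 3 ≤ (1 / 2) ^ 3 := pow_le_pow_left₀ hi0.le hi 3
    have a3 : q⁻¹ * (1 / ε₂) ≤ 1 / 2 := by
      have e : q⁻¹ * (1 / ε₂) = 1 / (ε₂ * q) := by field_simp
      rw [e, div_le_div_iff₀ (by positivity) (by norm_num)]
      linarith
    calc q⁻¹ ^ 4 * (1 / ε₂) = (q⁻¹ * (1 / ε₂)) * q⁻¹ ^ 3 := by ring
      _ ≤ 1 / 2 * (1 / 2) ^ 3 := by gcongr
      _ = _ := by norm_num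
  rw [h3]
  have h9 : 0 ≤ q⁻¹ ^ 4 * Real.exp (-(2 * ε₂ * Y)) := by positivity
  calc q⁻¹ ^ 4 * Real.exp (-(2 * ε₂ * Y)) * (1 + Real.log (1 + T0c T' Y q ε₂)) ≤
      q⁻¹ ^ 4 * Real.exp (-(2 * ε₂ * Y)) * (1 + (3 * q + 2 * Y)) := by gcongr; linarith
    _ = (q⁻¹ ^ 4 * (1 + 3 * q)) * Real.exp (-(2 * ε₂ * Y)) +
        q⁻¹ ^ 4 * (2 * Y * Real.exp (-(2 * ε₂ * Y))) := by ring
    _ ≤ (q⁻¹ ^ 4 * (1 + 3 * q)) * 1 + q⁻¹ ^ 4 * (1 / ε₂) := by gcongr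
    _ ≤ 1 := by linarith

/-- the exponent of the first window -/
theorem T0_cost {ε' : ℝ} (hY : 0 ≤ Y) (hq : 1 ≤ q) (hε : 0 ≤ ε₂) (hε1 : ε₂ ≤ 1 / 100)
    (hε'1 : ε' ≤ 1 / 100) :
    (7 / 3 + ε') * T0c T' Y q ε₂ ≤ (7 / 3 + ε') * T' + 5 / 2 * Y + 6 * Real.log q := by
  have h1 := Real.log_nonneg hq
  unfold T0c
  have h2 : (7 / 3 + ε') * (1 + ε₂) ≤ 5 / 2 := by nlinarith
  have h3 : (7 / 3 + ε') * (1 + ε₂) * Y ≤ 5 / 2 * Y := by gcongr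
  have h4 : (7 / 3 + ε') * (2 * Real.log q) ≤ 6 * Real.log q := by nlinarith
  nlinarith

/-- **tail of the sea and of the objects** -/
theorem rm_tail {r : ℕ} {h : Fin r → ℝ} {M k m s L : ℝ} {μ : ℝ → ℝ} (hM : 0 ≤ M)
    (hμ : ∀ t, |μ t| ≤ M * bmaj Finset.univ h (5 / 2) t) (hm : 1 ≤ m) (hL : L = Real.log m)
    (hs0 : 0 ≤ s) (hs : s ≤ k * m) (hT : 3 / 8 * L ≤ T') (hh : ∀ i, |h i| ≤ T' + Y) (hY : 0 ≤ Y)
    (hε : 0 ≤ ε₂) (hq1 : 1 ≤ q) (hqr : (r : ℝ) ≤ q) (hqk : 4 * k ≤ q) (hqM : 2 * M ≤ q) {t : ℝ}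
    (ht : T0c T' Y q ε₂ ≤ |t|) :
    |s * P t + μ t| ≤ δc Y q ε₂ * Real.exp (-(|t| - T0c T' Y q ε₂)) := by
  have hq0 : 0 < q := by linarith
  have hlq := Real.log_nonneg hq1
  have hm0 : 0 < m := by linarith
  set T0 := T0c T' Y q ε₂ with hT0
  have hi0 : 0 < q⁻¹ := inv_pos.2 hq0
  have hi1 : q⁻¹ ≤ 1 := inv_le_one_of_one_le₀ hq1
  have hqi : q⁻¹ * q = 1 := inv_mul_cancel₀ hq0.ne'
  have hexp : ∀ n : ℕ, Real.exp (-(n * Real.log q)) = q⁻¹ ^ n := by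
    intro n
    rw [← mul_neg, Real.exp_nat_mul, Real.exp_neg, Real.exp_log hq0]
  have hk : 0 ≤ k := by
    by_contra hc
    push Not at hc
    nlinarith
  -- the sea
  have h1 : |s * P t| ≤ 1 / 2 * (δc Y q ε₂ * Real.exp (-(|t| - T0))) := by
    have h2 := sP_tail (s := s) ht
    rw [abs_of_nonneg hs0] at h2
    refine h2.trans ?_
    have h3 : Real.exp (-(8 / 3) * T0) ≤ m⁻¹ * (q⁻¹ ^ 3 * Real.exp (-(ε₂ * Y))) := by
      have e : m⁻¹ * (q⁻¹ ^ 3 * Real.exp (-(ε₂ * Y))) =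
          Real.exp (-L + (-(((3 : ℕ) : ℝ) * Real.log q) + -(ε₂ * Y))) := by
        have e0 : Real.exp (-L) = m⁻¹ := by rw [hL, Real.exp_neg, Real.exp_log hm0]
        rw [Real.exp_add, Real.exp_add, hexp 3, e0]
      rw [e]
      apply Real.exp_le_exp.2
      have h4 := mul_nonneg hε hY
      rw [hT0]
      unfold T0c
      push_cast
      nlinarith
    have h5 : 2 * s * (m⁻¹ * (q⁻¹ ^ 3 * Real.exp (-(ε₂ * Y)))) ≤ 1 / 2 * δc Y q ε₂ := by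
      have h6 : s * m⁻¹ ≤ k := by
        rw [← div_eq_mul_inv, div_le_iff₀ hm0]
        exact hs
      unfold δc
      have h7 : k * q⁻¹ ≤ 1 / 4 := by
        rw [← div_eq_mul_inv, div_le_iff₀ hq0]
        linarith
      have he := (Real.exp_pos (-(ε₂ * Y))).le
      calc 2 * s * (m⁻¹ * (q⁻¹ ^ 3 * Real.exp (-(ε₂ * Y)))) =
          2 * (s * m⁻¹) * q⁻¹ * (q⁻¹ ^ 2 * Real.exp (-(ε₂ * Y))) := by ring
        _ ≤ 2 * k * q⁻¹ * (q⁻¹ ^ 2 * Real.exp (-(ε₂ * Y))) := by gcongr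
        _ = 2 * (k * q⁻¹) * (q⁻¹ ^ 2 * Real.exp (-(ε₂ * Y))) := by ring
        _ ≤ 2 * (1 / 4) * (q⁻¹ ^ 2 * Real.exp (-(ε₂ * Y))) := by gcongr
        _ = _ := by ring
    calc 2 * s * Real.exp (-(8 / 3) * T0) * Real.exp (-(|t| - T0)) ≤
        2 * s * (m⁻¹ * (q⁻¹ ^ 3 * Real.exp (-(ε₂ * Y)))) * Real.exp (-(|t| - T0)) := by gcongr
      _ ≤ (1 / 2 * δc Y q ε₂) * Real.exp (-(|t| - T0)) := by gcongr
      _ = _ := by ring
  -- the objects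
  have h2 : |μ t| ≤ 1 / 2 * (δc Y q ε₂ * Real.exp (-(|t| - T0))) := by
    refine (hμ t).trans ?_
    have h3 : bmaj Finset.univ h (5 / 2) t ≤ q * (q⁻¹ ^ 5 * Real.exp (-(ε₂ * Y)) *
        Real.exp (-(|t| - T0))) := by
      unfold bmaj
      calc ∑ i, Real.exp (-(5 / 2 * |t - h i|)) ≤ ∑ _i : Fin r, (q⁻¹ ^ 5 * Real.exp (-(ε₂ * Y)) *
          Real.exp (-(|t| - T0))) := by
            refine Finset.sum_le_sum fun i _ => ?_
            rw [← hexp 5, ← Real.exp_add, ← Real.exp_add]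
            apply Real.exp_le_exp.2
            have h4 := abs_sub_abs_le_abs_sub t (h i)
            have h5 := hh i
            have h6 := mul_nonneg hε hY
            have h7 : |t| - T0 + ε₂ * Y + 2 * Real.log q ≤ |t - h i| := by
              rw [hT0]
              unfold T0c
              linarith
            have h8 : 0 ≤ |t| - T0 := by linarith
            push_cast
            linarith
        _ = r * (q⁻¹ ^ 5 * Real.exp (-(ε₂ * Y)) * Real.exp (-(|t| - T0))) := by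
            rw [Finset.sum_const, Finset.card_univ, Fintype.card_fin, nsmul_eq_mul]
        _ ≤ _ := by gcongr
    have h4 : M * q⁻¹ ≤ 1 / 2 := by
      rw [← div_eq_mul_inv, div_le_iff₀ hq0]
      linarith
    unfold δc
    have he := (Real.exp_pos (-(ε₂ * Y))).le
    have h5 : q * q⁻¹ ^ 5 = q⁻¹ * q⁻¹ ^ 3 := by
      calc q * q⁻¹ ^ 5 = (q⁻¹ * q) * q⁻¹ ^ 4 := by ring
        _ = q⁻¹ * q⁻¹ ^ 3 := by rw [hqi]; ring
    have h6 : q⁻¹ ^ 3 ≤ q⁻¹ ^ 2 := pow_le_pow_of_le_one hi0.le hi1 (by norm_num)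
    calc M * bmaj Finset.univ h (5 / 2) t ≤ M * (q * (q⁻¹ ^ 5 * Real.exp (-(ε₂ * Y)) *
        Real.exp (-(|t| - T0)))) := by gcongr
      _ = (M * (q * q⁻¹ ^ 5)) * (Real.exp (-(ε₂ * Y)) * Real.exp (-(|t| - T0))) := by ring
      _ = ((M * q⁻¹) * q⁻¹ ^ 3) * (Real.exp (-(ε₂ * Y)) * Real.exp (-(|t| - T0))) := by rw [h5]; ring
      _ ≤ (1 / 2 * q⁻¹ ^ 2) * (Real.exp (-(ε₂ * Y)) * Real.exp (-(|t| - T0))) := by gcongr
      _ = _ := by ring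
  refine (abs_add_le _ _).trans ?_
  linarith

/-- mass of the objects near the origin -/
theorem m2_le {r : ℕ} {h : Fin r → ℝ} {M R : ℝ} {μ : ℝ → ℝ} (hM : 0 ≤ M) (hR : 0 ≤ R)
    (hμm : AEStronglyMeasurable μ) (hμ : ∀ t, |μ t| ≤ M * bmaj Finset.univ h (5 / 2) t) :
    ∫ t in {t | |t| ≤ R}, |μ t| ≤ √(2 * R * (M ^ 2 * Kc (5 / 2) * win Finset.univ h)) := by
  obtain ⟨i1, b1⟩ := sq_int (by norm_num : (0 : ℝ) < 5 / 2) hM hμm hμ
  obtain ⟨i2, -, -⟩ := abs_int (by norm_num : (0 : ℝ) < 5 / 2) hM hμm hμ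
  set S : Set ℝ := {t | |t| ≤ R} with hS
  have hms : MeasurableSet S := measurableSet_le (by fun_prop) measurable_const
  have eS : S = Icc (-R) R := by
    ext t
    show |t| ≤ R ↔ _
    exact abs_le
  set I := ∫ t in S, |μ t| with hI
  set J := ∫ t in S, μ t ^ 2 with hJ
  have hJ1 : J ≤ M ^ 2 * Kc (5 / 2) * win Finset.univ h :=
    (setIntegral_le_integral i1 (ae_of_all _ fun t => sq_nonneg _)).trans b1
  have hI0 : 0 ≤ I := integral_nonneg fun t => abs_nonneg _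
  have hJ0 : 0 ≤ J := integral_nonneg fun t => sq_nonneg _
  have hvol : ∫ _t in S, (1 : ℝ) = 2 * R := by
    rw [eS, setIntegral_const, Real.volume_real_Icc_of_le (by linarith), smul_eq_mul]
    ring
  have key : ∀ x : ℝ, 2 * x * I ≤ 2 * R * x ^ 2 + J := by
    intro x
    have e1 : 2 * R * x ^ 2 + J = ∫ t in S, (x ^ 2 * 1 + μ t ^ 2) := by
      rw [integral_add _ i1.integrableOn, integral_const_mul, hvol]
      · ring
      · rw [eS]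
        exact (integrableOn_const (by simp) (by simp))
    rw [e1, hI, ← integral_const_mul]
    refine integral_mono (i2.abs.integrableOn.const_mul _) ?_ fun t => ?_
    · refine Integrable.add ?_ i1.integrableOn
      rw [eS]
      exact (integrableOn_const (by simp) (by simp))
    · simp only
      rw [← sq_abs (μ t)]
      nlinarith [sq_nonneg (x - |μ t|)]
  refine Real.le_sqrt_of_sq_le ?_
  refine le_trans ?_ (mul_le_mul_of_nonneg_left hJ1 (by linarith))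
  rcases hR.eq_or_lt with h0 | h0
  · have h1 : I = 0 := by
      rw [hI, eS, ← h0]
      simp
    rw [h1, ← h0]
    simp
  · have h1 := key (I / (2 * R))
    have e2 : 2 * (I / (2 * R)) * I = 2 * (I ^ 2 / (2 * R)) := by ring
    have e3 : 2 * R * (I / (2 * R)) ^ 2 = I ^ 2 / (2 * R) := by field_simp
    rw [e2, e3] at h1
    have h2 : I ^ 2 / (2 * R) ≤ J := by linarith
    rw [div_le_iff₀ (by linarith)] at h2
    linarith

end

end NUH0
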