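import Pool.Agent.NUH0.H0fin
import Pool.Agent.NU42.PhiL
import Pool.Agent.NUBR.Z1
import Pool.Agent.NUCR.VcD
import Pool.Agent.NUO.PotF

/-!
# The one body factors of the positive gas as an instance of `Shl`

* `vc_eq`: the two complex row potentials agree on the strip;
* `exists_cutB`: the cutoff factor on the curve has the regular majorant `e^B` and decays;
* `shF_le`: the factor of the sum over the shells is bounded;
* `shl_cut`: instance of `Shl` for every `Dat` with `E a = sl a + B + c`, `sl ≥ 0`;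
* `W0_eq`: the weight of the gas on the curve, tilt included.
-/

set_option autoImplicit false

open MeasureTheory Set Filter Topology
open scoped Real ENNReal

namespace NUH0

open NUMF NUWC NUKer NUDi NUMFC NUR2

noncomputable section

/-- the two complex row potentials agree on the strip -/
theorem vc_eq {z : ℂ} (hz : |z.im| < l) : NUAct.vc z = NUMF.vc z := by
  obtain ⟨S, hS⟩ : ∃ S : Set ℂ, S = {z : ℂ | |z.im| < l} := ⟨_, rfl⟩
  have hSo : IsOpen S := by
    rw [hS]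
    exact isOpen_lt (by fun_prop) continuous_const
  have hSc : Convex ℝ S := by
    have e : S = Complex.imLm ⁻¹' Ioo (-l) l := by
      rw [hS]
      ext z
      simp only [mem_setOf_eq, mem_preimage, Complex.imLm_coe, mem_Ioo, abs_lt]
    rw [e]
    exact (convex_Ioo _ _).linear_preimage _
  have hd : ∀ w ∈ S, HasDerivAt (fun w => NUAct.vc w - NUMF.vc w) 0 w := by
    intro w hw
    rw [hS] at hw
    have h1 := (NUCR.hasDerivAt_vcA (z := w) hw).sub (NUCR.hasDerivAt_vcN (z := w) hw)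
    rwa [sub_self] at h1
  have h0 : (0 : ℂ) ∈ S := by
    rw [hS]
    simpa using l_pos
  have hz' : z ∈ S := by
    rw [hS]
    exact hz
  have key := hSo.is_const_of_deriv_eq_zero hSc.isPreconnected
    (f := fun w => NUAct.vc w - NUMF.vc w) (fun w hw => (hd w hw).differentiableAt.differentiableWithinAt)
    (fun w hw => (hd w hw).deriv) hz' h0
  have e0 : NUAct.vc 0 - NUMF.vc 0 = 0 := by
    have h1 := NUAct.vc_ofReal 0
    have h2 := NUMF.vc_ofReal 0
    rw [Complex.ofReal_zero] at h1 h2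
    rw [h1, h2, sub_self]
  rw [e0] at key
  exact sub_eq_zero.1 key

/-! ### the cutoff -/

/-- the cutoff on the curve -/
def cfO (m : ℕ) (β : ℝ) (η : ℝ → ℝ) (t : ℝ) : ℝ := ‖NUO.ph m β (NUO.pA η t)‖

theorem ph_eq (m : ℕ) (β : ℝ) (u : ℂ) : NUO.ph m β u = NUP1.phi β (List.replicate m 0) u := by
  unfold NUO.ph NUP1.phi
  rw [List.map_replicate, List.prod_replicate, sub_zero]

theorem pA_re (η : ℝ → ℝ) (t : ℝ) : (NUO.pA η t).re = NUP1.l - η t := by
  unfold NUO.pA NUP1.vl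
  simp

theorem pA_im (η : ℝ → ℝ) (t : ℝ) : (NUO.pA η t).im = t := by
  unfold NUO.pA NUP1.vl
  simp

theorem pA_cont {η : ℝ → ℝ} (hη : Continuous η) : Continuous (NUO.pA η) := by
  unfold NUO.pA NUP1.vl
  fun_prop

theorem cfO_meas (m : ℕ) (β : ℝ) {η : ℝ → ℝ} (hη : Continuous η) : Measurable (cfO m β η) := by
  have h1 := (pA_cont hη).measurable
  have h2 : Measurable (NUO.ph m β) := by
    unfold NUO.ph NUP1.psi
    fun_prop
  exact (h2.comp h1).norm

/-- the admissible half width of the cutoff -/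
def sE (ep : ℝ) : ℝ := 3 / 2 * NUP1.l * (1 + ep / 2)

theorem adm_sE {ep : ℝ} (h0 : 0 < ep) (h1 : ep ≤ 1 / 100) : NUP1.Adm (4 / 3 * (1 - ep)) (sE ep) where
  pos := by nlinarith
  snn := by
    have : 0 < NUP1.l := NUP1.l_pos
    unfold sE
    positivity
  sl := by
    have hpi := Real.pi_pos
    unfold sE NUP1.l
    nlinarith [mul_pos h0 hpi, mul_pos (mul_pos h0 h0) hpi]
  bl := by
    have hpi := Real.pi_pos
    unfold NUP1.l
    nlinarith [mul_pos h0 hpi]

/-- **the cutoff on the curve**: regular majorant and decay -/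
theorem exists_cutB {ep : ℝ} (h0 : 0 < ep) (h1 : ep ≤ 1 / 100) : ∃ C : ℝ, 1 ≤ C ∧ ∀ m : ℕ, 1 ≤ m →
    ∃ B B' : ℝ → ℝ, ContDiff ℝ 4 B ∧ (∀ t, HasDerivAt B (B' t) t) ∧ (∀ t, 0 ≤ B t) ∧ (∀ t, B t ≤ 1) ∧
      (∀ j ≤ 4, ∀ t, |iteratedDeriv j B t| ≤ C) ∧
      (∀ t, Real.log m / (8 / 3 * (1 - ep)) + C ≤ |t| → B t = 0) ∧
      Integrable (fun t => m * NUMF.P t * B t) ∧ (∫ t, m * NUMF.P t * B t) ≤ C ∧
      Integrable (fun t => B t ^ 2 + B' t ^ 2) ∧ (∫ t, B t ^ 2 + B' t ^ 2) ≤ C ∧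
      ∀ η : ℝ → ℝ, (∀ t, -(3 / 4 * NUP1.l * ep) ≤ η t) → (∀ t, η t ≤ NUP1.l) → ∀ t,
        cfO m (4 / 3 * (1 - ep)) η t ≤ Real.exp (B t) ∧
        cfO m (4 / 3 * (1 - ep)) η t ≤ C * m * Real.exp (-(8 / 3 * (1 - ep)) * |t|) := by
  obtain ⟨C, hC1, hC⟩ := NU42.exists_B1' (adm_sE h0 h1) (by nlinarith)
  refine ⟨C, hC1, fun m hm => ?_⟩
  have e1 : (2 : ℝ) * (4 / 3 * (1 - ep)) = 8 / 3 * (1 - ep) := by ring
  obtain ⟨B, B', b1, b2, b3, b4, _, b5, b6, b7, b8, b9, b10, b11⟩ := hC m hm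
  rw [e1] at b6 b11
  refine ⟨B, B', b1, b2, b3, b4, b5, b6, b7, b8, b9, b10, fun η hη hη' t => ?_⟩
  have hl := NUP1.l_pos
  have h2 := b11 (NUO.pA η t) (by
    rw [pA_re]
    unfold sE
    have h3 := hη t
    have h4 := hη' t
    rw [abs_le]
    constructor <;> nlinarith)
  rw [pA_im, ← ph_eq] at h2
  exact h2

/-- **the factor of the sum over the shells** -/
theorem shF_le {ep : ℝ} (h0 : 0 < ep) (h1 : ep ≤ 1 / 100) {C m T0 g : ℝ} (hC : 0 ≤ C) (hm : 1 ≤ m)
    (hT : (1 + 2 * ep) * (3 / 8 * Real.log m) ≤ T0) (hg : g ≤ 8 / 3 * (1 - ep) - 1 / 10) :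
    shF (C * m) (8 / 3 * (1 - ep)) g T0 ≤ 200 * C := by
  have hL : 0 ≤ Real.log m := Real.log_nonneg hm
  have hm0 : 0 < m := by linarith
  obtain ⟨q, hq⟩ : ∃ q : ℝ, q = 8 / 3 * (1 - ep) := ⟨_, rfl⟩
  rw [← hq] at hg ⊢
  have hq1 : q ≤ 8 / 3 := by rw [hq]; linarith
  have a1 : m * Real.exp (-q * T0) ≤ 1 := by
    have e : m * Real.exp (-q * T0) = Real.exp (Real.log m + -q * T0) := by
      rw [Real.exp_add, Real.exp_log hm0]
    rw [e]
    refine Real.exp_le_one_iff.2 ?_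
    have h2 : Real.log m ≤ q * ((1 + 2 * ep) * (3 / 8 * Real.log m)) := by
      rw [hq]
      have h3 : 1 ≤ (1 - ep) * (1 + 2 * ep) := by nlinarith
      nlinarith
    have h4 : q * ((1 + 2 * ep) * (3 / 8 * Real.log m)) ≤ q * T0 := by
      refine mul_le_mul_of_nonneg_left hT ?_
      rw [hq]
      nlinarith
    linarith
  have a2 : Real.exp g ≤ 14 := by
    have h2 : Real.exp g ≤ Real.exp (1 + 1 + 1 / 2 + 1 / 10) := Real.exp_le_exp.2 (by linarith)
    have h3 := Real.exp_one_lt_d9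
    have h4 : Real.exp (1 / 2) ≤ 1.65 := by
      have h5 : Real.exp (1 / 2) ^ 2 = Real.exp 1 := by rw [← Real.exp_nat_mul]; norm_num
      have h6 := Real.exp_pos (1 / 2)
      nlinarith
    have h7 : Real.exp (1 / 10) ≤ 1.106 := by
      have h8 := Real.exp_bound_div_one_sub_of_interval (x := 1 / 10) (by norm_num) (by norm_num)
      have h9 : Real.exp (1 / 10) ≤ 1 / (1 - 1 / 10) := h8
      have h10 : Real.exp (1 / 10) ^ 10 = Real.exp 1 := by rw [← Real.exp_nat_mul]; norm_num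
      by_contra hcon
      push Not at hcon
      have h11 : (1.106 : ℝ) ^ 10 < Real.exp (1 / 10) ^ 10 :=
        pow_lt_pow_left₀ hcon (by norm_num) (by norm_num)
      rw [h10] at h11
      norm_num at h11
      linarith
    have h12 : Real.exp (1 + 1 + 1 / 2 + 1 / 10) = Real.exp 1 * Real.exp 1 * Real.exp (1 / 2) *
        Real.exp (1 / 10) := by
      rw [Real.exp_add, Real.exp_add, Real.exp_add]
    rw [h12] at h2
    have p1 := Real.exp_pos 1
    have p2 := Real.exp_pos (1 / 2)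
    have p3 := Real.exp_pos (1 / 10)
    calc Real.exp g ≤ Real.exp 1 * Real.exp 1 * Real.exp (1 / 2) * Real.exp (1 / 10) := h2
      _ ≤ 2.7182818286 * 2.7182818286 * 1.65 * 1.106 := by gcongr
      _ ≤ 14 := by norm_num
  have a3 : 1 / 14 ≤ 1 - Real.exp (-(q - g)) := by
    have h2 : Real.exp (-(q - g)) ≤ Real.exp (-(1 / 10)) := Real.exp_le_exp.2 (by linarith)
    have h3 := Real.add_one_le_exp (1 / 10 : ℝ)
    have h4 : Real.exp (-(1 / 10)) ≤ 10 / 11 := by
      rw [Real.exp_neg, inv_le_comm₀ (Real.exp_pos _) (by norm_num)]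
      norm_num at h3 ⊢
      linarith
    linarith
  unfold shF
  rw [div_le_iff₀ (by linarith)]
  calc C * m * Real.exp (-q * T0) * Real.exp g = C * (m * Real.exp (-q * T0)) * Real.exp g := by ring
    _ ≤ C * 1 * 14 := by gcongr
    _ ≤ 200 * C * (1 / 14) := by linarith
    _ ≤ 200 * C * (1 - Real.exp (-(q - g))) := by gcongr

/-! ### the instance -/

variable {X : Dat} {Cκ : ℝ} {p n : ℕ}

/-- one body factor without slack and cutoff -/
def aF (X : Dat) (c : ℝ) (a : Bool) (t : ℝ) : ℝ :=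
  Real.exp (X.s * (NUAct.vc (X.ζ a t)).re + (X.F a (X.ζ a t)).re + c)

theorem aF_cont (hG : Geo X Cκ) (c : ℝ) (a : Bool) : Continuous (aF X c a) := by
  obtain ⟨b, c', B, h1, h2, h3⟩ := hG.path
  have h4 := (h3 a).cont (h2 a)
  have h5 := (NUAct.vc_ext h1).cont (h2 a)
  exact Real.continuous_exp.comp (((continuous_const.mul (Complex.continuous_re.comp h5)).add
    (Complex.continuous_re.comp h4)).add continuous_const)

/-- **instance of `Shl`** -/
theorem shl_cut {ep C : ℝ} {m : ℕ} {η B : ℝ → ℝ} (h1 : ep ≤ 1 / 100) (hC : 0 ≤ C) (hη : Continuous η)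
    (hBc : Continuous B) (hB0 : ∀ t, 0 ≤ B t) (hcB : ∀ t, cfO m (4 / 3 * (1 - ep)) η t ≤ Real.exp (B t))
    (hcD : ∀ t, cfO m (4 / 3 * (1 - ep)) η t ≤ C * m * Real.exp (-(8 / 3 * (1 - ep)) * |t|))
    (hG : Geo X Cκ) {c : ℝ} (hE : ∀ a t, B t + c ≤ X.E a t) :
    Shl X (aF X c true) (aF X c false) (cfO m (4 / 3 * (1 - ep)) η) B (C * m) (8 / 3 * (1 - ep)) where
  mX := (aF_cont hG c true).measurable
  mY := (aF_cont hG c false).measurable
  mc := cfO_meas m _ hη
  mB := hBc.measurable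
  X0 t := (Real.exp_pos _).le
  Y0 t := (Real.exp_pos _).le
  c0 t := norm_nonneg _
  B0 := hB0
  D0 := by positivity
  q0 := by linarith
  cB := hcB
  cD := hcD
  leX t := by
    unfold aF Dat.pot
    rw [← Real.exp_add]
    exact Real.exp_le_exp.2 (by linarith [hE true t])
  leY t := by
    unfold aF Dat.pot
    rw [← Real.exp_add]
    exact Real.exp_le_exp.2 (by linarith [hE false t])

/-- the one body factor of the gas on the curve, tilt `e^c` -/
theorem aF_cfO {m : ℕ} {β δ : ℝ} {P : NUO.Par} {η : ℝ → ℝ} (hP : NUO.PG δ P)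
    (hη : ∀ t, |η t| < δ * l) (hηl : ∀ t, |η t| < l) {r : ℕ} (O : Fin r → NUO.Xo) (hs : X.s = m)
    (hζ : ∀ a t, X.ζ a t = t + (η t : ℂ) * Complex.I)
    (hF : ∀ a t, (X.F a (t + (η t : ℂ) * Complex.I)).re =
      (NUO.FO P O a (t + (η t : ℂ) * Complex.I)).re) (c : ℝ) (a : Bool) (t : ℝ) :
    aF X c a t * cfO m β η t = Real.exp c * NUBR.aA m β P η O a t := by
  have him : |((t : ℂ) + (η t : ℂ) * Complex.I).im| < l := by
    simpa using hηl t
  have h1 : ∏ i, NUO.potN P O i a (NUO.pA η t) =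
      Real.exp (NUO.FO P O a (t + (η t : ℂ) * Complex.I)).re := NUO.prod_potN O hP a (hη t)
  unfold aF cfO NUBR.aA
  rw [h1, hζ, vc_eq him, hF, hs, Real.exp_add, Real.exp_add]
  have e : (t : ℂ) + NUO.dA η t = t + (η t : ℂ) * Complex.I := rfl
  rw [e]
  ring

/-- **the weight of the gas on the curve**, tilt `e^c` per quantum -/
theorem W0_eq {m : ℕ} {β δ : ℝ} {P : NUO.Par} {η η' : ℝ → ℝ} (hP : NUO.PG δ P)
    (hη : ∀ t, |η t| < δ * l) (hηl : ∀ t, |η t| < l) {r : ℕ} (O : Fin r → NUO.Xo) (hs : X.s = m)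
    (hζ : ∀ a t, X.ζ a t = t + (η t : ℂ) * Complex.I)
    (hζ' : ∀ a t, X.ζ' a t = 1 + (η' t : ℂ) * Complex.I)
    (hF : ∀ a t, (X.F a (t + (η t : ℂ) * Complex.I)).re =
      (NUO.FO P O a (t + (η t : ℂ) * Complex.I)).re) (c : ℝ) (x : Cfg p n) :
    W0 X p n (aF X c true) (aF X c false) (cfO m β η) x = Real.exp c ^ (p + n) *
      NU42.WO (NUO.dA η) (NUO.dA η') (NUO.dA η) (NUO.dA η') (NUBR.aA m β P η O true)
        (NUBR.aA m β P η O false) x.1 x.2 := by
  have hD : ∀ a, X.D a = NUO.dA η := fun a => by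
    funext t
    unfold Dat.D NUO.dA
    rw [hζ]
    ring
  have hD1 : ∀ a, X.D1 a = NUO.dA η' := fun a => by
    funext t
    unfold Dat.D1 NUO.dA
    rw [hζ']
    ring
  have ha : ∀ a, (fun t => aF X c a t * cfO m β η t) =
      fun t => Real.exp c * NUBR.aA m β P η O a t := fun a =>
    funext fun t => aF_cfO hP hη hηl O hs hζ hF c a t
  unfold W0
  rw [← NUBR.WO_smul]
  simp only [hD, hD1]
  rw [ha true, ha false]

end

end NUH0
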