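import Pool.Agent.NUH0.DatO
import Pool.Agent.NUH0.DatE

/-!
# The exponent `En` of `datO`
-/

set_option autoImplicit false

open MeasureTheory Set Filter Topology Complex

namespace NUH0

noncomputable section

open NUO (Kind Xo kd ht Par PG FO mfo wK cons slkK)
open NUMF (P)
open NUC43 (slk tauC muC sgX sgY sgT Adm)
open Pool.Agent.NUM3 (ER)

/-- **The exponent of `datO`** without extra analytic potentials and densities. -/
theorem En_datO {δ : ℝ} (hδ : 0 < δ) (hδ1 : δ ≤ 1 / 2) : ∃ C : ℝ, 1 ≤ C ∧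
    ∀ (I : Inp) (ε M b K : ℝ) (e : ℝ → ℝ) (Q : Par) (r : ℕ) (O : Fin r → Xo),
      (∀ a z, I.A a z = 0) → (∀ a t, I.ν a t = 0) →
      PG δ Q → Adm Q.jL Q.e → 0 ≤ I.s → NUAct.Cur I.s ε M b e I.η → (∀ t, HasDerivAt I.η (I.η1 t) t) →
      0 ≤ b → C * (b + 1) ^ 7 * ε ≤ 1 → 0 ≤ K →
      (∀ t t', |I.s * P t * I.η t - I.s * P t' * I.η t'| ≤ K * |t - t'|) →
      (∀ a, Integrable fun t => P t * I.B a t) →
      |(datO I Q O).En - ((∑ i, (I.s * mfo (cons Q O i) +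
          I.s * slkK (fun t => ∫ u, P u * slk (u - t)) (kd (O i)) (ht (O i)) -
          2 * Real.pi * (wK (kd (O i)) * (I.s * P (ht (O i)) * I.η (ht (O i)))))) +
        1 / 2 * (∑ i, ∑ k, ER (sgX Q.jL Q.e) (sgY Q.jL Q.e) (sgT Q.jL Q.e) (NUO.sp (O i) == NUO.sp (O k))
          (kd (O i)) (kd (O k)) (ht (O i)) (ht (O k))) +
        (∑ a, ∫ t, I.s * P t * I.B a t) + (∑ a, ∫ t, muC Q.jL Q.e O a t * phiO I Q O a t) +
        NUCR.bil (NUAct.hd I.s I.η I.η1) (NUAct.hd I.s I.η I.η1))| ≤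
        C * r * (M * ε + K) + C * (b + 1) ^ 9 * M ^ 2 * ε := by
  obtain ⟨C, hC, H⟩ := En_cfg hδ hδ1
  refine ⟨C, hC, ?_⟩
  intro I ε M b K e Q r O hA hν hQ hAd hs hcur h1 hb hsm hK hKL hB
  have h2 := H I.s ε M b K e I.η I.η1 Q r O I.B (datO I Q O) hQ hAd hs hcur h1 hb hsm hK hKL rfl
    (fun _ => rfl) (fun _ => rfl) (fun a => ?_) rfl (fun a => ?_) (fun _ _ => rfl) hB
  · have e1 : ∀ a, (∫ t, (datO I Q O).μ a t * (datO I Q O).φ a t) =
        ∫ t, muC Q.jL Q.e O a t * phiO I Q O a t := by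
      intro a
      congr 1
      funext t
      show (muC Q.jL Q.e O a t + I.ν a t) * phiO I Q O a t = _
      rw [hν, add_zero]
    simp_rw [e1] at h2
    exact h2
  · funext z
    show FO Q O a z + I.A a z = _
    rw [hA, add_zero]
  · funext t
    show muC Q.jL Q.e O a t + I.ν a t = _
    rw [hν, add_zero]

end

end NUH0
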