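import Pool.Agent.NUWC.WCS
import Pool.Agent.NUC37.Cut
import Pool.Agent.NUC62.Quad
import Pool.Agent.NUMFC.Mass

/-!
# One species with a smooth extra potential

`Qt G L f`: circle energy of `f` including the zero mode; `Qt_add`: bilinear form;
`one`: the window bound with the potential `s v + V * μ + E`, `E` of class `C1P`.
-/

set_option autoImplicit false

open MeasureTheory Set Filter Topology
open Pool.Agent.Szego62 (Aser abs_term_c)
open scoped Real ENNReal

namespace NUH0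

open NUMF NUWC NUC37

noncomputable section

/-- circle energy including the zero mode -/
def Qt (G L : ℝ) (f : ℝ → ℝ) : ℝ :=
  L * (fc L f 0).re ^ 2 / 2 + QF G L fun p => fc L f (p + 1)

/-- the coefficients including the zero mode -/
def cf (L : ℝ) (f : ℝ → ℝ) : ℕ → ℂ
  | 0 => ((fc L f 0).re : ℂ)
  | p + 1 => fc L f (p + 1)

/-- the symbol including the zero mode -/
def su (G L : ℝ) : ℕ → ℝ
  | 0 => 2
  | p + 1 => NUC62.uh G (NUC62.kp L p)

variable {G L : ℝ}

theorem su_pos (hG : 9 ≤ G) (hL : 0 < L) : ∀ p, 0 < su G L p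
  | 0 => by norm_num [su]
  | p + 1 => NUC62.uh_pos hG (NUC62.kp_pos hL p)

theorem cf_summable {f f' : ℝ → ℝ} (hG : 9 ≤ G) (hL : 0 < L) (h : C1P L f f') :
    Summable fun p => L * ‖cf L f p‖ ^ 2 / su G L p := by
  rw [← summable_nat_add_iff 1]
  exact (energy_C1 hG hL h).1

theorem Qt_eq {f f' : ℝ → ℝ} (hG : 9 ≤ G) (hL : 0 < L) (h : C1P L f f') :
    Qt G L f = NUC62.En L (su G L) (cf L f) := by
  unfold NUC62.En
  rw [(cf_summable hG hL h).tsum_eq_zero_add]
  unfold Qt QF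
  congr 1
  simp only [cf, su, Complex.norm_real, Real.norm_eq_abs, sq_abs]

theorem fc_lin {f g : ℝ → ℝ} (hf : ContinuousOn f (Icc (-(L / 2)) (L / 2)))
    (hg : ContinuousOn g (Icc (-(L / 2)) (L / 2))) (hL : 0 < L) (x : ℝ) (k : ℤ) :
    fc L (fun t => f t + x * g t) k = fc L f k + x * fc L g k := by
  unfold fc
  have hle : -(L / 2) ≤ L / 2 := by linarith
  have e : ∀ t : ℝ, Complex.exp (-(2 * Real.pi * k / L * t : ℝ) * Complex.I) * ((f t + x * g t : ℝ) : ℂ) =
      Complex.exp (-(2 * Real.pi * k / L * t : ℝ) * Complex.I) * (f t : ℂ) +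
      x * (Complex.exp (-(2 * Real.pi * k / L * t : ℝ) * Complex.I) * (g t : ℂ)) := by
    intro t
    push_cast
    ring
  simp_rw [e]
  have i : ∀ {h : ℝ → ℝ}, ContinuousOn h (Icc (-(L / 2)) (L / 2)) → IntervalIntegrable
      (fun t => Complex.exp (-(2 * Real.pi * k / L * t : ℝ) * Complex.I) * (h t : ℂ)) volume
      (-(L / 2)) (L / 2) := by
    intro h hh
    refine ContinuousOn.intervalIntegrable ?_
    rw [uIcc_of_le hle]
    exact ContinuousOn.mul (Continuous.continuousOn (by fun_prop))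
      (Complex.continuous_ofReal.comp_continuousOn hh)
  rw [intervalIntegral.integral_add (i hf) ((i hg).const_mul _),
    intervalIntegral.integral_const_mul]
  ring

theorem C1P.lin {f f' g g' : ℝ → ℝ} (hf : C1P L f f') (hg : C1P L g g') (x : ℝ) :
    C1P L (fun t => f t + x * g t) (fun t => f' t + x * g' t) where
  cont := hf.cont.add (hg.cont.const_smul x)
  deriv t ht := (hf.deriv t ht).add ((hg.deriv t ht).const_mul x)
  cont' := hf.cont'.add (hg.cont'.const_smul x)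
  per := by rw [hf.per, hg.per]

theorem Qt_nonneg {f f' : ℝ → ℝ} (hG : 9 ≤ G) (hL : 0 < L) (h : C1P L f f') : 0 ≤ Qt G L f := by
  rw [Qt_eq hG hL h]
  exact NUC62.En_nonneg hL (su_pos hG hL) _

/-- quadratic expansion -/
theorem Qt_add {f f' g g' : ℝ → ℝ} (hG : 9 ≤ G) (hL : 0 < L) (hf : C1P L f f')
    (hg : C1P L g g') : ∃ B : ℝ, B ^ 2 ≤ Qt G L f * Qt G L g ∧
      ∀ x : ℝ, Qt G L (fun t => f t + x * g t) = Qt G L f + 2 * x * B + x ^ 2 * Qt G L g := by
  obtain ⟨B, h1, h2⟩ := NUC62.Q_expand hL (su_pos hG hL) (cf_summable hG hL hf)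
    (cf_summable hG hL hg)
  rw [← Qt_eq hG hL hf, ← Qt_eq hG hL hg] at h1
  refine ⟨B, h1, fun x => ?_⟩
  have h3 := (h2 x).2
  rw [← Qt_eq hG hL hf, ← Qt_eq hG hL hg] at h3
  rw [← h3, Qt_eq hG hL (C1P.lin hf hg x)]
  congr 1
  funext p
  cases p with
  | zero =>
    simp only [cf]
    rw [fc_lin hf.cont hg.cont hL, Complex.add_re, Complex.re_ofReal_mul]
    push_cast
    rfl
  | succ p =>
    simp only [cf]
    rw [fc_lin hf.cont hg.cont hL]

theorem Qt_le {f f' : ℝ → ℝ} (hG : 9 ≤ G) (hL : 0 < L) (h : C1P L f f') :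
    Qt G L f ≤ 3 / 2 * (∫ x in (-(L / 2))..(L / 2), f x ^ 2) +
      √((∫ x in (-(L / 2))..(L / 2), f x ^ 2) * ∫ x in (-(L / 2))..(L / 2), f' x ^ 2) := by
  obtain ⟨s1, e1⟩ := NUC37.parseval_half hL h.cont
  have h2 := (energy_C1 hG hL h).2
  have h3 : L * (fc L f 0).re ^ 2 ≤ ∫ x in (-(L / 2))..(L / 2), f x ^ 2 := by
    have h4 : (fc L f 0).re ^ 2 ≤ ‖fc L f 0‖ ^ 2 := by
      rw [← sq_abs]
      gcongr
      exact Complex.abs_re_le_norm _
    have h5 : 0 ≤ ∑' p : ℕ, L * ‖fc L f (p + 1)‖ ^ 2 := tsum_nonneg fun p => by positivity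
    have h6 : L * (fc L f 0).re ^ 2 ≤ L * ‖fc L f 0‖ ^ 2 := by gcongr
    linarith
  unfold Qt QF
  linarith

/-- constant part of the exponent: energy of the density, mass term, one loop, errors -/
def B0 (G L δ : ℝ) (n : ℕ) (ρ : ℝ → ℝ) : ℝ :=
  1 / 2 * (∫ s, ρ s * ∫ s', ρ s' * V (s - s')) -
    NUC62.uG G L / 4 * (n - ∫ t in (-(L / 2))..(L / 2), ρ t) ^ 2 + 7 / 12 * L +
    NUC62.err G L n + cV * δ ^ 2 * (2 * G + 1)

/-- **One species**: density `ρ` (row plus objects), extra potential `E`. -/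
theorem one {T δ M : ℝ} (hG : 9 ≤ G) (hT : 0 < T) (n : ℕ) {ρ : ℝ → ℝ}
    (hρc : Continuous ρ) (hρ : Integrable ρ) (hM : ∀ s, |ρ s| ≤ M)
    (hδ : ∀ s, T ≤ |s| → |ρ s| ≤ δ * Real.exp (-(|s| - T))) (hL : L = 2 * T + 2 * G)
    {E E' : ℝ → ℝ} (hE : C1P L E E') {F : ℝ → ℝ} (hF : ∀ x, |x| ≤ T → F x ≤ E x) :
    ∫⁻ t : Fin n → ℝ in Set.univ.pi fun _ => Icc (-T) T,
      ENNReal.ofReal ((∏ i, ∏ j ∈ Finset.Ioi i, om (t i - t j)) *
        ∏ i, Real.exp ((∫ s, ρ s * V (t i - s)) + F (t i))) ≤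
    ENNReal.ofReal ((n.factorial : ℝ) * (2 * Real.pi / √NUC62.cω) ^ n *
      Real.exp (B0 G L δ n ρ + (∫ t in (-(L / 2))..(L / 2), ρ t * E t) + Qt G L E)) := by
  have hL0 : 0 < L := by rw [hL]; linarith
  have hsum := NUC37.summable_fc hL0 hE
  obtain ⟨hs, -⟩ := energy_C1 hG hL0 hE
  have hser : ∀ t ∈ Icc (-(L / 2)) (L / 2), E t = (fc L E 0).re +
      Aser (fun p => fc L E (p + 1)) (2 * π * t / L) := fun t ht => ser_C1P hL0 hE ht
  have h1 := wcs hG hT n hρc hρ hM hδ (fc L E 0).re (f := fun p : ℕ => fc L E (p + 1)) hsum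
    (by rw [← hL]; exact hs) (F := F) (fun x hx => by
      rw [← hL, ← hser x (by
        have := abs_le.1 hx
        constructor
        · rw [hL]; linarith
        · rw [hL]; linarith)]
      exact hF x hx)
  rw [← hL] at h1
  refine h1.trans (ENNReal.ofReal_le_ofReal ?_)
  refine mul_le_mul_of_nonneg_left (Real.exp_le_exp.2 ?_) (by positivity)
  -- exponents
  have e0 : (∫ t in (0 - L / 2)..(0 + L / 2), ρ t * Aser (fun p : ℕ => fc L E (p + 1))
      (2 * Real.pi * (t - 0) / L)) = (∫ t in (-(L / 2))..(L / 2), ρ t * E t) -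
        (fc L E 0).re * ∫ t in (-(L / 2))..(L / 2), ρ t := by
    have hle : -(L / 2) ≤ L / 2 := by linarith
    rw [zero_sub, zero_add, ← intervalIntegral.integral_const_mul,
      ← intervalIntegral.integral_sub]
    · refine intervalIntegral.integral_congr fun t ht => ?_
      rw [uIcc_of_le hle] at ht
      simp only [sub_zero]
      rw [hser t ht]
      ring
    · refine ContinuousOn.intervalIntegrable ?_
      rw [uIcc_of_le hle]
      exact hρc.continuousOn.mul hE.cont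
    · exact (continuous_const.mul hρc).intervalIntegrable _ _
  have hu := NUMFC.uG_ge hG hL0
  have e1 : (∫ t in (0 - L / 2)..(0 + L / 2), ρ t) = ∫ t in (-(L / 2))..(L / 2), ρ t := by
    rw [zero_sub, zero_add]
  unfold EW
  rw [e0, e1]
  set m := ∫ t in (-(L / 2))..(L / 2), ρ t with hm
  set E0 := (fc L E 0).re with hE0
  have hu0 : 0 < NUC62.uG G L := lt_of_lt_of_le (by positivity) hu
  have h2 : ((n : ℝ) - m) * E0 ≤ NUC62.uG G L / 4 * (n - m) ^ 2 + L * E0 ^ 2 / 2 := by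
    have h3 : ((n : ℝ) - m) * E0 ≤ NUC62.uG G L / 4 * (n - m) ^ 2 + E0 ^ 2 / NUC62.uG G L := by
      have : 0 ≤ NUC62.uG G L / 4 * ((n - m) - 2 * E0 / NUC62.uG G L) ^ 2 := by positivity
      have e : NUC62.uG G L / 4 * ((n - m) - 2 * E0 / NUC62.uG G L) ^ 2 =
          NUC62.uG G L / 4 * (n - m) ^ 2 - (n - m) * E0 + E0 ^ 2 / NUC62.uG G L := by
        field_simp
        ring
      linarith
    have h4 : E0 ^ 2 / NUC62.uG G L ≤ L * E0 ^ 2 / 2 := by
      rw [div_le_iff₀ hu0]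
      have h5 : 1 ≤ L / 2 * NUC62.uG G L := by
        have : L / 2 * (2 / L) = 1 := by field_simp
        rw [← this]
        gcongr
      nlinarith [sq_nonneg E0]
    linarith
  unfold B0 Qt
  rw [← hm, ← hE0]
  nlinarith

/-- **One species with a linear source** `x f`. -/
theorem one_lin {T δ M : ℝ} (hG : 9 ≤ G) (hT : 0 < T) (n : ℕ) {ρ : ℝ → ℝ}
    (hρc : Continuous ρ) (hρ : Integrable ρ) (hM : ∀ s, |ρ s| ≤ M)
    (hδ : ∀ s, T ≤ |s| → |ρ s| ≤ δ * Real.exp (-(|s| - T))) (hL : L = 2 * T + 2 * G)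
    {E E' : ℝ → ℝ} (hE : C1P L E E') {F : ℝ → ℝ} (hF : ∀ x, |x| ≤ T → F x ≤ E x)
    {f f' : ℝ → ℝ} (hf : C1P L f f') {φ : ℝ → ℝ} (hφ : ∀ x, |x| ≤ T → φ x = f x) :
    ∃ B : ℝ, B ^ 2 ≤ Qt G L E * Qt G L f ∧ ∀ x : ℝ,
    ∫⁻ t : Fin n → ℝ in Set.univ.pi fun _ => Icc (-T) T,
      ENNReal.ofReal ((∏ i, ∏ j ∈ Finset.Ioi i, om (t i - t j)) *
        ∏ i, Real.exp ((∫ s, ρ s * V (t i - s)) + F (t i))) *
      ENNReal.ofReal (Real.exp (x * ∑ i, φ (t i))) ≤
    ENNReal.ofReal ((n.factorial : ℝ) * (2 * Real.pi / √NUC62.cω) ^ n *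
      Real.exp (B0 G L δ n ρ + (∫ t in (-(L / 2))..(L / 2), ρ t * E t) + Qt G L E)) *
    ENNReal.ofReal (Real.exp (((∫ t in (-(L / 2))..(L / 2), ρ t * f t) + 2 * B) * x +
      2 * Qt G L f * x ^ 2 / 2)) := by
  have hL0 : 0 < L := by rw [hL]; linarith
  have hle : -(L / 2) ≤ L / 2 := by linarith
  obtain ⟨B, hB1, hB2⟩ := Qt_add hG hL0 hE hf
  refine ⟨B, hB1, fun x => ?_⟩
  have h1 := one hG hT n hρc hρ hM hδ hL (C1P.lin hE hf x) (F := fun t => F t + x * φ t)
    (fun t ht => by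
      rw [hφ t ht]
      linarith [hF t ht])
  refine le_trans (le_of_eq ?_) (h1.trans (le_of_eq ?_))
  · refine lintegral_congr fun t => ?_
    rw [← ENNReal.ofReal_mul (by
      have : 0 ≤ ∏ i, ∏ j ∈ Finset.Ioi i, om (t i - t j) :=
        Finset.prod_nonneg fun i _ => Finset.prod_nonneg fun j _ => om_nonneg _
      exact mul_nonneg this (Finset.prod_nonneg fun i _ => (Real.exp_pos _).le))]
    congr 1
    rw [mul_assoc, ← Real.exp_sum, ← Real.exp_sum, ← Real.exp_add]
    congr 2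
    rw [Finset.mul_sum, ← Finset.sum_add_distrib]
    exact Finset.sum_congr rfl fun i _ => by ring
  · rw [← ENNReal.ofReal_mul (by positivity)]
    congr 1
    rw [mul_assoc (n.factorial * (2 * π / √NUC62.cω) ^ n : ℝ) _ (Real.exp _), ← Real.exp_add]
    congr 2
    rw [hB2 x]
    have e1 : (∫ t in (-(L / 2))..(L / 2), ρ t * (E t + x * f t)) =
        (∫ t in (-(L / 2))..(L / 2), ρ t * E t) + x * ∫ t in (-(L / 2))..(L / 2), ρ t * f t := by
      rw [← intervalIntegral.integral_const_mul, ← intervalIntegral.integral_add]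
      · refine intervalIntegral.integral_congr fun t _ => ?_
        ring
      · refine ContinuousOn.intervalIntegrable ?_
        rw [uIcc_of_le hle]
        exact hρc.continuousOn.mul hE.cont
      · refine ContinuousOn.intervalIntegrable ?_
        rw [uIcc_of_le hle]
        exact (hρc.continuousOn.mul hf.cont).const_smul x
    rw [e1]
    ring

/-- square integral of a bounded function supported in `[-R, R]` -/
theorem int_sq_le {R C : ℝ} (hL : 0 < L) (hR : 0 ≤ R) {h : ℝ → ℝ}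
    (hc : ContinuousOn h (Icc (-(L / 2)) (L / 2))) (hb : ∀ x, |x| ≤ L / 2 → |h x| ≤ C)
    (h0 : ∀ x, |x| ≤ L / 2 → R < |x| → h x = 0) :
    ∫ x in (-(L / 2))..(L / 2), h x ^ 2 ≤ 2 * R * C ^ 2 := by
  have hle : -(L / 2) ≤ L / 2 := by linarith
  rw [intervalIntegral.integral_of_le hle]
  have h1 : ∫ x in Ioc (-(L / 2)) (L / 2), h x ^ 2 ≤
      ∫ x in Ioc (-(L / 2)) (L / 2), (Icc (-R) R).indicator (fun _ => C ^ 2) x := by
    refine setIntegral_mono_on ?_ ?_ measurableSet_Ioc fun x hx => ?_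
    · exact ((hc.pow 2).integrableOn_Icc).mono_set Ioc_subset_Icc_self
    · exact ((integrable_indicator_iff measurableSet_Icc).2
        (integrableOn_const (by simp) (by simp))).integrableOn
    · have hx' : |x| ≤ L / 2 := abs_le.2 ⟨hx.1.le, hx.2⟩
      by_cases hm : x ∈ Icc (-R) R
      · rw [indicator_of_mem hm, ← sq_abs]
        gcongr
        exact hb x hx'
      · rw [indicator_of_notMem hm, h0 x hx' (by
          by_contra hh
          exact hm (abs_le.1 (not_lt.1 hh)))]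
        simp
  refine h1.trans ?_
  have h2 : ∫ x in Ioc (-(L / 2)) (L / 2), (Icc (-R) R).indicator (fun _ => C ^ 2) x ≤
      ∫ x, (Icc (-R) R).indicator (fun _ => C ^ 2) x := by
    refine setIntegral_le_integral ((integrable_indicator_iff measurableSet_Icc).2
        (integrableOn_const (by simp) (by simp))) (Eventually.of_forall fun x => ?_)
    exact indicator_nonneg (fun _ _ => sq_nonneg C) x
  refine h2.trans (le_of_eq ?_)
  rw [integral_indicator measurableSet_Icc, setIntegral_const, Real.volume_real_Icc_of_le (by linarith),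
    smul_eq_mul]
  ring

/-- a cut off mode -/
theorem mode_C1P {T : ℝ} (hL : 0 < L) (hT : 2 * T + 2 ≤ L) {b b' : ℝ → ℝ}
    (hb : ∀ x, HasDerivAt b (b' x) x) (hb' : Continuous b') {e e' : ℝ → ℝ}
    (he : ∀ x, HasDerivAt e (e' x) x) (he' : Continuous e') :
    C1P L (fun x => chi T x * (b x * e x))
      (fun x => chi' T x * (b x * e x) + chi T x * (b' x * e x + b x * e' x)) := by
  have hbc : Continuous b := continuous_iff_continuousAt.2 fun x => (hb x).continuousAt
  have hec : Continuous e := continuous_iff_continuousAt.2 fun x => (he x).continuousAt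
  exact cut_C1P hL hT (fun x _ => (hb x).mul (he x)) (by fun_prop)

/-- energy of a cut off mode -/
theorem mode_Qt {T R a : ℝ} (hG : 9 ≤ G) (hL : 0 < L) (hT : 2 * T + 2 ≤ L) (hR : 0 ≤ R)
    {b b' : ℝ → ℝ} (hb : ∀ x, HasDerivAt b (b' x) x) (hb' : Continuous b')
    (hb1 : ∀ x, |b x| ≤ 1) (hb2 : ∀ x, |b' x| ≤ 1)
    (hb0 : ∀ x, |x| ≤ L / 2 → R < |x| → b x = 0)
    (hb3 : ∀ x, |x| ≤ L / 2 → R < |x| → b' x = 0) {e e' : ℝ → ℝ}
    (he : ∀ x, HasDerivAt e (e' x) x) (he' : Continuous e') (he1 : ∀ x, |e x| ≤ 1)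
    (he2 : ∀ x, |e' x| ≤ |a|) :
    Qt G L (fun x => chi T x * (b x * e x)) ≤ 11 * R * (1 + |a|) := by
  have hbc : Continuous b := continuous_iff_continuousAt.2 fun x => (hb x).continuousAt
  have hec : Continuous e := continuous_iff_continuousAt.2 fun x => (he x).continuousAt
  have h := mode_C1P hL hT hb hb' he he'
  have ha := abs_nonneg a
  have h1 : ∫ x in (-(L / 2))..(L / 2), (chi T x * (b x * e x)) ^ 2 ≤ 2 * R * 1 ^ 2 := by
    refine int_sq_le hL hR h.cont (fun x _ => ?_) fun x hx hxR => ?_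
    · rw [abs_mul, abs_mul]
      have a1 := chi_abs T x
      have a2 := hb1 x
      have a3 := he1 x
      have a4 : |b x| * |e x| ≤ 1 * 1 := by gcongr
      calc |chi T x| * (|b x| * |e x|) ≤ 1 * (1 * 1) := by gcongr
        _ = 1 := by norm_num
    · rw [hb0 x hx hxR]; ring
  have h2 : ∫ x in (-(L / 2))..(L / 2),
      (chi' T x * (b x * e x) + chi T x * (b' x * e x + b x * e' x)) ^ 2 ≤ 2 * R * (4 + |a|) ^ 2 := by
    refine int_sq_le hL hR h.cont' (fun x _ => ?_) fun x hx hxR => ?_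
    · have a1 := chi_abs T x
      have a1' := chi'_abs T x
      have a2 := hb1 x
      have a2' := hb2 x
      have a3 := he1 x
      have a3' := he2 x
      calc |chi' T x * (b x * e x) + chi T x * (b' x * e x + b x * e' x)| ≤
          |chi' T x * (b x * e x)| + |chi T x * (b' x * e x + b x * e' x)| := abs_add_le _ _
        _ ≤ |chi' T x| * (|b x| * |e x|) + |chi T x| * (|b' x| * |e x| + |b x| * |e' x|) := by
            rw [abs_mul, abs_mul, abs_mul (chi T x)]
            gcongr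
            refine (abs_add_le _ _).trans ?_
            rw [abs_mul, abs_mul]
        _ ≤ 3 * (1 * 1) + 1 * (1 * 1 + 1 * |a|) := by gcongr
        _ = _ := by ring
    · rw [hb0 x hx hxR, hb3 x hx hxR]; ring
  have h3 := Qt_le hG hL h
  have h4 : √((∫ x in (-(L / 2))..(L / 2), (chi T x * (b x * e x)) ^ 2) *
      ∫ x in (-(L / 2))..(L / 2), (chi' T x * (b x * e x) + chi T x * (b' x * e x + b x * e' x)) ^ 2) ≤
      2 * R * (4 + |a|) := by
    rw [Real.sqrt_le_left (by positivity)]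
    calc _ ≤ (2 * R * 1 ^ 2) * (2 * R * (4 + |a|) ^ 2) := by
          gcongr
          exact intervalIntegral.integral_nonneg (by linarith) fun x _ => sq_nonneg _
      _ = _ := by ring
  nlinarith

end

end NUH0
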