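import Pool.Agent.NUH0.OneF

/-!
# One species: exponential moments of the modes, local version

`oneF_R`: `NUH0.oneF` with `m2 ≥ ∫_{|x| ≤ R} |ρ - ρν|` (the cut modes vanish outside `[-R, R]`).
-/

set_option autoImplicit false

open MeasureTheory Set Filter Topology
open scoped Real ENNReal

namespace NUH0

open NUMF NUWC NUC37 NUKer NUDi

noncomputable section

variable {G L T δ M R : ℝ} {ρ ρν : ℝ → ℝ}

/-- the linear coefficient: `f` supported in `[-R, R]` -/
theorem lin_le_R (hT : 0 < T) (hTL : 2 * T + 2 ≤ L)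
    (hρ : Integrable ρ) (hν : Integrable ρν) {f : ℝ → ℝ} (hf : Continuous f) (hf1 : ∀ x, |f x| ≤ 1)
    (hf0 : ∀ x, R < |x| → f x = 0)
    {m2 δ2 : ℝ} (h2 : ∫ x in {x | |x| ≤ R}, |ρ x - ρν x| ≤ m2) (h3 : ∫ x in {x | T ≤ |x|}, |ρν x| ≤ δ2) :
    |(∫ t in (-(L / 2))..(L / 2), ρ t * (chi T t * f t)) - ∫ t, f t * ρν t| ≤ m2 + δ2 := by
  have hle : -(L / 2) ≤ L / 2 := by linarith
  have e1 : (∫ t in (-(L / 2))..(L / 2), ρ t * (chi T t * f t)) = ∫ t, ρ t * (chi T t * f t) := by
    rw [intervalIntegral.integral_of_le hle]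
    refine setIntegral_eq_integral_of_forall_compl_eq_zero fun x hx => ?_
    rw [chi_out, zero_mul, mul_zero]
    by_contra h
    push Not at h
    rw [abs_lt] at h
    exact hx ⟨by linarith, by linarith⟩
  have hcb : ∀ x, |chi T x * f x| ≤ 1 := fun x => by
    rw [abs_mul]
    calc |chi T x| * |f x| ≤ 1 * 1 := by
          gcongr
          · exact chi_abs T x
          · exact hf1 x
      _ = 1 := by norm_num
  have hcc := chi_cont T
  have i1 : Integrable fun t => (ρ t - ρν t) * (chi T t * f t) :=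
    (hρ.sub hν).mul_bdd (c := 1) (Continuous.aestronglyMeasurable (by fun_prop))
      (Eventually.of_forall fun x => by rw [Real.norm_eq_abs]; exact hcb x)
  have hcb2 : ∀ x, |(chi T x - 1) * f x| ≤ {x | T ≤ |x|}.indicator (fun _ => (1 : ℝ)) x := by
    intro x
    by_cases hx : T ≤ |x|
    · rw [indicator_of_mem (show x ∈ {x | T ≤ |x|} from hx), abs_mul]
      have a1 := chi_abs T x
      have a2 : 0 ≤ chi T x := by
        unfold chi
        exact mul_nonneg (cutS_nonneg _) (cutS_nonneg _)
      have a3 := abs_le.1 a1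
      have a4 : |chi T x - 1| ≤ 1 := abs_le.2 ⟨by linarith, by linarith⟩
      calc |chi T x - 1| * |f x| ≤ 1 * 1 := by
            gcongr
            exact hf1 x
        _ = 1 := by norm_num
    · rw [indicator_of_notMem (show x ∉ {x | T ≤ |x|} from hx), chi_in (le_of_not_ge hx)]
      simp
  have i2 : Integrable fun t => ρν t * ((chi T t - 1) * f t) :=
    hν.mul_bdd (c := 1) (Continuous.aestronglyMeasurable (by fun_prop))
      (Eventually.of_forall fun x => by
        rw [Real.norm_eq_abs]
        refine (hcb2 x).trans ?_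
        exact indicator_le_self' (fun _ _ => zero_le_one) _)
  have i3 : Integrable fun t => ρ t * (chi T t * f t) :=
    hρ.mul_bdd (c := 1) (Continuous.aestronglyMeasurable (by fun_prop))
      (Eventually.of_forall fun x => by rw [Real.norm_eq_abs]; exact hcb x)
  have i4 : Integrable fun t => f t * ρν t :=
    hν.bdd_mul (c := 1) hf.aestronglyMeasurable
      (Eventually.of_forall fun x => by rw [Real.norm_eq_abs]; exact hf1 x)
  have e2 : (∫ t, ρ t * (chi T t * f t)) - ∫ t, f t * ρν t =
      (∫ t, (ρ t - ρν t) * (chi T t * f t)) + ∫ t, ρν t * ((chi T t - 1) * f t) := by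
    rw [← integral_sub i3 i4, ← integral_add i1 i2]
    congr 1
    funext t
    ring
  rw [e1, e2]
  refine (abs_add_le _ _).trans (add_le_add ?_ ?_)
  · refine le_trans ?_ h2
    rw [← Real.norm_eq_abs]
    refine (norm_integral_le_integral_norm _).trans ?_
    have hS : MeasurableSet {x : ℝ | |x| ≤ R} := measurableSet_le (by fun_prop) measurable_const
    rw [← integral_indicator hS]
    refine integral_mono i1.norm ((hρ.sub hν).abs.indicator hS) fun x => ?_
    rw [norm_mul, Real.norm_eq_abs, Real.norm_eq_abs]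
    by_cases hx : x ∈ {x : ℝ | |x| ≤ R}
    · rw [indicator_of_mem hx]
      exact mul_le_of_le_one_right (abs_nonneg _) (hcb x)
    · rw [indicator_of_notMem hx, hf0 x (not_le.1 hx)]
      simp
  · refine le_trans ?_ h3
    rw [← Real.norm_eq_abs]
    refine (norm_integral_le_integral_norm _).trans ?_
    have hS : MeasurableSet {x : ℝ | T ≤ |x|} := measurableSet_le measurable_const (by fun_prop)
    rw [← integral_indicator hS]
    refine integral_mono i2.norm (hν.abs.indicator hS) fun x => ?_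
    rw [norm_mul, Real.norm_eq_abs, Real.norm_eq_abs]
    have h5 := hcb2 x
    by_cases hx : x ∈ {x : ℝ | T ≤ |x|}
    · rw [indicator_of_mem hx] at h5 ⊢
      exact mul_le_of_le_one_right (abs_nonneg _) h5
    · rw [indicator_of_notMem hx] at h5 ⊢
      have : |(chi T x - 1) * f x| = 0 := le_antisymm h5 (abs_nonneg _)
      rw [this, mul_zero]

/-- **Exponential moments of the modes for one species**, difference of the densities on `[-R, R]`
only. -/
theorem oneF_R (hG : 9 ≤ G) (hT : 0 < T) (n : ℕ) (hρc : Continuous ρ) (hρ : Integrable ρ)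
    (hM : ∀ s, |ρ s| ≤ M)
    (hδ : ∀ s, T ≤ |s| → |ρ s| ≤ δ * Real.exp (-(|s| - T))) (hL : L = 2 * T + 2 * G)
    {E E' : ℝ → ℝ} (hE : C1P L E E') {F : ℝ → ℝ} (hF : ∀ x, |x| ≤ T → F x ≤ E x)
    {b b' : ℝ → ℝ} (hb : Cutf R b) (hR : 1 ≤ R) (hbd : ∀ x, HasDerivAt b (b' x) x)
    (hbc : Continuous b') (hb1 : ∀ x, |b' x| ≤ 1) (hν : Integrable ρν)
    {m2 δ2 : ℝ} (h2 : ∫ x in {x | |x| ≤ R}, |ρ x - ρν x| ≤ m2) (h3 : ∫ x in {x | T ≤ |x|}, |ρν x| ≤ δ2) :
    OneF b ρν (WT T n ρ F) (ENNReal.ofReal (BT G L δ n ρ E)) (22 * R)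
      ((m2 + δ2) ^ 2 + 4 * Qt G L E) := by
  have hL0 : 0 < L := by rw [hL]; linarith
  have hTL : 2 * T + 2 ≤ L := by rw [hL]; linarith
  have hS : MeasurableSet (Set.univ.pi fun _ : Fin n => Icc (-T) T) :=
    MeasurableSet.univ_pi fun _ => measurableSet_Icc
  -- the general step
  have go : ∀ (a : ℝ) (e e' : ℝ → ℝ), (∀ x, HasDerivAt e (e' x) x) → Continuous e' →
      (∀ x, |e x| ≤ 1) → (∀ x, |e' x| ≤ |a|) →
      ∃ l q : ℝ, q ≤ 22 * R * (1 + |a|) ∧
        l ^ 2 ≤ ((m2 + δ2) ^ 2 + 4 * Qt G L E) * (22 * R * (1 + |a|)) ∧ ∀ x : ℝ,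
        ∫⁻ ω, WT T n ρ F ω * ENNReal.ofReal (Real.exp (x * nuF ρν ω fun t => b t * e t)) ∂volume ≤
          ENNReal.ofReal (BT G L δ n ρ E) * ENNReal.ofReal (Real.exp (l * x + q * x ^ 2 / 2)) := by
    intro a e e' he he' he1 he2
    have ha := abs_nonneg a
    have hec : Continuous e := continuous_iff_continuousAt.2 fun x => (he x).continuousAt
    have hm := mode_C1P hL0 hTL hbd hbc he he' (T := T)
    have hq := mode_Qt (a := a) hG hL0 hTL (by linarith : 0 ≤ R) hbd hbc hb.le hb1
      (fun x _ hx => hb.zero x hx) (fun x _ hx => deriv_zero hb hbd hx) he he' he1 he2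
    obtain ⟨B, hB1, hB2⟩ := one_lin hG hT n hρc hρ hM hδ hL hE hF hm (φ := fun x => b x * e x)
      (fun x hx => by rw [chi_in hx, one_mul])
    set Qf := Qt G L fun x => chi T x * (b x * e x) with hQf
    have hE0 := Qt_nonneg hG hL0 hE
    have hl := lin_le_R (R := R) hT hTL hρ hν (f := fun x => b x * e x) (hb.cont.mul hec) (fun x => by
      rw [abs_mul]
      calc |b x| * |e x| ≤ 1 * 1 := by
            gcongr
            · exact hb.le x
            · exact he1 x
        _ = 1 := by norm_num) (fun x hx => by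
        show b x * e x = 0
        rw [hb.zero x hx, zero_mul]) h2 h3
    set l0 := (∫ t in (-(L / 2))..(L / 2), ρ t * (chi T t * (b t * e t))) - ∫ t, b t * e t * ρν t with hl0
    refine ⟨l0 + 2 * B, 2 * Qf, by linarith, ?_, fun x => ?_⟩
    · have h4 : l0 ^ 2 ≤ (m2 + δ2) ^ 2 := by
        rw [← sq_abs l0]
        gcongr
      have h5 : B ^ 2 ≤ Qt G L E * (11 * R * (1 + |a|)) := hB1.trans (by gcongr)
      have h6 : (l0 + 2 * B) ^ 2 ≤ 2 * l0 ^ 2 + 8 * B ^ 2 := by nlinarith [sq_nonneg (l0 - 2 * B)]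
      have h7 : 2 * (m2 + δ2) ^ 2 ≤ (m2 + δ2) ^ 2 * (22 * R * (1 + |a|)) := by
        have : 2 ≤ 22 * R * (1 + |a|) := by nlinarith
        nlinarith [sq_nonneg (m2 + δ2)]
      nlinarith
    · have h4 := hB2 x
      have e1 : ∀ ω : Fin n → ℝ, WT T n ρ F ω *
          ENNReal.ofReal (Real.exp (x * nuF ρν ω fun t => b t * e t)) =
          ENNReal.ofReal (Real.exp (-(x * ∫ t, b t * e t * ρν t))) *
          ((Set.univ.pi fun _ => Icc (-T) T).indicator (fun t =>
            ENNReal.ofReal ((∏ i, ∏ j ∈ Finset.Ioi i, om (t i - t j)) *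
              ∏ i, Real.exp ((∫ s, ρ s * V (t i - s)) + F (t i))) *
            ENNReal.ofReal (Real.exp (x * ∑ i, b (t i) * e (t i)))) ω) := by
        intro ω
        unfold WT
        by_cases hω : ω ∈ Set.univ.pi fun _ : Fin n => Icc (-T) T
        · rw [indicator_of_mem hω, indicator_of_mem hω, mul_left_comm]
          congr 1
          rw [← ENNReal.ofReal_mul (Real.exp_pos _).le, ← Real.exp_add]
          congr 2
          unfold nuF
          ring
        · rw [indicator_of_notMem hω, indicator_of_notMem hω, zero_mul, mul_zero]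
      simp_rw [e1]
      rw [lintegral_const_mul' _ _ ENNReal.ofReal_ne_top, lintegral_indicator hS]
      calc ENNReal.ofReal (Real.exp (-(x * ∫ t, b t * e t * ρν t))) * _ ≤
          ENNReal.ofReal (Real.exp (-(x * ∫ t, b t * e t * ρν t))) * _ :=
            mul_le_mul_right h4 _
        _ = _ := by
          rw [mul_left_comm, ← ENNReal.ofReal_mul (Real.exp_pos _).le, ← Real.exp_add]
          congr 3
          rw [hl0]
          ring
  refine ⟨fun a => ?_, fun a => ?_⟩
  · exact go a (fun t => Real.cos (a * t)) (fun t => -Real.sin (a * t) * a)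
      (fun x => by
        have := ((hasDerivAt_id x).const_mul a).cos
        simpa using this) (by fun_prop) (fun x => Real.abs_cos_le_one _) (fun x => by
        rw [abs_mul, abs_neg]
        exact mul_le_of_le_one_left (abs_nonneg _) (Real.abs_sin_le_one _))
  · exact go a (fun t => Real.sin (a * t)) (fun t => Real.cos (a * t) * a)
      (fun x => by
        have := ((hasDerivAt_id x).const_mul a).sin
        simpa using this) (by fun_prop) (fun x => Real.abs_sin_le_one _) (fun x => by
        rw [abs_mul]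
        exact mul_le_of_le_one_left (abs_nonneg _) (Real.abs_cos_le_one _))

end

end NUH0
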