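import Pool.Agent.NU42.Sum
import Pool.Agent.NUDi.Num

/-!
# Exponential squares of the modes on the window: sum over the shells

`SqC`: on the window `[-T, T]`, exponential squares of the cut modes `nuF ρ (b cos a·)`;
`sqW_shells`: bounds `A e^{g (T - T0)}` for `T0 ≤ T ≤ R` with the regular majorant `e^B` of the cutoff give
`SqW` for the weight with the true cutoff on the window `[-R, R]`.
-/

set_option autoImplicit false

open MeasureTheory Set Filter Topology
open scoped ENNReal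

namespace NUH0

open NUKer NUDi NUR2

noncomputable section

variable {p n : ℕ}

/-- exponential squares of the cut modes on the window `[-T, T]` -/
structure SqC (W : Cfg p n → ℝ) (T : ℝ) (bb ρ : ℝ → ℝ) (A c : ℝ) : Prop where
  cosX : ∀ a : ℝ, ∫⁻ x in NU42.Bw p n T, ENNReal.ofReal (W x * Real.exp (c / (1 + |a|) *
    (nuF ρ x.1 fun t => bb t * Real.cos (a * t)) ^ 2)) ≤ ENNReal.ofReal A
  sinX : ∀ a : ℝ, ∫⁻ x in NU42.Bw p n T, ENNReal.ofReal (W x * Real.exp (c / (1 + |a|) *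
    (nuF ρ x.1 fun t => bb t * Real.sin (a * t)) ^ 2)) ≤ ENNReal.ofReal A
  cosY : ∀ a : ℝ, ∫⁻ x in NU42.Bw p n T, ENNReal.ofReal (W x * Real.exp (c / (1 + |a|) *
    (nuF ρ x.2 fun t => bb t * Real.cos (a * t)) ^ 2)) ≤ ENNReal.ofReal A
  sinY : ∀ a : ℝ, ∫⁻ x in NU42.Bw p n T, ENNReal.ofReal (W x * Real.exp (c / (1 + |a|) *
    (nuF ρ x.2 fun t => bb t * Real.sin (a * t)) ^ 2)) ≤ ENNReal.ofReal A

theorem Bw_eq (R : ℝ) : NU42.Bw p n R = Bx (p := p) (n := n) R := by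
  ext x
  rw [NU42.mem_Bw]
  rfl

/-- window statistic and cut statistic differ by a small constant -/
theorem nu_sq_le {N : ℕ} {R τ : ℝ} (hR : 0 ≤ R) {bb ρ : ℝ → ℝ} (hbc : Continuous bb)
    (hb1 : ∀ t, |t| ≤ R → bb t = 1) (hbl : ∀ t, |bb t| ≤ 1) (hρ : Integrable ρ)
    (hτ : ∫ t in {t | R < |t|}, |ρ t| ≤ τ) {f : ℝ → ℝ} (hf : Continuous f) (hf1 : ∀ t, |f t| ≤ 1)
    (t : Fin N → ℝ) (ht : ∀ i, |t i| ≤ R) :
    nu R ρ t f ^ 2 ≤ 2 * (nuF ρ t fun t => bb t * f t) ^ 2 + 2 * τ ^ 2 := by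
  have hms : MeasurableSet {t : ℝ | R < |t|} := measurableSet_lt measurable_const measurable_norm
  obtain ⟨c, hc⟩ : ∃ c : ℝ, c = (∫ t, bb t * f t * ρ t) - ∫ t in (-R)..R, f t * ρ t := ⟨_, rfl⟩
  have hbf : Integrable fun t => bb t * f t * ρ t := by
    refine hρ.bdd_mul (c := 1) (hbc.mul hf).aestronglyMeasurable (ae_of_all _ fun t => ?_)
    rw [norm_mul, Real.norm_eq_abs, Real.norm_eq_abs]
    have := mul_le_mul (hbl t) (hf1 t) (abs_nonneg _) zero_le_one
    linarith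
  have hcb : |c| ≤ τ := by
    have e1 := integral_add_compl (s := {t : ℝ | R < |t|}) hms hbf
    have e2 : ∫ t in {t : ℝ | R < |t|}ᶜ, bb t * f t * ρ t = ∫ t in (-R)..R, f t * ρ t := by
      rw [intervalIntegral.integral_of_le (by linarith), ← integral_Icc_eq_integral_Ioc]
      have e3 : {t : ℝ | R < |t|}ᶜ = Icc (-R) R := by
        ext t
        simp [abs_le]
      rw [e3]
      refine setIntegral_congr_fun measurableSet_Icc fun t ht => ?_
      rw [hb1 t (abs_le.2 ht), one_mul]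
    have e4 : c = ∫ t in {t : ℝ | R < |t|}, bb t * f t * ρ t := by
      rw [hc, ← e1, e2]
      ring
    rw [e4]
    refine le_trans ?_ hτ
    have e5 := norm_integral_le_of_norm_le (μ := volume.restrict {t : ℝ | R < |t|})
      (f := fun t => bb t * f t * ρ t) (g := fun t => |ρ t|) hρ.abs.integrableOn
      (ae_of_all _ fun t => by
        rw [norm_mul, norm_mul, Real.norm_eq_abs, Real.norm_eq_abs, Real.norm_eq_abs]
        have := mul_le_mul (hbl t) (hf1 t) (abs_nonneg _) zero_le_one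
        have h5 := abs_nonneg (ρ t)
        nlinarith)
    exact e5
  have e7 : nu R ρ t f = c + nuF ρ t fun t => bb t * f t := by
    unfold nu nuF
    rw [hc]
    have e8 : ∀ i, f (t i) = bb (t i) * f (t i) := by
      intro i
      rw [hb1 _ (ht i), one_mul]
    simp only [← e8]
    ring
  rw [e7]
  have h5 : c ^ 2 ≤ τ ^ 2 := sq_le_sq' (by linarith [(abs_le.1 hcb).1]) (abs_le.1 hcb).2
  nlinarith [sq_nonneg (c - nuF ρ t fun t => bb t * f t)]

/-- change of the constants -/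
theorem _root_.NUDi.SqW.monoC {R c c' K K' : ℝ} {ρ : ℝ → ℝ} {g : Cfg p n → ℝ≥0∞} {B : ℝ≥0∞}
    (h : SqW g R ρ B c K) (hc : c' ≤ c) (hK : K ≤ K') : SqW g R ρ B c' K' := by
  have go : ∀ (N : Cfg p n → ℝ) (a : ℝ), ∫⁻ x in Bx R, g x * ENNReal.ofReal (Real.exp (c / (1 + |a|) *
      N x ^ 2)) ≤ B * ENNReal.ofReal (Real.exp K) →
      ∫⁻ x in Bx R, g x * ENNReal.ofReal (Real.exp (c' / (1 + |a|) *
      N x ^ 2)) ≤ B * ENNReal.ofReal (Real.exp K') := by
    intro N a h1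
    refine le_trans (lintegral_mono fun x => ?_) (h1.trans (by gcongr))
    gcongr
  exact ⟨fun a => go _ a (h.cosX a), fun a => go _ a (h.sinX a), fun a => go _ a (h.cosY a),
    fun a => go _ a (h.sinY a)⟩

/-- one mode -/
theorem shell_mode {DX DX1 DY DY1 : ℝ → ℂ} (m1 : Measurable DX) (m2 : Measurable DX1)
    (m3 : Measurable DY) (m4 : Measurable DY1) {a a' : ℝ → ℝ} (ma : Measurable a)
    (ma' : Measurable a') (ha : ∀ t, 0 ≤ a t) (ha' : ∀ t, 0 ≤ a' t)
    {cf B : ℝ → ℝ} (hB : Measurable B) {D q g A T0 R : ℝ} (hD : 0 ≤ D) (hA : 0 ≤ A) (hq : 0 < q)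
    (hg : g < q) (hg0 : 0 ≤ g) (hB0 : ∀ t, 0 ≤ B t) (h0 : ∀ t, 0 ≤ cf t)
    (h1 : ∀ t, cf t ≤ Real.exp (B t)) (h2 : ∀ t, cf t ≤ D * Real.exp (-q * |t|)) (hTR : T0 ≤ R)
    {N F : Cfg p n → ℝ} (mN : Measurable N) {c K0 : ℝ} (hK0 : 0 ≤ K0)
    (hNF : ∀ x ∈ Bx (p := p) (n := n) R, N x ^ 2 ≤ 2 * F x ^ 2 + K0) (hc : 0 ≤ c) {α : ℝ}
    (hα : 1 ≤ α)
    (hw : ∀ T, T0 ≤ T → T ≤ R → ∫⁻ x in NU42.Bw p n T, ENNReal.ofReal (NU42.WO DX DX1 DY DY1
      (fun t => a t * Real.exp (B t)) (fun t => a' t * Real.exp (B t)) x.1 x.2 *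
        Real.exp (c / α * F x ^ 2)) ≤ ENNReal.ofReal (A * Real.exp (g * (T - T0)))) :
    ∫⁻ x in Bx R, ENNReal.ofReal (NU42.WO DX DX1 DY DY1 (fun t => a t * cf t)
        (fun t => a' t * cf t) x.1 x.2) * ENNReal.ofReal (Real.exp (c / 2 / α * N x ^ 2)) ≤
      ENNReal.ofReal (A * Real.exp (c / 2 * K0) *
        (1 + D * Real.exp (-q * T0) * Real.exp g / (1 - Real.exp (-(q - g))))) := by
  have hms := measurableSet_Bx (p := p) (n := n) R
  have hα0 : 0 < α := by linarith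
  have hK0' : ∀ x ∈ Bx (p := p) (n := n) R,
      c / 2 / α * N x ^ 2 ≤ c / α * F x ^ 2 + c / 2 * K0 := by
    intro x hx
    have := hNF x hx
    have h3 : 0 ≤ c / 2 / α := by positivity
    have h4 : c / 2 / α * K0 ≤ c / 2 * K0 := by
      have : c / 2 / α ≤ c / 2 := div_le_self (by positivity) hα
      gcongr
    calc c / 2 / α * N x ^ 2 ≤ c / 2 / α * (2 * F x ^ 2 + K0) := by gcongr
      _ = c / α * F x ^ 2 + c / 2 / α * K0 := by ring
      _ ≤ _ := by linarith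
  have W0 : ∀ (u u' : ℝ → ℝ), (∀ t, 0 ≤ u t) → (∀ t, 0 ≤ u' t) → ∀ x : Cfg p n,
      0 ≤ NU42.WO DX DX1 DY DY1 u u' x.1 x.2 := fun u u' hu hu' x => NU42.WO_nonneg _ _ _ _ hu hu' _ _
  obtain ⟨E, hE⟩ : ∃ E : Cfg p n → ℝ,
      E = (Bx (p := p) (n := n) R).indicator fun x => Real.exp (c / 2 / α * N x ^ 2) := ⟨_, rfl⟩
  have mE : Measurable E := by
    rw [hE]
    exact (by fun_prop : Measurable fun x => Real.exp (c / 2 / α * N x ^ 2)).indicator hms
  have E0 : ∀ x, 0 ≤ E x := by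
    intro x
    rw [hE]
    exact indicator_nonneg (fun x _ => (Real.exp_pos _).le) x
  have Ein : ∀ x ∈ Bx (p := p) (n := n) R, E x = Real.exp (c / 2 / α * N x ^ 2) := by
    intro x hx
    rw [hE, indicator_of_mem hx]
  have Eout : ∀ x, x ∉ Bx (p := p) (n := n) R → E x = 0 := by
    intro x hx
    rw [hE, indicator_of_notMem hx]
  obtain ⟨Wb, hWb⟩ : ∃ Wb : Cfg p n → ℝ, Wb = fun x => NU42.WO DX DX1 DY DY1
    (fun t => a t * Real.exp (B t)) (fun t => a' t * Real.exp (B t)) x.1 x.2 := ⟨_, rfl⟩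
  have Wb0 : ∀ x, 0 ≤ Wb x := by
    intro x
    rw [hWb]
    exact W0 _ _ (fun t => mul_nonneg (ha t) (Real.exp_pos _).le)
      (fun t => mul_nonneg (ha' t) (Real.exp_pos _).le) x
  have hw' : ∀ T, T0 ≤ T → T ≤ R → ∫⁻ x in NU42.Bw p n T, ENNReal.ofReal (Wb x *
      Real.exp (c / α * F x ^ 2)) ≤ ENNReal.ofReal (A * Real.exp (g * (T - T0))) := by
    intro T a1 a2
    rw [hWb]
    exact hw T a1 a2
  -- the integrand on the window
  have h3 : ∀ T, T0 ≤ T → T ≤ R → ∫⁻ x in NU42.Bw p n T, ENNReal.ofReal (Wb x * E x) ≤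
      ENNReal.ofReal (A * Real.exp (c / 2 * K0) * Real.exp (g * (T - T0))) := by
    intro T hT0 hTR'
    have h4 : ∀ x ∈ NU42.Bw p n T, ENNReal.ofReal (Wb x * E x) ≤
        ENNReal.ofReal (Real.exp (c / 2 * K0)) *
          ENNReal.ofReal (Wb x * Real.exp (c / α * F x ^ 2)) := by
      intro x hx
      have hx' : x ∈ Bx (p := p) (n := n) R := by
        rw [NU42.mem_Bw] at hx
        exact ⟨fun i => (hx.1 i).trans hTR', fun i => (hx.2 i).trans hTR'⟩
      have hW := Wb0 x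
      rw [Ein x hx', ← ENNReal.ofReal_mul (Real.exp_pos _).le]
      refine ENNReal.ofReal_le_ofReal ?_
      have h5 : Real.exp (c / 2 / α * N x ^ 2) ≤
          Real.exp (c / α * F x ^ 2) * Real.exp (c / 2 * K0) := by
        rw [← Real.exp_add]
        exact Real.exp_le_exp.2 (hK0' x hx')
      calc _ ≤ Wb x * (Real.exp (c / α * F x ^ 2) * Real.exp (c / 2 * K0)) := by gcongr
        _ = _ := by ring
    refine (setLIntegral_mono' (NU42.Bw_meas T) h4).trans ?_
    rw [lintegral_const_mul' _ _ ENNReal.ofReal_ne_top]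
    calc _ ≤ ENNReal.ofReal (Real.exp (c / 2 * K0)) *
        ENNReal.ofReal (A * Real.exp (g * (T - T0))) := by
          have := hw' T hT0 hTR'
          gcongr
      _ = _ := by
        rw [← ENNReal.ofReal_mul (Real.exp_pos _).le]
        congr 1
        ring
  have key := NU42.WO_shells (p := p) (n := n) m1 m2 m3 m4 ma ma' ha ha' (E := E) mE E0 hB (D := D)
    (q := q) (g := g) (A := A * Real.exp (c / 2 * K0)) (T0 := T0) hD (by positivity) hq hg hB0 h0
    h1 h2 (by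
      intro j
      have hj0 : (0 : ℝ) ≤ j := Nat.cast_nonneg j
      have e2 : ∀ x : Cfg p n, NU42.WO DX DX1 DY DY1 (fun t => a t * Real.exp (B t))
          (fun t => a' t * Real.exp (B t)) x.1 x.2 = Wb x := fun x => by rw [hWb]
      simp only [e2]
      rcases le_or_gt (T0 + j) R with hj | hj
      · have h6 := h3 (T0 + j) (by linarith) hj
        rwa [add_sub_cancel_left] at h6
      · have h6 := h3 R hTR le_rfl
        have h7 : ∀ x ∈ NU42.Bw p n (T0 + j), ENNReal.ofReal (Wb x * E x) ≤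
            (NU42.Bw p n R).indicator (fun x => ENNReal.ofReal (Wb x * E x)) x := by
          intro x _
          by_cases hx : x ∈ Bx (p := p) (n := n) R
          · rw [Bw_eq, indicator_of_mem (s := Bx R) hx]
          · rw [Eout x hx, mul_zero, ENNReal.ofReal_zero]
            exact bot_le
        refine (setLIntegral_mono' (NU42.Bw_meas _) h7).trans ?_
        refine (setLIntegral_le_lintegral _ _).trans ?_
        rw [lintegral_indicator (NU42.Bw_meas R)]
        refine h6.trans (ENNReal.ofReal_le_ofReal ?_)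
        have h8 : g * (R - T0) ≤ g * j := mul_le_mul_of_nonneg_left (by linarith) hg0
        gcongr)
  refine le_trans (le_of_eq ?_) key
  rw [← lintegral_indicator hms]
  refine lintegral_congr fun x => ?_
  by_cases hx : x ∈ Bx (p := p) (n := n) R
  · rw [indicator_of_mem hx, Ein x hx, ENNReal.ofReal_mul (W0 _ _
      (fun t => mul_nonneg (ha t) (h0 t)) (fun t => mul_nonneg (ha' t) (h0 t)) x)]
  · rw [indicator_of_notMem hx, Eout x hx, mul_zero, ENNReal.ofReal_zero]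

/-- **sum over the shells**: exponential squares of the window statistics for the weight with the
true cutoff -/
theorem sqW_shells {DX DX1 DY DY1 : ℝ → ℂ} (m1 : Measurable DX) (m2 : Measurable DX1)
    (m3 : Measurable DY) (m4 : Measurable DY1) {a a' : ℝ → ℝ} (ma : Measurable a)
    (ma' : Measurable a') (ha : ∀ t, 0 ≤ a t) (ha' : ∀ t, 0 ≤ a' t)
    {cf B : ℝ → ℝ} (hB : Measurable B) {D q g A T0 R : ℝ} (hD : 0 ≤ D) (hA : 0 ≤ A) (hq : 0 < q)
    (hg : g < q) (hg0 : 0 ≤ g) (hB0 : ∀ t, 0 ≤ B t) (h0 : ∀ t, 0 ≤ cf t)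
    (h1 : ∀ t, cf t ≤ Real.exp (B t)) (h2 : ∀ t, cf t ≤ D * Real.exp (-q * |t|)) (hTR : T0 ≤ R)
    (hR : 0 ≤ R) {bb ρ : ℝ → ℝ} (hbc : Continuous bb) (hb1 : ∀ t, |t| ≤ R → bb t = 1)
    (hbl : ∀ t, |bb t| ≤ 1) (hρ : Integrable ρ) {τ : ℝ} (hτ : ∫ t in {t | R < |t|}, |ρ t| ≤ τ)
    {c K : ℝ} (hc : 0 ≤ c)
    (hw : ∀ T, T0 ≤ T → T ≤ R → SqC (p := p) (n := n) (fun x => NU42.WO DX DX1 DY DY1
      (fun t => a t * Real.exp (B t)) (fun t => a' t * Real.exp (B t)) x.1 x.2) T bb ρ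
        (A * Real.exp K * Real.exp (g * (T - T0))) c) :
    SqW (p := p) (n := n) (fun x => ENNReal.ofReal (NU42.WO DX DX1 DY DY1 (fun t => a t * cf t)
      (fun t => a' t * cf t) x.1 x.2)) R ρ
      (ENNReal.ofReal (A * (1 + D * Real.exp (-q * T0) * Real.exp g / (1 - Real.exp (-(q - g))))))
      (c / 2) (K + c * τ ^ 2) := by
  have hr1 : Real.exp (-(q - g)) < 1 := by
    rw [Real.exp_lt_one_iff]; linarith
  have h6 : 0 < 1 - Real.exp (-(q - g)) := by linarith
  have e0 : ENNReal.ofReal (A * Real.exp K * Real.exp (c / 2 * (2 * τ ^ 2)) *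
        (1 + D * Real.exp (-q * T0) * Real.exp g / (1 - Real.exp (-(q - g))))) =
      ENNReal.ofReal (A * (1 + D * Real.exp (-q * T0) * Real.exp g / (1 - Real.exp (-(q - g))))) *
        ENNReal.ofReal (Real.exp (K + c * τ ^ 2)) := by
    rw [← ENNReal.ofReal_mul (by positivity), Real.exp_add]
    congr 1
    rw [show c / 2 * (2 * τ ^ 2) = c * τ ^ 2 by ring]
    ring
  have go1 : ∀ (f : ℝ → ℝ), Continuous f → (∀ t, |f t| ≤ 1) → ∀ al : ℝ,
      (∀ T, T0 ≤ T → T ≤ R → ∫⁻ x in NU42.Bw p n T, ENNReal.ofReal (NU42.WO DX DX1 DY DY1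
      (fun t => a t * Real.exp (B t)) (fun t => a' t * Real.exp (B t)) x.1 x.2 *
        Real.exp (c / (1 + |al|) * (nuF ρ x.1 fun t => bb t * f t) ^ 2)) ≤
        ENNReal.ofReal (A * Real.exp K * Real.exp (g * (T - T0)))) →
      ∫⁻ x in Bx (p := p) (n := n) R, ENNReal.ofReal (NU42.WO DX DX1 DY DY1 (fun t => a t * cf t)
        (fun t => a' t * cf t) x.1 x.2) *
          ENNReal.ofReal (Real.exp (c / 2 / (1 + |al|) * (nu R ρ x.1 f) ^ 2)) ≤
      ENNReal.ofReal (A * (1 + D * Real.exp (-q * T0) * Real.exp g / (1 - Real.exp (-(q - g))))) *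
        ENNReal.ofReal (Real.exp (K + c * τ ^ 2)) := by
    intro f hf hf1 al h
    have := shell_mode (p := p) (n := n) m1 m2 m3 m4 ma ma' ha ha' hB hD
      (A := A * Real.exp K) (by positivity) hq hg hg0 hB0 h0 h1 h2 hTR
      (N := fun x => nu R ρ x.1 f) (F := fun x => nuF ρ x.1 fun t => bb t * f t)
      (meas_modeX f hf) (K0 := 2 * τ ^ 2) (by positivity)
      (fun x hx => nu_sq_le hR hbc hb1 hbl hρ hτ hf hf1 x.1 hx.1) hc (α := 1 + |al|)
      (by linarith [abs_nonneg al]) h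
    rw [e0] at this
    exact this
  have go2 : ∀ (f : ℝ → ℝ), Continuous f → (∀ t, |f t| ≤ 1) → ∀ al : ℝ,
      (∀ T, T0 ≤ T → T ≤ R → ∫⁻ x in NU42.Bw p n T, ENNReal.ofReal (NU42.WO DX DX1 DY DY1
      (fun t => a t * Real.exp (B t)) (fun t => a' t * Real.exp (B t)) x.1 x.2 *
        Real.exp (c / (1 + |al|) * (nuF ρ x.2 fun t => bb t * f t) ^ 2)) ≤
        ENNReal.ofReal (A * Real.exp K * Real.exp (g * (T - T0)))) →
      ∫⁻ x in Bx (p := p) (n := n) R, ENNReal.ofReal (NU42.WO DX DX1 DY DY1 (fun t => a t * cf t)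
        (fun t => a' t * cf t) x.1 x.2) *
          ENNReal.ofReal (Real.exp (c / 2 / (1 + |al|) * (nu R ρ x.2 f) ^ 2)) ≤
      ENNReal.ofReal (A * (1 + D * Real.exp (-q * T0) * Real.exp g / (1 - Real.exp (-(q - g))))) *
        ENNReal.ofReal (Real.exp (K + c * τ ^ 2)) := by
    intro f hf hf1 al h
    have := shell_mode (p := p) (n := n) m1 m2 m3 m4 ma ma' ha ha' hB hD
      (A := A * Real.exp K) (by positivity) hq hg hg0 hB0 h0 h1 h2 hTR
      (N := fun x => nu R ρ x.2 f) (F := fun x => nuF ρ x.2 fun t => bb t * f t)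
      (meas_modeY f hf) (K0 := 2 * τ ^ 2) (by positivity)
      (fun x hx => nu_sq_le hR hbc hb1 hbl hρ hτ hf hf1 x.2 hx.2) hc (α := 1 + |al|)
      (by linarith [abs_nonneg al]) h
    rw [e0] at this
    exact this
  exact ⟨fun al => go1 _ (by fun_prop) (fun t => Real.abs_cos_le_one _) al
      fun T a1 a2 => (hw T a1 a2).cosX al,
    fun al => go1 _ (by fun_prop) (fun t => Real.abs_sin_le_one _) al
      fun T a1 a2 => (hw T a1 a2).sinX al,
    fun al => go2 _ (by fun_prop) (fun t => Real.abs_cos_le_one _) al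
      fun T a1 a2 => (hw T a1 a2).cosY al,
    fun al => go2 _ (by fun_prop) (fun t => Real.abs_sin_le_one _) al
      fun T a1 a2 => (hw T a1 a2).sinY al⟩

end

end NUH0
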